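import Pool.Agent.P.MP_098a67_ag.R3.TriC

namespace Pool.Agent.P.MP_098a67_ag.R3

open Module T3
open LinearMap (ker range)

section Upper

variable {X : Type} [AddCommGroup X] [Module ℂ X] [Module.Finite ℂ X]
  {m n : Type} [Fintype m] [DecidableEq m] [Fintype n] [DecidableEq n]

theorem conc_step (hX : finrank ℂ X = 3) (T : X →ₗ[ℂ] (n → ℂ) →ₗ[ℂ] (m → ℂ)) (hc : ¬ Conc T)
    (hN : Fintype.card n ≤ 3 * Fintype.card m) :
    ∃ T' : X →ₗ[ℂ] (n → ℂ) →ₗ[ℂ] (m → ℂ), dm (KK T' ⊤) < dm (KK T ⊤) ∧ ∀ r, RK T' r → RK T r := by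
  simp only [Conc, not_forall] at hc
  obtain ⟨v0, h0, hv0⟩ := hc
  obtain ⟨φ, hφ, -⟩ := exists_fun (Z := ⊥) (v := v0) hv0
  obtain ⟨w, -, hw⟩ := exists_notMem (S := range T.flip) (T := ⊤) (by
    have h1 := dm_range_ker T.flip
    have h2 : dm (ℂ ∙ v0) ≤ dm (ker T.flip) :=
      dm_mono ((Submodule.span_singleton_le_iff_mem _ _).2 (LinearMap.ext h0))
    rw [dm_span_single hv0] at h2
    rw [card_fun] at h1
    rw [dm_top, Module.finrank_linearMap, hX, card_fun]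
    omega)
  let T' : X →ₗ[ℂ] (n → ℂ) →ₗ[ℂ] (m → ℂ) := T + (φ.smulRight w).flip
  have e : ∀ x v, T' x v = T x v + φ v • w x := fun _ _ => rfl
  have e2 : ∀ x v, T x v = T' x (v - φ v • v0) := fun x v => by
    simp [e, h0, hφ]
  have k : ∀ v ∈ KK T' ⊤, φ v = 0 := fun v hv => by
    by_contra hne
    refine hw ⟨-(φ v)⁻¹ • v, LinearMap.ext fun x => smul_right_injective _ hne ?_⟩
    have := hv x trivial
    rw [e] at this
    simp only [LinearMap.flip_apply, map_smul, LinearMap.smul_apply, smul_smul, mul_neg,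
      mul_inv_cancel₀ hne]
    linear_combination (norm := module) -this
  refine ⟨T', dm_lt (v := v0) (fun v hv x _ => ?_) (fun x _ => h0 x) fun hv => ?_,
      fun r h => h.of id LinearMap.id (LinearMap.id - φ.smulRight v0) e2⟩
  · have := hv x trivial
    rwa [e, k v hv, zero_smul, add_zero] at this
  · exact one_ne_zero (hφ.symm.trans (k v0 hv))

/-- Removing a row of rank one. -/
theorem row_step (hX : finrank ℂ X = 3) (T : X →ₗ[ℂ] (n → ℂ) →ₗ[ℂ] (m → ℂ)) (hl : ¬ L0 T) :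
    ∃ (d : ℕ) (T' : X →ₗ[ℂ] (n → ℂ) →ₗ[ℂ] (Fin d → ℂ)), d + 1 = Fintype.card m ∧
      ∀ r, RK T' r → RK T (r + 1) := by
  simp only [L0, not_forall] at hl
  obtain ⟨x, y, η, hx, hy, h1, h2, h0⟩ := hl
  obtain ⟨z, hz⟩ := exists_off hX x y
  obtain ⟨φ, φ1, φ2⟩ := exists_fun hz
  have d1 := dm_perp (ℂ ∙ η)
  rw [dm_span_single h0] at d1
  obtain ⟨w, -, hw⟩ := exists_notMem (S := perp (ℂ ∙ η)) (T := ⊤) (by rw [dm_top, card_fun]; omega)
  have mp : ∀ p : m → ℂ, p ⬝ᵥ η = 0 → p ∈ perp (ℂ ∙ η) := fun p hp v hv => by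
    obtain ⟨c, rfl⟩ := Submodule.mem_span_singleton.1 hv
    rw [dotProduct_smul, hp, smul_zero]
  have ha : w ⬝ᵥ η ≠ 0 := fun e => hw (mp w e)
  obtain ⟨i, j, -, -, hi, hj⟩ := exists_param (S := perp (ℂ ∙ η)) (Z := ℂ ∙ w) fun v h3 h4 => by
    obtain ⟨c, rfl⟩ := Submodule.mem_span_singleton.1 h4
    by_contra e
    exact hw ((Submodule.smul_mem_iff _ (left_ne_zero_of_smul e)).1 h3)
  let f : (n → ℂ) →ₗ[ℂ] (m → ℂ) :=
    ((w ⬝ᵥ η)⁻¹ • dotProductEquiv ℂ n (tr (T z) η)).smulRight w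
  have hf : dm (range f) ≤ 1 := le_trans (dm_mono (by
    rintro _ ⟨v, rfl⟩
    exact Submodule.mem_span_singleton.2 ⟨_, rfl⟩)) (dm_span_le w)
  refine ⟨_, T.compr₂ j, by omega, fun r h => RK.add (h.of (g := fun x => i ∘ₗ j ∘ₗ T x) id i
    LinearMap.id fun _ _ => rfl) (((rk_one f).mono hf).re (g := fun x => φ x • f) φ
    fun _ _ => rfl) fun s v => ?_⟩
  have e1 : T s v ⬝ᵥ η = φ s * (tr (T z) η ⬝ᵥ v) := by
    obtain ⟨p, rfl⟩ := span3 hX hx hy hz s
    rw [dotProduct_comm, ← tr_dot]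
    simp only [map_add, map_smul, tr_sl, h1, h2, φ1, φ2 x (left_pen _ _), φ2 y (right_pen _ _),
      smul_zero, zero_add, smul_dotProduct, smul_eq_mul, mul_one, mul_zero]
  have e2 := hi (T s v - ((w ⬝ᵥ η)⁻¹ * (T s v ⬝ᵥ η)) • w) (mp _ (by
    rw [sub_dotProduct, smul_dotProduct, smul_eq_mul]
    field_simp
    ring))
  rw [map_sub, map_smul, hj w (Submodule.mem_span_singleton_self w), smul_zero, sub_zero, e1] at e2
  show T s v = i (j (T s v)) + φ s • ((w ⬝ᵥ η)⁻¹ * (tr (T z) η ⬝ᵥ v)) • w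
  rw [e2]
  module

theorem rk_three (hX : finrank ℂ X = 3) (T : X →ₗ[ℂ] (n → ℂ) →ₗ[ℂ] (m → ℂ)) :
    RK T (3 * Fintype.card m) := by
  obtain ⟨x, hx⟩ := exists_off hX 0 0
  obtain ⟨y, hy⟩ := exists_off hX x x
  obtain ⟨z, hz⟩ := exists_off hX x y
  have b1 := rk2_two (T y) (T z) (a := 1) (b := 0) one_ne_zero
  have a1 := dm_rk' (T x)
  have a2 := dm_rk' (T y)
  have a3 := dm_rk' (T z)
  rw [one_smul, zero_smul, add_zero] at b1
  exact rk_of3 hX (ne_zero_of_notMem hx) (fun e => hy (Submodule.mem_sup_left e)) hz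
    (RK.mono (rk3_first (B := 0) (k := dm (range (T x))) (by rw [sub_zero])
      (b1.re Prod.snd fun x v => by simp)) (by omega))

theorem upper_all (hX : finrank ℂ X = 3) {N h : ℕ} (hN : Fintype.card n = N) (hh : N ≤ 4 * h + 3)
    (M : ℕ) : ∀ (m : Type) [Fintype m] [DecidableEq m], Fintype.card m = M → M ≤ N →
      4 * h ≤ N ∨ M + 2 * h ≤ N → ∀ (d : ℕ) (T : X →ₗ[ℂ] (n → ℂ) →ₗ[ℂ] (m → ℂ)),
      dm (KK T ⊤) < d → RK T (M + N + 16 - h) := by
  induction M using Nat.strong_induction_on with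
  | _ M ih =>
    intro m _ _ hM hMN hF d
    induction d with
    | zero => exact fun T hT => absurd hT (Nat.not_lt_zero _)
    | succ d ihd =>
      intro T hT
      by_cases l : L0 T
      swap
      · obtain ⟨e, T', h1, h2⟩ := row_step hX T l
        exact (h2 _ (ih e (by omega) _ (Fintype.card_fin _) (by omega) (by omega) _ T'
          (Nat.lt_succ_self _))).mono (by omega)
      by_cases c : Conc T
      · exact upper_conc hX c l hM hN hMN hF hh
      by_cases h3 : N ≤ 3 * M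
      · obtain ⟨T', h1, h2⟩ := conc_step hX T c (by omega)
        exact h2 _ (ihd T' (by omega))
      · exact (rk_three hX T).mono (by omega)

theorem upper (hX : finrank ℂ X = 3) {a b : ℕ} (hab : a ≤ b)
    (T : X →ₗ[ℂ] (Fin b → ℂ) →ₗ[ℂ] (Fin a → ℂ)) :
    RK T ((min (4 * a + 3 * b) (min (6 * a + 2 * b) (12 * a)) + 67) / 4) := by
  by_cases h3 : 3 * a ≤ b
  · exact (rk_three hX T).mono (by rw [Fintype.card_fin]; omega)
  by_cases h2 : 2 * a ≤ b
  · exact (upper_all hX (h := (b - a) / 2) (Fintype.card_fin b) (by omega) a _ (Fintype.card_fin a)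
      hab (by omega) _ T (Nat.lt_succ_self _)).mono (by omega)
  · exact (upper_all hX (h := b / 4) (Fintype.card_fin b) (by omega) a _ (Fintype.card_fin a)
      hab (by omega) _ T (Nat.lt_succ_self _)).mono (by omega)

end Upper

section Lower

theorem subst_in {V W κ : Type} [AddCommGroup V] [Module ℂ V] [Module.Finite ℂ V]
    [AddCommGroup W] [Module ℂ W] (d : ℕ) : ∀ (g : κ → V →ₗ[ℂ] W) (r : ℕ) (U : Submodule ℂ V),
    RK g r → dm U = d → (∀ u ∈ U, (∀ k, g k u = 0) → u = 0) →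
    ∃ (R : V →ₗ[ℂ] V) (r' : ℕ), r' + d ≤ r ∧ (∀ v, R v - v ∈ U) ∧ RK (fun k => g k ∘ₗ R) r' := by
  classical
  induction d with
  | zero => exact fun g r U h _ _ => ⟨LinearMap.id, r, le_rfl, fun v => by simp, h⟩
  | succ d ih =>
    rintro g r U ⟨s, _, hs, φ, w, c, h⟩ hU hc
    obtain ⟨u, hu, h0⟩ := exists_notMem (S := ⊥) (T := U) (by rw [dm_bot]; omega)
    obtain ⟨l, hl⟩ : ∃ l, φ l u ≠ 0 := by
      by_contra hn
      push Not at hn
      exact h0 (hc u hu fun k => by simp [h, hn])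
    let R1 : V →ₗ[ℂ] V := LinearMap.id - ((φ l u)⁻¹ • φ l).smulRight u
    have e1 : ∀ v, R1 v = v - ((φ l u)⁻¹ * φ l v) • u := fun _ => rfl
    have e2 : ∀ v, φ l (R1 v) = 0 := fun v => by
      rw [e1, map_sub, map_smul, smul_eq_mul]
      field_simp
      ring
    have hpos : 0 < Fintype.card s := Fintype.card_pos_iff.2 ⟨l⟩
    have h1 : RK (fun k => g k ∘ₗ R1) (r - 1) := by
      refine ⟨{x // x ≠ l}, inferInstance, by simp; omega, fun x => φ x ∘ₗ R1, fun x => w x,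
        fun x => c x, fun k v => ?_⟩
      rw [LinearMap.comp_apply, h, Fintype.sum_eq_add_sum_subtype_ne _ l, e2]
      simp
    obtain ⟨C, c1, c2, c3⟩ := exists_compl_in ((Submodule.span_singleton_le_iff_mem u U).2 hu)
    have e3 := dm_sup_eq c2
    rw [c3, dm_span_single h0] at e3
    obtain ⟨R, r', a1, a2, a3⟩ := ih _ _ C h1 (by omega) fun v hv e => by
      have := hc (R1 v) (U.sub_mem (c1 hv) (U.smul_mem _ hu)) e
      rw [e1, sub_eq_zero] at this
      exact c2 v (Submodule.mem_span_singleton.2 ⟨_, this.symm⟩) hv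
    refine ⟨R1 ∘ₗ R, r', by omega, fun v => ?_, a3⟩
    rw [LinearMap.comp_apply, e1, sub_right_comm]
    exact U.sub_mem (c1 (a2 v)) (U.smul_mem _ hu)

variable {ι ι' m n κ : Type} [Fintype ι] [DecidableEq ι] [Fintype ι'] [DecidableEq ι'] [Fintype m]
  [DecidableEq m] [Fintype n] [DecidableEq n]

theorem tr_left (e : ι → m) (v : ι → ℂ) (j : m) :
    tr (LinearMap.funLeft ℂ ℂ e) v j = ∑ i, if e i = j then v i else 0 := by
  have := tr_dot (LinearMap.funLeft ℂ ℂ e) v (Pi.single j 1)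
  rw [dotProduct_single_one] at this
  rw [this]
  simp [dotProduct, LinearMap.funLeft_apply, Pi.single_apply]

theorem split (h : Fintype.card ι + Fintype.card ι' ≤ Fintype.card m) :
    ∃ (p : (m → ℂ) →ₗ[ℂ] (ι → ℂ)) (q : (m → ℂ) →ₗ[ℂ] (ι' → ℂ)), (∀ v, p (tr p v) = v) ∧
      (∀ v, p (tr q v) = 0) ∧ (∀ v, q (tr p v) = 0) ∧ ∀ v, q (tr q v) = v := by
  obtain ⟨e⟩ := Function.Embedding.nonempty_of_card_le (α := ι ⊕ ι') (β := m) (by simpa using h)
  exact ⟨LinearMap.funLeft ℂ ℂ (e ∘ Sum.inl), LinearMap.funLeft ℂ ℂ (e ∘ Sum.inr),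
    fun v => funext fun j => by simp [LinearMap.funLeft_apply, tr_left],
    fun v => funext fun j => by simp [LinearMap.funLeft_apply, tr_left],
    fun v => funext fun j => by simp [LinearMap.funLeft_apply, tr_left],
    fun v => funext fun j => by simp [LinearMap.funLeft_apply, tr_left]⟩

/-- Bordering with one new slice. -/
theorem dbl (f : κ → (ι' → ℂ) →ₗ[ℂ] (ι → ℂ)) {α β : ℕ} (h1 : α ≤ Fintype.card ι')
    (h2 : β ≤ Fintype.card ι) (h3 : Fintype.card ι + α ≤ Fintype.card m)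
    (h4 : Fintype.card ι' + β ≤ Fintype.card n) :
    ∃ g : Option κ → (n → ℂ) →ₗ[ℂ] (m → ℂ), ∀ r, RK g r → ∃ r', r' + α + β ≤ r ∧ RK f r' := by
  obtain ⟨P, Q, H11, H12, H21, H22⟩ := split (ι := ι) (ι' := Fin α) (m := m) (by simpa using h3)
  obtain ⟨p, q, h11, h12, h21, h22⟩ := split (ι := ι') (ι' := Fin β) (m := n) (by simpa using h4)
  obtain ⟨s, -, hs, -⟩ := split (ι := Fin β) (ι' := Fin 0) (m := ι) (by simpa using h2)
  obtain ⟨s', -, hs', -⟩ := split (ι := Fin α) (ι' := Fin 0) (m := ι') (by simpa using h1)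
  refine ⟨fun k => k.elim (tr P ∘ₗ tr s ∘ₗ q + tr Q ∘ₗ s' ∘ₗ p) fun k => tr P ∘ₗ f k ∘ₗ p,
    fun r h => ?_⟩
  have dU : dm (range (tr q)) = β := by
    rw [dm_range_eq fun v hv => by rw [← h22 v, hv, map_zero], card_fun, Fintype.card_fin]
  have dU' : dm (range (tr Q)) = α := by
    rw [dm_range_eq fun v hv => by rw [← H22 v, hv, map_zero], card_fun, Fintype.card_fin]
  have hp : ∀ {a b : n → ℂ}, a - b ∈ range (tr q) → p a = p b := by
    rintro a b ⟨v, hv⟩
    rw [← sub_eq_zero, ← map_sub, ← hv, h12]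
  have hP : ∀ {a b : m → ℂ}, a - b ∈ range (tr Q) → P a = P b := by
    rintro a b ⟨v, hv⟩
    rw [← sub_eq_zero, ← map_sub, ← hv, H12]
  obtain ⟨R, r1, a1, a2, a3⟩ := subst_in _ _ _ _ h dU (by
    rintro _ ⟨v, rfl⟩ hv
    have := congrArg (fun w => s (P w)) (hv none)
    simp only [Option.elim, LinearMap.add_apply, LinearMap.comp_apply, h12, h22, map_add, H11,
      map_zero, add_zero, hs] at this
    rw [this, map_zero])
  have a4 := (a3.of (g := fun k => ((k.elim (tr P ∘ₗ tr s ∘ₗ q + tr Q ∘ₗ s' ∘ₗ p)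
    fun k => tr P ∘ₗ f k ∘ₗ p) ∘ₗ R) ∘ₗ tr p) id LinearMap.id (tr p) fun _ _ => rfl).tr
  obtain ⟨R', r2, b1, b2, b3⟩ := subst_in _ _ _ _ a4 dU' (by
    rintro _ ⟨v, rfl⟩ hv
    have : v = 0 := eq_of_dot fun w => by
      have := congrArg (fun η => η ⬝ᵥ tr s' w) (hv none)
      simp only [tr_dot, zero_dotProduct, Option.elim, LinearMap.add_apply, LinearMap.comp_apply,
        map_add, H21, H22, hp (a2 _), h11, hs', zero_add] at this
      rw [this, zero_dotProduct]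
    rw [this, map_zero])
  refine ⟨r2, by omega, RK.of_tr (b3.of some LinearMap.id (tr P) fun k η => eq_of_dot fun w => ?_)⟩
  simp only [LinearMap.id_apply, LinearMap.comp_apply, tr_dot, Option.elim, hp (a2 _), h11]
  rw [dotProduct_comm (R' _), tr_dot, hP (b2 _), H11, dotProduct_comm]

theorem lower0 {a b : ℕ} (a' b' j α β : ℕ) (h1 : j ≤ a') (h2 : j ≤ b') (h3 : a' ≤ 2 * j)
    (h4 : b' ≤ 2 * j) (h5 : α ≤ b') (h6 : β ≤ a') (h7 : a' + α ≤ a) (h8 : b' + β ≤ b) :
    ∃ g : Option (Option Unit) → (Fin b → ℂ) →ₗ[ℂ] (Fin a → ℂ), ∀ r, RK g r →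
      a' + b' + α + β ≤ r + j := by
  obtain ⟨g1, k1⟩ := dbl (m := Fin a') (n := Fin b') (α := a' - j) (β := b' - j)
    (fun _ : Unit => (LinearMap.id : (Fin j → ℂ) →ₗ[ℂ] (Fin j → ℂ))) (by simp; omega)
    (by simp; omega) (by simp; omega) (by simp; omega)
  obtain ⟨g, k2⟩ := dbl (m := Fin a) (n := Fin b) (α := α) (β := β) g1 (by simpa) (by simpa)
    (by simpa) (by simpa)
  refine ⟨g, fun r hr => ?_⟩
  obtain ⟨r1, a1, a2⟩ := k2 r hr
  obtain ⟨r2, b1, b2⟩ := k1 r1 a2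
  obtain ⟨_, r3, c1, -⟩ := subst_in _ _ _ ⊤ b2 rfl fun u _ hu => hu ()
  rw [dm_top, card_fun, Fintype.card_fin] at c1
  omega

theorem lower {a b : ℕ} (hab : a ≤ b) :
    ∃ g : Option (Option Unit) → (Fin b → ℂ) →ₗ[ℂ] (Fin a → ℂ), ∀ r, RK g r →
      min (4 * a + 3 * b) (min (6 * a + 2 * b) (12 * a)) ≤ 4 * r + 3 := by
  by_cases h3 : 3 * a ≤ b
  · obtain ⟨g, h⟩ := lower0 (a := a) (b := b) a (2 * a) a 0 a (by omega) (by omega) (by omega)
      (by omega) (by omega) (by omega) (by omega) (by omega)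
    exact ⟨g, fun r hr => by have := h r hr; omega⟩
  by_cases h2 : 2 * a ≤ b
  · obtain ⟨g, h⟩ := lower0 (a := a) (b := b) a (b - a) ((b - a + 1) / 2) 0 a (by omega) (by omega)
      (by omega) (by omega) (by omega) (by omega) (by omega) (by omega)
    exact ⟨g, fun r hr => by have := h r hr; omega⟩
  · obtain ⟨g, h⟩ := lower0 (a := a) (b := b) ((b + 1) / 2) ((b + 1) / 2) ((b + 3) / 4)
      (a - (b + 1) / 2) (b - (b + 1) / 2) (by omega) (by omega) (by omega) (by omega) (by omega)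
      (by omega) (by omega) (by omega)
    exact ⟨g, fun r hr => by have := h r hr; omega⟩

end Lower

theorem three (a b : ℕ) (hab : a ≤ b) :
    ∃ m : ℕ, IsLeast {r : ℕ | ∀ X : Fin a → Fin b → Fin 3 → ℂ, ∃ (u : Fin r → Fin a → ℂ)
        (v : Fin r → Fin b → ℂ) (w : Fin r → Fin 3 → ℂ),
        ∀ i j k, X i j k = ∑ l, u l i * v l j * w l k} m ∧
      min (4 * a + 3 * b) (min (6 * a + 2 * b) (12 * a)) ≤ 4 * m + 3 ∧
      4 * m ≤ min (4 * a + 3 * b) (min (6 * a + 2 * b) (12 * a)) + 67 := by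
  classical
  obtain ⟨g, hg⟩ := lower hab
  have up0 := fun X : Fin a → Fin b → Fin 3 → ℂ => upper (X := Fin 3 → ℂ) (by simp) hab
    (Fintype.linearCombination ℂ fun k => Matrix.toLin' (Matrix.of fun i j => X i j k))
  generalize min (4 * a + 3 * b) (min (6 * a + 2 * b) (12 * a)) = B at hg up0 ⊢
  have up : ∀ X : Fin a → Fin b → Fin 3 → ℂ, ∃ (u : Fin ((B + 67) / 4) → Fin a → ℂ)
      (v : Fin ((B + 67) / 4) → Fin b → ℂ) (w : Fin ((B + 67) / 4) → Fin 3 → ℂ),
        ∀ i j k, X i j k = ∑ l, u l i * v l j * w l k := fun X => by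
    obtain ⟨s, _, hs, φ, w, c, h⟩ := up0 X
    obtain ⟨e⟩ := Function.Embedding.nonempty_of_card_le (α := s)
      (β := Fin ((B + 67) / 4)) (by simpa using hs)
    refine ⟨Function.extend e w 0, Function.extend e (fun l j => φ l (Pi.single j 1)) 0,
      Function.extend e (fun l k => c l (Pi.single k 1)) 0, fun i j k => ?_⟩
    have := congrFun (h (Pi.single k 1) (Pi.single j 1)) i
    simp only [Fintype.linearCombination_apply_single, one_smul, Matrix.toLin'_apply,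
      Matrix.mulVec_single_one, Finset.sum_apply, Pi.smul_apply, smul_eq_mul] at this
    refine Eq.trans this (Fintype.sum_of_injective e e.injective _ _ (fun l hl => ?_) fun l => ?_)
    · rw [Function.extend_apply' _ _ _ hl]
      simp
    · simp only [e.injective.extend_apply]
      ring
  have ex : ∃ r, ∀ X : Fin a → Fin b → Fin 3 → ℂ, ∃ (u : Fin r → Fin a → ℂ)
      (v : Fin r → Fin b → ℂ) (w : Fin r → Fin 3 → ℂ),
      ∀ i j k, X i j k = ∑ l, u l i * v l j * w l k := ⟨_, up⟩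
  refine ⟨Nat.find ex, ⟨Nat.find_spec ex, fun r hr => Nat.find_min' ex hr⟩, ?_, by
    have := Nat.find_min' ex up
    omega⟩
  obtain ⟨u, v, c, h⟩ := Nat.find_spec ex fun i j k =>
    g (![none, some none, some (some ())] k) (Pi.single j 1) i
  have h1 : RK (fun k : Fin 3 => g (![none, some none, some (some ())] k)) (Nat.find ex) := by
    refine ⟨Fin _, inferInstance, (Fintype.card_fin _).le,
      fun l => Fintype.linearCombination ℂ (v l), u, c, fun k y => funext fun i => ?_⟩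
    conv_lhs => rw [← Finset.univ_sum_single y]
    have : ∀ j, (Pi.single j (y j) : Fin b → ℂ) = y j • Pi.single j 1 := fun j => by
      rw [← Pi.single_smul, smul_eq_mul, mul_one]
    simp only [this, map_sum, map_smul, Finset.sum_apply, Pi.smul_apply, smul_eq_mul, h,
      Fintype.linearCombination_apply, Finset.mul_sum, Finset.sum_mul]
    rw [Finset.sum_comm]
    exact Finset.sum_congr rfl fun _ _ => Finset.sum_congr rfl fun _ _ => by ring
  refine hg _ (h1.re (fun k => k.elim 0 fun k => k.elim 1 fun _ => 2) fun k v => ?_)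
  rcases k with _ | _ | _ <;> rfl

end Pool.Agent.P.MP_098a67_ag.R3
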