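import Mathlib

namespace Pool.Agent.P.MP_098a67_ag.R3

/-- The numerical inequalities used by the construction. -/
structure Nums (M N h γ γ' g g' κ k ks r ρ t q : ℕ) : Prop where
  hh : 4 ≤ h
  e1 : γ + M = γ' + N
  e2 : g + M = g' + N
  ht : t = h - γ' - κ - 4
  hq : q = h + ks - γ - 4
  f0 : κ + 2 * t + γ ≤ N
  n0 : h ≤ M
  n1 : h + q ≤ r
  n2 : t ≠ 0 → κ + 2 * t + 2 + g' + 2 * γ' + 2 * q < M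
  n3 : t ≠ 0 → h + t + q + 4 ≤ r ∨ 2 * γ' + 3 * q + h + t + 4 ≤ M
  n4 : t ≠ 0 → 2 * t + h + g' + 2 * γ' + q ≤ M + 2 ∨ (q = 0 ∧
    3 * t + h + 2 * γ' + 2 * κ ≤ N + 2 ∧ 2 * t + h + 2 * γ' + κ + ks ≤ ρ + γ)
  n5 : t ≠ 0 → g + t + h + g' + 2 * γ' + q ≤ γ + 4 + M ∨ t + ks + h ≤ q + γ + 4 ∨
    t + h + γ' + κ + q ≤ γ + 4
  n6 : t ≠ 0 → 4 * t + 2 * h + 2 * g' + 4 * γ' + 4 * q + κ + γ + 1 ≤ 2 * M + N ∨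
    4 * t + 2 * h + 2 * g' + 2 * γ' + 4 * q + κ + γ + 1 ≤ 2 * ρ + N
  n7 : t ≠ 0 ∨ q ≠ 0 → 2 * q + 7 + κ + 2 * t + γ ≤ N
  n8 : 2 * g + 2 * h ≤ N + γ + κ + 7
  n9 : 2 * g' + 2 * h ≤ M + κ + γ' + 7
  n10 : h + q + t + γ ≤ N + 2
  n11 : h + γ < N
  n12 : 2 * q + 2 * h + γ' ≤ M + κ + 2 ∨ 4 * q + 2 * h ≤ M + γ' + κ + 2
  n13 : q ≠ 0 → 3 * q + γ' + 2 * γ < M + k + ks
  n14 : q ≠ 0 → 2 * q + 2 + 2 * γ < 2 * h + k + ks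
  n15 : q ≠ 0 → 2 * g' + q + h + 2 * γ ≤ M + k + ks + t + κ + γ' + 4 ∨ q + h ≤ t + κ + γ' + 4

theorem nums {M N h γ γ' g g' κ k ks r ρ t q : ℕ} (hM : M ≤ N) (hF : 4 * h ≤ N ∨ M + 2 * h ≤ N)
    (hh : 4 ≤ h) (e1 : γ + M = γ' + N) (e2 : g + M = g' + N) (ht : t = h - γ' - κ - 4)
    (hq : q = h + ks - γ - 4) (c1 : g ≤ γ) (c2 : 2 * g ≤ N + κ) (c3 : κ + γ ≤ N) (c4 : ks ≤ k)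
    (c5 : k + ks ≤ γ) (c6 : h < r) (c7 : r + γ ≤ N) (c8 : r ≤ ρ) (c9 : g + g' < r + h)
    (c10 : κ ≤ g)
    (hR : (g = γ ∧ ks ≤ κ ∧ (2 * h ≤ r ∨ M + 5 ≤ r + h) ∧ (t ≠ 0 → q ≠ 0 → M + 5 ≤ r + h)) ∨
      (t = 0 ∧ (q = 0 ∨ (2 * h ≤ r ∧ h ≤ γ' + 4 ∧ g + g' ≤ 2 * h))) ∨
      (2 * h ≤ γ + 8 ∧ 2 * h ≤ ρ ∧ M ≤ r + γ' ∧ 2 * h ≤ M ∧ 4 * h ≤ N)) :
    Nums M N h γ γ' g g' κ k ks r ρ t q := by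
  refine ⟨hh, e1, e2, ht, hq, ?_, ?_, ?_, ?_, ?_, ?_, ?_, ?_, ?_, ?_, ?_, ?_, ?_, ?_, ?_, ?_, ?_⟩
  all_goals omega

end Pool.Agent.P.MP_098a67_ag.R3
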