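import Pool.Agent.P.MP_098a67_ag.T3.PT
import Pool.Agent.P.MP_098a67_ag.T3.GL2
import Pool.Agent.P.MP_098a67_ag.R3.Num

namespace Pool.Agent.P.MP_098a67_ag.R3

open Module T3
open LinearMap (ker range)

section

variable {V W : Type} [AddCommGroup V] [Module ℂ V] [AddCommGroup W] [Module ℂ W]

/-- Rank of a triple. -/
def RK3 (A B C : V →ₗ[ℂ] W) (r : ℕ) : Prop :=
  RK (fun x : ℂ × ℂ × ℂ => x.1 • A + x.2.1 • B + x.2.2 • C) r

theorem rk3_free {S P Q Y1 Y2 : V →ₗ[ℂ] W} {ρ r : ℕ} (h1 : RK3 S Y1 Y2 ρ)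
    (h2 : RK2 (P - Y1) (Q - Y2) r) : RK3 S P Q (ρ + r) := by
  refine RK.add h1 (h2.re (g := fun x : ℂ × ℂ × ℂ => x.2.1 • (P - Y1) + x.2.2 • (Q - Y2))
    Prod.snd fun _ _ => rfl) fun x v => ?_
  simp only [LinearMap.add_apply, LinearMap.smul_apply, LinearMap.sub_apply]
  module

theorem rk3_first [Module.Finite ℂ W] {A B P Q : V →ₗ[ℂ] W} {k r : ℕ}
    (h1 : dm (range (A - B)) ≤ k) (h2 : RK3 B P Q r) : RK3 A P Q (k + r) := by
  refine RK.add (((rk_one (A - B)).mono h1).re (g := fun x : ℂ × ℂ × ℂ => x.1 • (A - B))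
    Prod.fst fun _ _ => rfl) h2 fun x v => ?_
  simp only [LinearMap.add_apply, LinearMap.smul_apply, LinearMap.sub_apply]
  module

theorem rk2_two [Module.Finite ℂ W] (P Q : V →ₗ[ℂ] W) {a b : ℂ} (ha : a ≠ 0) :
    RK2 P Q (dm (range (a • P + b • Q)) + dm (range Q)) := by
  refine RK.add
    ((rk_one (a • P + b • Q)).re (g := fun p : ℂ × ℂ => (p.1 / a) • (a • P + b • Q))
      (fun p => p.1 / a) fun _ _ => rfl)
    ((rk_one Q).re (g := fun p : ℂ × ℂ => (p.2 - p.1 / a * b) • Q)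
      (fun p => p.2 - p.1 / a * b) fun _ _ => rfl) fun p v => ?_
  simp only [LinearMap.add_apply, LinearMap.smul_apply]
  match_scalars <;> field_simp <;> ring

/-- The bound for an arbitrary pencil. -/
theorem rk2_rect [Module.Finite ℂ V] [Module.Finite ℂ W] (P Q : V →ₗ[ℂ] W) {h r : ℕ}
    (hF : 4 * h ≤ finrank ℂ V ∨ finrank ℂ W + 2 * h ≤ finrank ℂ V)
    (hr : finrank ℂ W + finrank ℂ V + 1 ≤ r + 2 * h) : RK2 P Q r := by
  have a1 := dm_le (range P)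
  have a2 := dm_le (range Q)
  rcases hF with hF | hF
  swap
  · have := dm_le (range ((1 : ℂ) • P + (0 : ℂ) • Q))
    exact RK.mono (rk2_two P Q (a := 1) (b := 0) one_ne_zero) (by omega)
  by_cases hc : ∀ a b : ℂ, a ≠ 0 ∨ b ≠ 0 → 2 * h + 1 ≤ dm (range (a • P + b • Q))
  · have := dm_le (range P ⊔ range Q)
    exact pt0' P Q _ _ hc (by omega)
  · push Not at hc
    obtain ⟨a, b, hab, hr⟩ := hc
    rcases hab with ha | hb
    · exact RK.mono (rk2_two P Q (b := b) ha) (by omega)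
    · rw [add_comm] at hr
      exact RK2.swap (RK.mono (rk2_two Q P (b := a) hb) (by omega))

theorem two_span (P Q : V →ₗ[ℂ] W) (N : Submodule ℂ V) {a b c d : ℂ} (h : a * d ≠ b * c) :
    N.map P ⊔ N.map Q ≤ N.map (a • P + b • Q) ⊔ N.map (c • P + d • Q) := by
  have h1 := mul_inv_cancel₀ (sub_ne_zero.2 h)
  generalize (a * d - b * c)⁻¹ = e at h1
  refine sup_le ?_ ?_ <;> rintro _ ⟨v, hv, rfl⟩
  · have : P v = (e * d) • (a • P + b • Q) v + (-(e * b)) • (c • P + d • Q) v := by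
      simp only [LinearMap.add_apply, LinearMap.smul_apply]
      linear_combination (norm := module) (-h1) • P v
    rw [this]
    exact Submodule.add_mem_sup (Submodule.smul_mem _ _ ⟨v, hv, rfl⟩)
      (Submodule.smul_mem _ _ ⟨v, hv, rfl⟩)
  · have : Q v = (-(e * c)) • (a • P + b • Q) v + (e * a) • (c • P + d • Q) v := by
      simp only [LinearMap.add_apply, LinearMap.smul_apply]
      linear_combination (norm := module) (-h1) • Q v
    rw [this]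
    exact Submodule.add_mem_sup (Submodule.smul_mem _ _ ⟨v, hv, rfl⟩)
      (Submodule.smul_mem _ _ ⟨v, hv, rfl⟩)

theorem two_zero {p q : W} {a b c d : ℂ}
    (h : a * d ≠ b * c) (h1 : a • p + b • q = 0) (h2 : c • p + d • q = 0) : p = 0 ∧ q = 0 := by
  have h3 := sub_ne_zero.2 h
  refine ⟨(smul_eq_zero_iff_right h3).1 ?_, (smul_eq_zero_iff_right h3).1 ?_⟩
  · linear_combination (norm := module) d • h1 - b • h2
  · linear_combination (norm := module) a • h2 - c • h1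

theorem dm_range_fin [Module.Finite ℂ W] {d : ℕ}
    (f : (Fin d → ℂ) →ₗ[ℂ] W) : dm (range f) ≤ d := by
  have := dm_range_le f
  rwa [card_fun, Fintype.card_fin] at this

theorem map_smul_id {a : ℂ} (ha : a ≠ 0) (S : Submodule ℂ V) :
    S.map (a • LinearMap.id) = S := by
  rw [Submodule.map_smul _ _ _ ha, Submodule.map_id]

/-- The image of a subspace of small codimension. -/
theorem dm_map_ge [Module.Finite ℂ V] [Module.Finite ℂ W] (f : V →ₗ[ℂ] W) {S T : Submodule ℂ V}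
    (h : S ≤ T) (D : Submodule ℂ W) : dm (T.map f ⊔ D) + dm S ≤ dm (S.map f ⊔ D) + dm T := by
  have a1 := dm_comap f S D
  have a2 := dm_comap f T D
  have a3 := dm_mono (inf_le_inf_right (D.comap f) h)
  omega

end

theorem exists_max {α : Type} {S : Set α} (hS : S.Nonempty) (f : α → ℕ) (N : ℕ)
    (hN : ∀ x, f x ≤ N) : ∃ x ∈ S, ∀ y ∈ S, f y ≤ f x := by
  obtain ⟨_, ⟨x, hx, rfl⟩, h⟩ := Set.exists_max_image (f '' S) id
    ((Set.finite_Iic N).subset (by rintro _ ⟨x, _, rfl⟩; exact hN x)) (hS.image f)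
  exact ⟨x, hx, fun y hy => h _ ⟨y, hy, rfl⟩⟩

theorem fin_zero {t : ℕ} (ht : t = 0) (y : Fin t → ℂ) : y = 0 := by
  subst ht
  exact Subsingleton.elim _ _

section

variable {X : Type} [AddCommGroup X] [Module ℂ X] [Module.Finite ℂ X] {x y z : X}

/-- The span of two vectors. -/
def pen (x y : X) : Submodule ℂ X := (ℂ ∙ x) ⊔ (ℂ ∙ y)

theorem mem_pen : z ∈ pen x y ↔ ∃ a b : ℂ, a • x + b • y = z := by
  constructor
  · intro h
    obtain ⟨_, h1, _, h2, rfl⟩ := Submodule.mem_sup.1 h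
    obtain ⟨a, rfl⟩ := Submodule.mem_span_singleton.1 h1
    obtain ⟨b, rfl⟩ := Submodule.mem_span_singleton.1 h2
    exact ⟨a, b, rfl⟩
  · rintro ⟨a, b, rfl⟩
    exact Submodule.add_mem_sup (Submodule.mem_span_singleton.2 ⟨a, rfl⟩)
      (Submodule.mem_span_singleton.2 ⟨b, rfl⟩)

theorem left_pen (x y : X) : x ∈ pen x y := mem_pen.2 ⟨1, 0, by simp⟩

theorem right_pen (x y : X) : y ∈ pen x y := mem_pen.2 ⟨0, 1, by simp⟩

theorem pen_le {S : Submodule ℂ X} (hx : x ∈ S) (hy : y ∈ S) : pen x y ≤ S := fun z hz => by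
  obtain ⟨a, b, rfl⟩ := mem_pen.1 hz
  exact S.add_mem (S.smul_mem _ hx) (S.smul_mem _ hy)

theorem dm_sup_span {S : Submodule ℂ X} (hy : y ∉ S) : dm (S ⊔ ℂ ∙ y) = dm S + 1 := by
  have := dm_lt (le_sup_left : S ≤ S ⊔ ℂ ∙ y)
    (Submodule.mem_sup_right (Submodule.mem_span_singleton_self y)) hy
  have := dm_sup_le S (ℂ ∙ y)
  have := dm_span_le y
  omega

theorem dm_pen (hx : x ≠ 0) (hy : y ∉ ℂ ∙ x) : dm (pen x y) = 2 := by
  rw [pen, dm_sup_span hy, dm_span_single hx]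

theorem exists_notMem {S T : Submodule ℂ X} (h : dm S < dm T) : ∃ y ∈ T, y ∉ S := by
  by_contra hc
  push Not at hc
  exact absurd (dm_mono hc) (by omega)

theorem exists_off (hX : finrank ℂ X = 3) (x y : X) : ∃ z, z ∉ pen x y := by
  have := dm_sup_le (ℂ ∙ x) (ℂ ∙ y)
  have := dm_span_le x
  have := dm_span_le y
  obtain ⟨z, _, hz⟩ := exists_notMem (S := pen x y) (T := ⊤) (by rw [dm_top, pen]; omega)
  exact ⟨z, hz⟩

theorem span3 (hX : finrank ℂ X = 3) (hx : x ≠ 0) (hy : y ∉ ℂ ∙ x) (hz : z ∉ pen x y) (w : X) :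
    ∃ p : ℂ × ℂ × ℂ, p.1 • x + p.2.1 • y + p.2.2 • z = w := by
  have : w ∈ pen x y ⊔ ℂ ∙ z := by
    rw [eq_top_of_dm (S := pen x y ⊔ ℂ ∙ z) (by rw [dm_sup_span hz, dm_pen hx hy, hX])]
    trivial
  obtain ⟨_, h1, _, h2, rfl⟩ := Submodule.mem_sup.1 this
  obtain ⟨a, b, rfl⟩ := mem_pen.1 h1
  obtain ⟨c, rfl⟩ := Submodule.mem_span_singleton.1 h2
  exact ⟨(a, b, c), rfl⟩

theorem mem_of_comb {S : Submodule ℂ X} {b : ℂ} (hb : b ≠ 0) (hx : x ∈ S) (h : x + b • y ∈ S) :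
    y ∈ S := (S.smul_mem_iff hb).1 ((S.add_mem_iff_right hx).1 h)

theorem exch (h : z ∈ pen x y) (hz : z ∉ ℂ ∙ x) : y ∈ pen x z := by
  obtain ⟨a, b, e⟩ := mem_pen.1 h
  refine mem_of_comb (b := b) (fun hb => hz (Submodule.mem_span_singleton.2 ⟨a, ?_⟩))
    (Submodule.smul_mem _ a (left_pen x z)) (by rw [e]; exact right_pen x z)
  rw [← e, hb, zero_smul, add_zero]

theorem meet (hX : finrank ℂ X = 3) {P Q : Submodule ℂ X} (hP : dm P = 2) (hQ : dm Q = 2) :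
    ∃ w, w ∈ P ∧ w ∈ Q ∧ w ≠ 0 := by
  have := dm_inf_ge P Q
  obtain ⟨w, hw, h0⟩ := exists_notMem (S := ⊥) (T := P ⊓ Q) (by rw [dm_bot]; omega)
  exact ⟨w, hw.1, hw.2, h0⟩

theorem ind3 (hx : x ≠ 0) (hy : y ∉ ℂ ∙ x) (hz : z ∉ pen x y) {a b c : ℂ}
    (h : a • x + b • y + c • z = 0) : a = 0 ∧ b = 0 ∧ c = 0 := by
  have hc : c = 0 := by
    by_contra hc
    exact hz (mem_of_comb hc (mem_pen.2 ⟨a, b, rfl⟩) (by rw [h]; exact Submodule.zero_mem _))
  rw [hc, zero_smul, add_zero] at h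
  have hb : b = 0 := by
    by_contra hb
    exact hy (mem_of_comb hb (Submodule.smul_mem _ a (Submodule.mem_span_singleton_self x))
      (by rw [h]; exact Submodule.zero_mem _))
  rw [hb, zero_smul, add_zero, smul_eq_zero_iff_left hx] at h
  exact ⟨h, hb, hc⟩

theorem dm_pen_aff (hx : x ≠ 0) (hy : y ∉ ℂ ∙ x) (hz : z ∉ pen x y) (α β : ℂ) :
    dm (pen (y + α • x) (z + β • x)) = 2 := by
  refine dm_pen (fun e => one_ne_zero (ind3 hx hy hz (a := α) (b := 1) (c := 0) ?_).2.1) fun e => ?_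
  · linear_combination (norm := module) e
  · obtain ⟨c, e⟩ := Submodule.mem_span_singleton.1 e
    refine one_ne_zero (ind3 hx hy hz (a := β - c * α) (b := -c) (c := 1) ?_).2.2
    linear_combination (norm := module) -e

theorem inf_pts (hX : finrank ℂ X = 3) : {P : Submodule ℂ X | dm P = 2}.Infinite := by
  obtain ⟨x, hx⟩ := exists_off hX 0 0
  have hx : x ≠ 0 := fun e => hx (by rw [e]; exact Submodule.zero_mem _)
  obtain ⟨y, hy⟩ := exists_off hX x x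
  have hy : y ∉ ℂ ∙ x := fun e => hy (Submodule.mem_sup_left e)
  obtain ⟨z, hz⟩ := exists_off hX x y
  refine Set.infinite_of_injective_forall_mem (f := fun α : ℂ => pen (y + α • x) (z + (0 : ℂ) • x))
    (fun α β e => ?_) fun α => dm_pen_aff hx hy hz α 0
  have h1 := left_pen (y + α • x) (z + (0 : ℂ) • x)
  dsimp only at e
  rw [e] at h1
  obtain ⟨a, b, e1⟩ := mem_pen.1 h1
  obtain ⟨h2, h3, _⟩ := ind3 hx hy hz (a := a * β - α) (b := a - 1) (c := b)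
    (by linear_combination (norm := module) e1)
  linear_combination β * h3 - h2

end

section

variable {V W κ : Type} [AddCommGroup V] [Module ℂ V] [Co V] [AddCommGroup W] [Module ℂ W] [Co W]
  [Fintype κ] {E : Subfield ℂ} {Φ : κ → V} {S : Submodule ℂ V} {s : ℕ}

/-- Two independent rational coefficient vectors. -/
theorem g2s (h : GenIn E Φ (cols κ S) s) {f g : V →ₗ[ℂ] W} (rf : RM E f) (rg : RM E g)
    {D : Submodule ℂ W} (rD : RS E D) {y z : κ → ℂ} (ry : RV E y) (rz : RV E z) (hy : y ∉ ℂ ∙ z)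
    (hz : z ≠ 0) (hm : f (lin Φ y) + g (lin Φ z) ∈ D) :
    dm (S.map f ⊔ S.map g ⊔ D) ≤ dm D + s :=
  h.ga ((rf.comp (RM.ev ry)).add (rg.comp (RM.ev rz))) rD RV.zero (by rw [sub_zero]; exact hm) (by
    intro w hw
    obtain ⟨_, ⟨w1, hw1, rfl⟩, _, ⟨w2, hw2, rfl⟩, rfl⟩ := Submodule.mem_sup.1 hw
    have hz' : z ∉ ℂ ∙ y := fun e => by
      obtain ⟨c, rfl⟩ := Submodule.mem_span_singleton.1 e
      exact hy (Submodule.mem_span_singleton.2 ⟨c⁻¹, by
        rw [smul_smul, inv_mul_cancel₀ (left_ne_zero_of_smul hz), one_smul]⟩)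
    obtain ⟨Ψ, h1, h2, h3⟩ := exists_cols hy hw1
    obtain ⟨Ψ', k1, k2, k3⟩ := exists_cols hz' hw2
    refine ⟨Ψ + Ψ', Submodule.add_mem _ h1 k1, ?_⟩
    show f (ev y (Ψ + Ψ')) + g (ev z (Ψ + Ψ')) = f w1 + g w2
    rw [map_add, map_add (ev z), ev_apply, ev_apply, ev_apply, ev_apply, h2, k2,
      h3 z (Submodule.mem_span_singleton_self z), k3 y (Submodule.mem_span_singleton_self y),
      add_zero, zero_add])

/-- Three rational coefficient vectors. -/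
theorem g3s (h : GenIn E Φ (cols κ S) s) {f g k : V →ₗ[ℂ] W} (rf : RM E f) (rg : RM E g)
    (rk : RM E k) {D : Submodule ℂ W} (rD : RS E D) {y z u : κ → ℂ} (ry : RV E y) (rz : RV E z)
    (ru : RV E u) (hy : y ∉ pen z u) (hu : u ∉ pen z y)
    (hm : f (lin Φ y) + g (lin Φ z) + k (lin Φ u) ∈ D) :
    dm (S.map f ⊔ S.map k ⊔ D) ≤ dm D + s :=
  h.ga (((rf.comp (RM.ev ry)).add (rg.comp (RM.ev rz))).add (rk.comp (RM.ev ru))) rD RV.zero
    (by rw [sub_zero]; exact hm) (by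
    intro w hw
    obtain ⟨_, ⟨w1, hw1, rfl⟩, _, ⟨w2, hw2, rfl⟩, rfl⟩ := Submodule.mem_sup.1 hw
    obtain ⟨Ψ, h1, h2, h3⟩ := exists_cols hy hw1
    obtain ⟨Ψ', k1, k2, k3⟩ := exists_cols hu hw2
    refine ⟨Ψ + Ψ', Submodule.add_mem _ h1 k1, ?_⟩
    show f (ev y (Ψ + Ψ')) + g (ev z (Ψ + Ψ')) + k (ev u (Ψ + Ψ')) = f w1 + k w2
    simp only [map_add, ev_apply, h2, k2, h3 z (left_pen _ _), h3 u (right_pen _ _),
      k3 z (left_pen _ _), k3 y (right_pen _ _), map_zero, add_zero, zero_add])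

theorem rm_sl {A1 A2 A3 : V →ₗ[ℂ] W} (r1 : RM E A1) (r2 : RM E A2) (r3 : RM E A3) {x1 x2 x3 : ℂ}
    (h1 : x1 ∈ E) (h2 : x2 ∈ E) (h3 : x3 ∈ E) : RM E (x1 • A1 + x2 • A2 + x3 • A3) :=
  ((r1.smul h1).add (r2.smul h2)).add (r3.smul h3)

end

variable {m n : Type} [Fintype m] [DecidableEq m] [Fintype n] [DecidableEq n]
  {A1 A2 A3 : (n → ℂ) →ₗ[ℂ] (m → ℂ)}

theorem rs_perp {E : Subfield ℂ} {S : Submodule ℂ (n → ℂ)} (hS : RS E S) : RS E (perp S) := by
  intro π hπ η hη v hv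
  refine Submodule.span_induction (p := fun v _ => act π η ⬝ᵥ v = 0) (fun w hw => ?_)
    (dotProduct_zero _) (fun a b _ _ ha hb => by rw [dotProduct_add, ha, hb, add_zero])
    (fun c a _ ha => by rw [dotProduct_smul, ha, smul_zero]) (hS.le_span hv)
  have h1 : π (η ⬝ᵥ w) = act π η ⬝ᵥ w := by
    show π (∑ i, η i * w i) = ∑ i, π (η i) * w i
    rw [map_sum]
    refine Finset.sum_congr rfl fun i _ => ?_
    rw [mul_comm, hπ _ (rv_C.1 (rv_pi.1 hw.2 i)), mul_comm]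
  rw [← h1, hη w hw.1, map_zero]

theorem dm_rk (f : (n → ℂ) →ₗ[ℂ] (m → ℂ)) : dm (range f) + dm (ker f) = Fintype.card n := by
  rw [dm_range_ker, card_fun]

theorem dm_rk' (f : (n → ℂ) →ₗ[ℂ] (m → ℂ)) :
    dm (range f) + dm (ker (tr f)) = Fintype.card m := by
  rw [← dm_range_tr, dm_rk]

theorem rm_trsl {E : Subfield ℂ} (r1 : RM E (tr A1)) (r2 : RM E (tr A2)) (r3 : RM E (tr A3))
    {x1 x2 x3 : ℂ} (h1 : x1 ∈ E) (h2 : x2 ∈ E) (h3 : x3 ∈ E) :
    RM E (tr (x1 • A1 + x2 • A2 + x3 • A3)) := by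
  rw [tr_add, tr_add, tr_smul, tr_smul, tr_smul]
  exact rm_sl r1 r2 r3 h1 h2 h3

theorem rm_trM {E : Subfield ℂ} (r2 : RM E (tr A2)) (r3 : RM E (tr A3))
    {a b : ℂ} (h2 : a ∈ E) (h3 : b ∈ E) : RM E (tr (a • A2 + b • A3)) := by
  rw [tr_add, tr_smul, tr_smul]
  exact (r2.smul h2).add (r3.smul h3)

theorem tr_sl (x1 x2 x3 : ℂ) (η : m → ℂ) : tr (x1 • A1 + x2 • A2 + x3 • A3) η =
    x1 • tr A1 η + x2 • tr A2 η + x3 • tr A3 η := by
  rw [tr_add, tr_add, tr_smul, tr_smul, tr_smul]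
  rfl

theorem tr_M (a c : ℂ) (η : m → ℂ) : tr (a • A2 + c • A3) η = a • tr A2 η + c • tr A3 η := by
  rw [tr_add, tr_smul, tr_smul]
  rfl

end Pool.Agent.P.MP_098a67_ag.R3
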