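import Pool.Agent.P.MP_098a67_ag.R3.StZ

namespace Pool.Agent.P.MP_098a67_ag.R3

open Module T3
open LinearMap (ker range)

variable {m n : Type} [Fintype m] [DecidableEq m] [Fintype n] [DecidableEq n]
  {A1 A2 A3 : (n → ℂ) →ₗ[ℂ] (m → ℂ)} {σ : (m → ℂ) →ₗ[ℂ] (n → ℂ)}
  {K W0 K' : Submodule ℂ (n → ℂ)} {X0 : Submodule ℂ (m → ℂ)}
  {M N h γ γ' g g' κ k ks r ρ t q f2 f3 : ℕ} {u : (Fin t → ℂ) →ₗ[ℂ] (n → ℂ)}
  {ξ : (Fin q → ℂ) →ₗ[ℂ] (m → ℂ)} {E E4 : Subfield ℂ} {F2 : Fin f2 → n → ℂ} {F3 : Fin f3 → n → ℂ}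
  {π ν π' ν' : (n → ℂ) →ₗ[ℂ] (n → ℂ)} {Y Y' : (n → ℂ) →ₗ[ℂ] (m → ℂ)} {Φ Φ' : n → m → ℂ}
  {a' b' : ℂ}

theorem Ctx.pencil
    (c : Ctx A1 A2 A3 σ K W0 X0 (K'.map A3) M N h γ γ' g g' κ k ks r ρ t q f2 f3 u ξ E F2 F3)
    (s : S4 A1 A2 A3 σ K (K'.map A3) u ξ F2 F3 E4 π Y ν π' Y' ν' Φ Φ') (ha' : a' ≠ 0)
    (hb' : b' ≠ 0) (hK : ∀ v ∈ K', A1 v = 0 ∧ a' • A2 v + b' • A3 v = 0)
    (hΓ0 : ∀ a b : ℂ, a ≠ 0 → b ≠ 0 → a * b' ≠ b * a' →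
      γ ≤ dm ((ker A1).map (a • A2 + b • A3)) + ks)
    (hΓ1 : γ ≤ dm ((ker A1).map (a' • A2 + b' • A3) ⊔ K'.map A3) + ks) :
    RK2 (A2 - (Y + lin Φ ∘ₗ ν)) (A3 - (Y' + lin Φ' ∘ₗ ν')) (M + γ + 8 - h) := by
  have v2 := c.vertex s.d s.g.fst s.r1 s.r2 s.rπ s.rY s.rν s.rI
  have v3 := c.swap.vertex s.d' s.g.snd s.r1 s.r3 s.rπ' s.rY' s.rν' s.rI'
  have d2 := s.d.add s.g.fst.mem
  have d3 := s.d'.add s.g.snd.mem
  have mem : ∀ (a b : ℂ) (Te : Submodule ℂ (m → ℂ)), a ≠ 0 → b ≠ 0 → Te = ⊥ ∨ Te = K'.map A3 →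
      γ ≤ dm ((ker A1).map (a • A2 + b • A3) ⊔ Te) + ks →
      dm (Te.comap (a • (A2 - (Y + lin Φ ∘ₗ ν)) + b • (A3 - (Y' + lin Φ' ∘ₗ ν')))) + h ≤
        t + κ + q + γ + 6 + dm Te :=
    fun a b Te ha hb hT h1 => c.member s ha hb hT h1 fun v hv => hv
  generalize Y + lin Φ ∘ₗ ν = Z2 at *
  generalize Y' + lin Φ' ∘ₗ ν' = Z3 at *
  have hn : finrank ℂ (n → ℂ) = N := by rw [card_fun, c.b.hN]
  have n0 := c.b.nm.n0
  have key : RK2 (a' • (A2 - Z2) + b' • (A3 - Z3)) (A3 - Z3) (M + γ + 8 - h) := by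
    refine pt1 _ _ (N + h - (t + κ + q + γ + 6)) _ (fun a b hb => ?_) ?_ ?_
    · have e : a • (a' • (A2 - Z2) + b' • (A3 - Z3)) + b • (A3 - Z3) =
          (a * a') • (A2 - Z2) + (a * b' + b) • (A3 - Z3) := by module
      rw [e]
      by_cases ha : a = 0
      · have := dm_range_ker (A3 - Z3)
        rw [ha, zero_mul, zero_mul, zero_smul, zero_add, zero_add, dm_range_smul hb]
        omega
      by_cases hc : a * b' + b = 0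
      · have := dm_range_ker (A2 - Z2)
        rw [hc, zero_smul, add_zero, dm_range_smul (mul_ne_zero ha ha')]
        omega
      have a1 := mem _ _ ⊥ (mul_ne_zero ha ha') hc (Or.inl rfl) (by
        rw [sup_bot_eq]
        exact hΓ0 _ _ (mul_ne_zero ha ha') hc fun e1 => mul_ne_zero hb ha' (by
          linear_combination -e1))
      have a2 := dm_range_ker ((a * a') • (A2 - Z2) + (a * b' + b) • (A3 - Z3))
      rw [Submodule.comap_bot, dm_bot] at a1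
      omega
    · have a1 := mem _ _ _ ha' hb' (Or.inr rfl) hΓ1
      have a2 := dm_comap_top (a' • (A2 - Z2) + b' • (A3 - Z3)) (K'.map A3)
      have a3 : K'.map A3 ≤ (ker (a' • (A2 - Z2) + b' • (A3 - Z3))).map (A3 - Z3) := by
        rintro _ ⟨v, hv, rfl⟩
        have h2 := d2.y1 v (Submodule.mem_sup_left (Submodule.mem_sup_left (hK v hv).1))
        have h3 := d3.y1 v (Submodule.mem_sup_left (Submodule.mem_sup_left (hK v hv).1))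
        refine ⟨v, ?_, ?_⟩
        · show a' • (A2 v - Z2 v) + b' • (A3 v - Z3 v) = 0
          rw [h2, h3, sub_zero, sub_zero, (hK v hv).2]
        · show A3 v - Z3 v = _
          rw [h3, sub_zero]
      have a4 := dm_mono (sup_le_sup_left a3 (range (a' • (A2 - Z2) + b' • (A3 - Z3))))
      omega
    · have a1 : range (a' • (A2 - Z2) + b' • (A3 - Z3)) ⊔ range (A3 - Z3) ≤ perp (range ξ) := by
        refine sup_le ?_ ?_
        · rintro _ ⟨v, rfl⟩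
          exact Submodule.add_mem _ (Submodule.smul_mem _ _ (d2.perp_mem v))
            (Submodule.smul_mem _ _ (d3.perp_mem v))
        · rintro _ ⟨v, rfl⟩
          exact d3.perp_mem v
      have a2 : range u ⊔ K ≤ ker (a' • (A2 - Z2) + b' • (A3 - Z3)) ⊓ ker (A3 - Z3) := by
        have : ∀ v, A2 v = Z2 v → A3 v = Z3 v →
            v ∈ ker (a' • (A2 - Z2) + b' • (A3 - Z3)) ⊓ ker (A3 - Z3) := fun v h2 h3 => by
          refine ⟨?_, sub_eq_zero.2 h3⟩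
          show a' • (A2 v - Z2 v) + b' • (A3 v - Z3 v) = 0
          rw [h2, h3, sub_self, sub_self, smul_zero, smul_zero, add_zero]
        refine sup_le ?_ fun v hv => this v ?_ ?_
        · rintro _ ⟨y, rfl⟩
          exact this _ (d2.y3 y).symm (d3.y3 y).symm
        · rw [c.b.K2 v hv, d2.y1 v (Submodule.mem_sup_left (Submodule.mem_sup_right hv))]
        · rw [c.b.K3 v hv, d3.y1 v (Submodule.mem_sup_left (Submodule.mem_sup_right hv))]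
      have hu : ∀ y, u y ∈ K → y = 0 := fun y hy =>
        (c.su.up 1 0 (Or.inl one_ne_zero) y 0 ⟨_, hy, by simp⟩).1
      have a3 : dm (range u ⊔ K) = dm (range u) + dm K := dm_sup_eq (by
        rintro _ ⟨y, rfl⟩ hy
        rw [hu y hy, map_zero])
      have a4 : dm (range u) = _ := dm_range_eq fun y hy => hu y (by rw [hy]; exact K.zero_mem)
      have a5 : dm (range ξ) = _ := dm_range_eq fun y hy =>
        (c.sx.xall y 0 0 (by simp [hy])).1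
      have a6 := dm_perp (range ξ)
      have a7 := dm_mono a1
      have a8 := dm_mono a2
      have a9 := c.b.dK
      have a10 := c.b.hM
      rw [card_fun, Fintype.card_fin] at a4 a5
      omega
  refine RK.re key (fun p => (p.1 / a', p.2 - p.1 / a' * b')) fun p v => ?_
  simp only [LinearMap.add_apply, LinearMap.smul_apply, smul_add, smul_smul,
    div_mul_cancel₀ _ ha']
  module

theorem caseB (b : Base A1 A2 A3 σ K W0 X0 M N h γ γ' g g' κ k ks r ρ t q) (ha' : a' ≠ 0)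
    (hb' : b' ≠ 0) (hK : ∀ v ∈ K', A1 v = 0 ∧ a' • A2 v + b' • A3 v = 0)
    (hΓ0 : ∀ a b : ℂ, a ≠ 0 → b ≠ 0 → a * b' ≠ b * a' →
      γ ≤ dm ((ker A1).map (a • A2 + b • A3)) + ks)
    (hΓ1 : γ ≤ dm ((ker A1).map (a' • A2 + b' • A3) ⊔ K'.map A3) + ks) :
    RK3 A1 A2 A3 (M + N + 16 - h) := by
  obtain ⟨E2, ΦX, r2, g2⟩ := exists_genIn (cols (Fin q) X0)
    (ev_rat0 (A1 := A1) (A2 := A2) (A3 := A3) (σ := σ) (K := K) (T := K'.map A3))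
  have sx := stX b r2 g2
  have sx' := stX b.swap r2.swap g2
  generalize lin ΦX = ξ at sx sx'
  let W := W0 ⊓ (perp (range (tr (A2 ∘ₗ σ ∘ₗ A3) ∘ₗ ξ)) ⊓ perp (range (tr (A3 ∘ₗ σ ∘ₗ A2) ∘ₗ ξ)))
  have dW : dm W0 ≤ dm W + 2 * q := by
    have a1 := dm_inf_ge W0
      (perp (range (tr (A2 ∘ₗ σ ∘ₗ A3) ∘ₗ ξ)) ⊓ perp (range (tr (A3 ∘ₗ σ ∘ₗ A2) ∘ₗ ξ)))
    have a2 := dm_inf_ge (perp (range (tr (A2 ∘ₗ σ ∘ₗ A3) ∘ₗ ξ)))
      (perp (range (tr (A3 ∘ₗ σ ∘ₗ A2) ∘ₗ ξ)))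
    have a3 := dm_perp (range (tr (A2 ∘ₗ σ ∘ₗ A3) ∘ₗ ξ))
    have a4 := dm_perp (range (tr (A3 ∘ₗ σ ∘ₗ A2) ∘ₗ ξ))
    have a5 := dm_range_fin (tr (A2 ∘ₗ σ ∘ₗ A3) ∘ₗ ξ)
    have a6 := dm_range_fin (tr (A3 ∘ₗ σ ∘ₗ A2) ∘ₗ ξ)
    rw [card_fun] at a1 a2
    show _ ≤ dm (W0 ⊓ _) + _
    omega
  obtain ⟨E1, ΦU, r1, g1⟩ := exists_genIn (cols (Fin t) W)
    (ev_rat0 (A1 := A1) (A2 := A2) (A3 := A3) (σ := σ) (K := K) (T := K'.map A3))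
  have su := stU b inf_le_left dW r1 g1
  have su' := stU b.swap inf_le_left dW r1.swap g1
  have xa : ∀ y y', ξ y ⬝ᵥ A2 (σ (A3 (lin ΦU y'))) = 0 := fun y y' => by
    have := (lin_mem g1.mem y').2.1 _ ⟨y, rfl⟩
    rwa [dotProduct_comm, LinearMap.comp_apply, tr_dot] at this
  have xa' : ∀ y y', ξ y ⬝ᵥ A3 (σ (A2 (lin ΦU y'))) = 0 := fun y y' => by
    have := (lin_mem g1.mem y').2.2 _ ⟨y, rfl⟩
    rwa [dotProduct_comm, LinearMap.comp_apply, tr_dot] at this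
  generalize lin ΦU = u at su su' xa xa'
  obtain ⟨f2, f3, hf, hf2, hf3⟩ : ∃ f2 f3 : ℕ, f2 + f3 + κ + 2 * t + γ = N ∧ f2 ≤ f3 + 1 ∧
      f3 ≤ f2 + 1 := by
    have := b.nm.f0
    exact ⟨(N - κ - 2 * t - γ) / 2, (N - κ - 2 * t - γ + 1) / 2, by omega, by omega, by omega⟩
  obtain ⟨E3, ⟨F2, F3⟩, r3, g3⟩ := exists_genIn ((cols (Fin f2) (perp (range (tr A3 ∘ₗ ξ)))).prod
    (cols (Fin f3) (perp (range (tr A2 ∘ₗ ξ)))))
    ((ev_rat0 (A1 := A1) (A2 := A2) (A3 := A3) (σ := σ) (K := K) (T := K'.map A3)).and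
      ((ev_rm u).and (ev_rm ξ)))
  have c : Ctx A1 A2 A3 σ K W0 X0 (K'.map A3) M N h γ γ' g g' κ k ks r ρ t q f2 f3 u ξ E3 F2 F3 :=
    ⟨b, su, su', sx, sx', xa, xa', r3.1, r3.2.1, r3.2.2, g3, hf, hf2, hf3⟩
  obtain ⟨π, Y, ν, d⟩ := c.exY
  obtain ⟨π', Y', ν', d'⟩ := c.swap.exY
  obtain ⟨E4, ⟨Φ, Φ'⟩, ⟨p1, p2, p3, p4, p5, p6, p7, p8, p9, p10, p11, p12⟩, g4⟩ := exists_genIn
    ((cols n ((Hs σ A2 u F2).map A1 ⊓ perp (range ξ))).prod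
      (cols n ((Hs σ A3 u F3).map A1 ⊓ perp (range ξ))))
    ((ev_rm A1).and ((ev_rm A2).and ((ev_rm A3).and ((ev_rm π).and ((ev_rm Y).and ((ev_rm ν).and
      ((ev_rm π').and ((ev_rm Y').and ((ev_rm ν').and
      ((ev_rs ((Hs σ A2 u F2).map A1 ⊓ perp (range ξ))).and
      ((ev_rs ((Hs σ A3 u F3).map A1 ⊓ perp (range ξ))).and (ev_rs (K'.map A3)))))))))))))
  have s : S4 A1 A2 A3 σ K (K'.map A3) u ξ F2 F3 E4 π Y ν π' Y' ν' Φ Φ' :=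
    ⟨d, d', g4, p1, p2, p3, p4, p5, p6, p7, p8, p9, p10, p11, p12, by
      rintro _ ⟨v, hv, rfl⟩ _ ⟨y, rfl⟩
      rw [dotProduct_comm]
      exact sx'.n2 y v (hK v hv).1⟩
  have q1 := c.pencil s ha' hb' hK hΓ0 hΓ1
  have q2 := c.small d g4.fst p1 p2 p4 p5 p6 p10
  have q3 := c.swap.small d' g4.snd p1 p3 p7 p8 p9 p11
  generalize Y + lin Φ ∘ₗ ν = Z2 at q1 q2
  generalize Y' + lin Φ' ∘ₗ ν' = Z3 at q1 q3
  have q4 : RK3 (A1 ∘ₗ π + A1 ∘ₗ π') Z2 Z3 (t + f2 + 4 + (t + f3 + 4)) := by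
    refine RK.add (q2.re (g := fun x : ℂ × ℂ × ℂ => x.1 • (A1 ∘ₗ π) + x.2.1 • Z2)
      (fun x => (x.1, x.2.1)) fun _ _ => rfl)
      (q3.re (g := fun x : ℂ × ℂ × ℂ => x.1 • (A1 ∘ₗ π') + x.2.2 • Z3)
      (fun x => (x.1, x.2.2)) fun _ _ => rfl) fun x v => ?_
    simp only [LinearMap.add_apply, LinearMap.smul_apply]
    module
  refine RK.mono (rk3_first (k := κ) ?_ (rk3_free q4 q1)) (by have := b.nm.n0; omega)
  refine le_trans (dm_mono (T := K.map A1) ?_) (b.dK ▸ dm_map_le A1 K)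
  rintro _ ⟨v, rfl⟩
  have : v ∈ ker A1 ⊔ K ⊔ Hs σ A3 u F3 ⊔ Hs σ A2 u F2 := by rw [c.top]; trivial
  obtain ⟨_, h1, w2, h2, rfl⟩ := Submodule.mem_sup.1 this
  obtain ⟨j, hj, w3, h3, rfl⟩ := Submodule.mem_sup.1 h1
  obtain ⟨w, hw, v0, hv, rfl⟩ := Submodule.mem_sup.1 hj
  have e2 : π (w + v0 + w3 + w2) = w2 := by rw [map_add, d.p2 _ h1, d.p1 _ h2, zero_add]
  have e3 : π' (w + v0 + w3 + w2) = w3 := by
    rw [add_right_comm, map_add, d'.p2 _ (Submodule.add_mem_sup hj h2), d'.p1 _ h3, zero_add]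
  refine ⟨v0, hv, ?_⟩
  simp only [LinearMap.sub_apply, LinearMap.add_apply, LinearMap.comp_apply]
  rw [e2, e3]
  simp only [map_add, show A1 w = 0 from hw]
  module

end Pool.Agent.P.MP_098a67_ag.R3
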