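import Pool.Agent.P.MP_098a67_ag.R3.StU

namespace Pool.Agent.P.MP_098a67_ag.R3

open Module T3
open LinearMap (ker range)

variable {m n : Type} [Fintype m] [DecidableEq m] [Fintype n] [DecidableEq n]

/-- The fixed part of the column decomposition. -/
noncomputable def Cs (A1 : (n → ℂ) →ₗ[ℂ] (m → ℂ)) (σ : (m → ℂ) →ₗ[ℂ] (n → ℂ))
    (A : (n → ℂ) →ₗ[ℂ] (m → ℂ)) (K : Submodule ℂ (n → ℂ)) {t : ℕ}
    (u : (Fin t → ℂ) →ₗ[ℂ] (n → ℂ)) : Submodule ℂ (n → ℂ) :=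
  ker A1 ⊔ K ⊔ range (σ ∘ₗ A ∘ₗ u)

/-- A block of columns. -/
noncomputable def Hs (σ : (m → ℂ) →ₗ[ℂ] (n → ℂ)) (A : (n → ℂ) →ₗ[ℂ] (m → ℂ)) {t f : ℕ}
    (u : (Fin t → ℂ) →ₗ[ℂ] (n → ℂ))
    (F : Fin f → n → ℂ) : Submodule ℂ (n → ℂ) :=
  range (σ ∘ₗ A ∘ₗ u) ⊔ range (lin F)

theorem mem_Hs {σ : (m → ℂ) →ₗ[ℂ] (n → ℂ)} {A : (n → ℂ) →ₗ[ℂ] (m → ℂ)}
    {t f : ℕ} {u : (Fin t → ℂ) →ₗ[ℂ] (n → ℂ)}
    {F : Fin f → n → ℂ} {v : n → ℂ} : v ∈ Hs σ A u F ↔ ∃ y x, σ (A (u y)) + lin F x = v := by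
  constructor
  · intro hv
    obtain ⟨_, ⟨y, rfl⟩, _, ⟨x, rfl⟩, rfl⟩ := Submodule.mem_sup.1 hv
    exact ⟨y, x, rfl⟩
  · rintro ⟨y, x, rfl⟩
    exact Submodule.add_mem_sup ⟨y, rfl⟩ ⟨x, rfl⟩

theorem mem_Cs {A1 A : (n → ℂ) →ₗ[ℂ] (m → ℂ)} {σ : (m → ℂ) →ₗ[ℂ] (n → ℂ)}
    {K : Submodule ℂ (n → ℂ)} {t : ℕ}
    {u : (Fin t → ℂ) →ₗ[ℂ] (n → ℂ)} {v : n → ℂ} :
    v ∈ Cs A1 σ A K u ↔ ∃ ν κ y, A1 ν = 0 ∧ κ ∈ K ∧ ν + κ + σ (A (u y)) = v := by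
  constructor
  · intro hv
    obtain ⟨_, h1, _, ⟨y, rfl⟩, rfl⟩ := Submodule.mem_sup.1 hv
    obtain ⟨ν, hν, κ, hκ, rfl⟩ := Submodule.mem_sup.1 h1
    exact ⟨ν, κ, y, hν, hκ, rfl⟩
  · rintro ⟨ν, κ, y, hν, hκ, rfl⟩
    exact Submodule.add_mem_sup (Submodule.add_mem_sup hν hκ) ⟨y, rfl⟩

theorem mem_J {A1 A : (n → ℂ) →ₗ[ℂ] (m → ℂ)} {σ : (m → ℂ) →ₗ[ℂ] (n → ℂ)}
    {K : Submodule ℂ (n → ℂ)} {t f : ℕ}
    {u : (Fin t → ℂ) →ₗ[ℂ] (n → ℂ)} {F : Fin f → n → ℂ} {v : n → ℂ}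
    (hv : v ∈ ker A1 ⊔ K ⊔ Hs σ A u F) : ∃ x, v - lin F x ∈ Cs A1 σ A K u := by
  obtain ⟨a, ha, b, hb, rfl⟩ := Submodule.mem_sup.1 hv
  obtain ⟨y, x, rfl⟩ := mem_Hs.1 hb
  refine ⟨x, ?_⟩
  rw [← add_assoc, add_sub_cancel_right]
  exact Submodule.add_mem_sup ha ⟨y, rfl⟩

/-- All data before the third stage. -/
structure Ctx (A1 A2 A3 : (n → ℂ) →ₗ[ℂ] (m → ℂ)) (σ : (m → ℂ) →ₗ[ℂ] (n → ℂ))
    (K W0 : Submodule ℂ (n → ℂ)) (X0 T : Submodule ℂ (m → ℂ))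
    (M N h γ γ' g g' κ k ks r ρ t q f2 f3 : ℕ) (u : (Fin t → ℂ) →ₗ[ℂ] (n → ℂ))
    (ξ : (Fin q → ℂ) →ₗ[ℂ] (m → ℂ)) (E : Subfield ℂ) (F2 : Fin f2 → n → ℂ)
    (F3 : Fin f3 → n → ℂ) : Prop where
  b : Base A1 A2 A3 σ K W0 X0 M N h γ γ' g g' κ k ks r ρ t q
  su : StU A1 A2 A3 σ K T M N h γ κ ks t q u
  su' : StU A1 A3 A2 σ K T M N h γ κ ks t q u
  sx : StX A1 A2 A3 h γ' κ t q ξ
  sx' : StX A1 A3 A2 h γ' κ t q ξ
  xa : ∀ y y', ξ y ⬝ᵥ A2 (σ (A3 (u y'))) = 0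
  xa' : ∀ y y', ξ y ⬝ᵥ A3 (σ (A2 (u y'))) = 0
  r : Rat0 A1 A2 A3 σ K T E
  ru : RM E u
  rξ : RM E ξ
  gen : GenIn E (F2, F3) ((cols (Fin f2) (perp (range (tr A3 ∘ₗ ξ)))).prod
    (cols (Fin f3) (perp (range (tr A2 ∘ₗ ξ))))) 0
  hf : f2 + f3 + κ + 2 * t + γ = N
  hf2 : f2 ≤ f3 + 1
  hf3 : f3 ≤ f2 + 1

variable {A1 A2 A3 : (n → ℂ) →ₗ[ℂ] (m → ℂ)} {σ : (m → ℂ) →ₗ[ℂ] (n → ℂ)}
  {K W0 : Submodule ℂ (n → ℂ)} {X0 T : Submodule ℂ (m → ℂ)}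
  {M N h γ γ' g g' κ k ks r ρ t q f2 f3 : ℕ} {u : (Fin t → ℂ) →ₗ[ℂ] (n → ℂ)}
  {ξ : (Fin q → ℂ) →ₗ[ℂ] (m → ℂ)} {E : Subfield ℂ} {F2 : Fin f2 → n → ℂ} {F3 : Fin f3 → n → ℂ}

namespace Ctx

variable (c : Ctx A1 A2 A3 σ K W0 X0 T M N h γ γ' g g' κ k ks r ρ t q f2 f3 u ξ E F2 F3)
include c

theorem swap : Ctx A1 A3 A2 σ K W0 X0 T M N h γ γ' g g' κ k ks r ρ t q f3 f2 u ξ E F3 F2 :=
  ⟨c.b.swap, c.su', c.su, c.sx', c.sx, c.xa', c.xa, c.r.swap, c.ru, c.rξ, c.gen.swap,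
    by have := c.hf; omega, c.hf3, c.hf2⟩

theorem dL : N ≤ dm (perp (range (tr A2 ∘ₗ ξ))) + q := by
  have a1 := dm_perp (range (tr A2 ∘ₗ ξ))
  have a2 := dm_range_fin (tr A2 ∘ₗ ξ)
  have a3 := c.b.hN
  omega

theorem xp {r1 r2 : ℂ} (hr : r1 ≠ 0 ∨ r2 ≠ 0) (y y' : Fin q → ℂ)
    (e : r1 • tr A1 (ξ y) + r2 • tr A2 (ξ y) + tr A3 (ξ y') = 0) : y = 0 ∧ y' = 0 := by
  obtain ⟨h1, h2, h3⟩ := c.sx.xall (r1 • y) (r2 • y) y' (by simpa only [map_smul] using e)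
  rcases hr with hr | hr
  · exact ⟨(smul_eq_zero_iff_right hr).1 h1, h3⟩
  · exact ⟨(smul_eq_zero_iff_right hr).1 h2, h3⟩

theorem dC : dm (Cs A1 σ A2 K u) ≤ γ + κ + t := by
  have a1 := dm_sup_le (ker A1 ⊔ K) (range (σ ∘ₗ A2 ∘ₗ u))
  have a2 := dm_sup_le (ker A1) K
  have a3 := dm_range_fin (σ ∘ₗ A2 ∘ₗ u)
  have a4 := c.b.g1
  have a5 := c.b.dK
  rw [Cs]
  omega

theorem rC : RS E (Cs A1 σ A2 K u) := by
  obtain ⟨r1, r2, _, rσ, _, _, _, rK, _⟩ := c.r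
  exact ((RS.ker r1).sup rK).sup (RS.range (rσ.comp (r2.comp c.ru)))

theorem s2 (y : Fin t → ℂ) : A1 (σ (A2 (u y))) = A2 (u y) := c.b.sig' (c.su.w2 y)

theorem inj3 (y : Fin t → ℂ) (hy : A3 (u y) = 0) : y = 0 :=
  (c.su.up 1 0 (Or.inl one_ne_zero) 0 y (by simp [hy])).2

theorem num : (t ≠ 0 ∨ q ≠ 0 → q + 3 ≤ f2 ∧ q + 3 ≤ f3) ∧ f2 + f3 + κ + 2 * t + γ = N ∧
    f2 ≤ f3 + 1 ∧ f3 ≤ f2 + 1 := by
  have := c.b.nm.n7
  have := c.hf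
  have := c.hf2
  have := c.hf3
  omega

theorem d2a {r1 r2 : ℂ} (hr : r1 ≠ 0 ∨ r2 ≠ 0) (y : Fin t → ℂ)
    (hy : r1 • A1 (u y) + r2 • A2 (u y) ∈ (K ⊔ Hs σ A3 u F3).map A1) : y = 0 := by
  by_cases t0 : t = 0
  · exact fin_zero t0 y
  obtain ⟨_, hv, e⟩ := hy
  obtain ⟨v0, hκ, _, hb, rfl⟩ := Submodule.mem_sup.1 hv
  obtain ⟨y3, x3, rfl⟩ := mem_Hs.1 hb
  rw [map_add, map_add, c.swap.s2] at e
  obtain ⟨E1, e1, h1, h2⟩ := ext2 E r1 r2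
  obtain ⟨p1, p2, p3, _, _, _, _, pK, _⟩ := c.r.mono e1.le
  have pu := c.ru.mono e1.le
  have hx : x3 = 0 := by
    refine g1e (c.gen.snd.ext e1) p1 (((RS.range (((p1.smul h1).add (p2.smul h2)).comp pu)).sup
      (RS.range (p3.comp pu))).sup (RS.map p1 pK)) ?_ ?_
    · have : A1 (lin F3 x3) = (r1 • A1 (u y) + r2 • A2 (u y)) + A3 (u (-y3)) + A1 (-v0) := by
        simp only [map_neg]
        linear_combination (norm := module) e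
      rw [this]
      exact Submodule.add_mem_sup (Submodule.add_mem_sup ⟨y, rfl⟩ ⟨-y3, rfl⟩)
        ⟨-v0, K.neg_mem hκ, rfl⟩
    · have a1 := dm_sup_le (range ((r1 • A1 + r2 • A2) ∘ₗ u) ⊔ range (A3 ∘ₗ u)) (K.map A1)
      have a2 := dm_sup_le (range ((r1 • A1 + r2 • A2) ∘ₗ u)) (range (A3 ∘ₗ u))
      have a3 := dm_range_fin ((r1 • A1 + r2 • A2) ∘ₗ u)
      have a4 := dm_range_fin (A3 ∘ₗ u)
      have a5 := dm_map_le A1 K
      have a6 := dm_le_map_add A1 (perp (range (tr A2 ∘ₗ ξ)))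
      have a7 := dm_mono (le_sup_left : (perp (range (tr A2 ∘ₗ ξ))).map A1 ≤
        _ ⊔ (range ((r1 • A1 + r2 • A2) ∘ₗ u) ⊔ range (A3 ∘ₗ u) ⊔ K.map A1))
      have a8 := c.dL
      have a9 := c.num
      have a10 := c.b.dK
      have a11 := c.b.g1
      rw [Fintype.card_fin]
      omega
  rw [hx, map_zero, map_zero, add_zero] at e
  refine (c.su.up r1 r2 hr y (-y3) ⟨v0, hκ, ?_⟩).1
  simp only [map_neg]
  linear_combination (norm := module) e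

theorem d2b {r1 r2 : ℂ} (hr : r1 ≠ 0 ∨ r2 ≠ 0) (y : Fin q → ℂ)
    (hy : r1 • tr A1 (ξ y) + r2 • tr A2 (ξ y) ∈ perp (range (lin F2))) : y = 0 := by
  by_cases q0 : q = 0
  · exact fin_zero q0 y
  by_cases hm : r1 • tr A1 (ξ y) + r2 • tr A2 (ξ y) ∈ perp (perp (range (tr A3 ∘ₗ ξ)))
  · rw [perp_perp] at hm
    obtain ⟨y', hy'⟩ := hm
    refine (c.xp hr y (-y') ?_).1
    rw [← hy', map_neg, map_neg]
    exact add_neg_cancel _
  · obtain ⟨E1, e1, h1, h2⟩ := ext2 E r1 r2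
    obtain ⟨E2, e2, h3⟩ := ext_vec E1 y
    obtain ⟨_, _, _, _, p1, p2, _⟩ := c.r.mono (e1.le.trans e2.le)
    have py := (c.rξ.mono (e1.le.trans e2.le)).rv h3
    have a1 := gf0 ((c.gen.fst.ext e1).ext e2)
      (((p1.rv py).smul (e2.le h1)).add ((p2.rv py).smul (e2.le h2))) hm hy
    have a2 := c.num
    rw [Fintype.card_fin, Fintype.card_fin] at a1
    omega

theorem m1 {a b : ℂ} (ha : a ≠ 0) {Te : Submodule ℂ (m → ℂ)} (hT : Te = ⊥ ∨ Te = T)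
    (hΓ : γ ≤ dm ((ker A1).map (a • A2 + b • A3) ⊔ Te) + ks) :
    t + f3 + h ≤ dm ((ker A1).map (a • A2 + b • A3) ⊔ Te ⊔
      (Hs σ A3 u F3).map (a • A2 + b • A3) ⊔ (Hs σ A3 u F3).map A1) + 4 := by
  have num := c.num
  have dL := c.dL
  have hq := c.b.nm.hq
  have hh := c.b.nm.hh
  obtain ⟨E1, e1, ha1, hb1⟩ := ext2 E a b
  obtain ⟨p1, p2, p3, pσ, _⟩ := c.r.mono e1.le
  have pu := c.ru.mono e1.le
  have pM := (p2.smul ha1).add (p3.smul hb1)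
  have pTe := (c.r.mono e1.le).te hT
  have b0 := fun t0 => c.su.uΓ t0 a b (Or.inl ha) Te hT hΓ f3 (by omega)
  have b1 := fun μ => c.su.u2 μ a b (Or.inr ha)
  have b2 := dm_range_sup A1 (a • A2 + b • A3)
  rw [dm_zero (S := ker (tr A1) ⊓ ker (tr (a • A2 + b • A3)))
    fun η hη => c.b.l1 a b (Or.inl ha) η hη.1 hη.2, c.b.hM] at b2
  simp only [add_assoc] at b1
  generalize a • A2 + b • A3 = B at *
  obtain ⟨C, C1, C2, C3, C4⟩ := rat_compl_aux ((RS.range (p3.comp pu)).sup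
    ((RS.range ((pM.comp (pσ.comp p3)).comp pu)).sup ((RS.map pM (RS.ker p1)).sup pTe)))
    le_sup_left _ ⊥ RS.bot bot_le (fun _ _ h => h) (Nat.le_add_left _ _)
  have d2 := dm_range_fin (A3 ∘ₗ u)
  have d3 := dm_sup_eq C3
  have d4 := dm_mono ((le_sup_right : (ker A1).map B ⊔ Te ≤
    range ((B ∘ₗ σ ∘ₗ A3) ∘ₗ u) ⊔ _).trans (le_sup_right : _ ≤ range (A3 ∘ₗ u) ⊔ _))
  rw [C4] at d3
  obtain ⟨Γ, Γ1, Γ2, Γ3⟩ := C1.exists_le (d := h - 4 - f3) (by omega)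
  obtain ⟨P, _, P2, P3⟩ := (RS.top (E := E1) (V := Fin f3 → ℂ)).exists_le (d := min f3 (h - 4))
    (by rw [dm_top, card_fun, Fintype.card_fin]; omega)
  have b3 : range (A3 ∘ₗ u) ≤ (Hs σ A3 u F3).map A1 := by
    rintro _ ⟨y, rfl⟩
    exact ⟨σ (A3 (u y)), Submodule.mem_sup_left ⟨y, rfl⟩, c.swap.s2 y⟩
  have b4 : C ≤ (ker A1).map B ⊔ Te ⊔ (Hs σ A3 u F3).map B ⊔ (Hs σ A3 u F3).map A1 := by
    refine C2.trans (sup_le (b3.trans le_sup_right) (sup_le ?_ (le_sup_left.trans le_sup_left)))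
    rintro _ ⟨y, rfl⟩
    exact Submodule.mem_sup_left (Submodule.mem_sup_right
      ⟨σ (A3 (u y)), Submodule.mem_sup_left ⟨y, rfl⟩, rfl⟩)
  have key := dm_le_of_inj
    (LinearMap.id.coprod ((B ∘ₗ lin F3).coprod ((A3 ∘ₗ u).coprod (A1 ∘ₗ lin F3))))
    (S := Γ.prod (P.prod ⊤))
    (T := (ker A1).map B ⊔ Te ⊔ (Hs σ A3 u F3).map B ⊔ (Hs σ A3 u F3).map A1) (by
      rintro ⟨g, x, y, z⟩ ⟨h1, _⟩
      show g + (B (lin F3 x) + (A3 (u y) + A1 (lin F3 z))) ∈ _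
      exact Submodule.add_mem _ (b4 (Γ1 h1)) (Submodule.add_mem _ (Submodule.mem_sup_left
        (Submodule.mem_sup_right ⟨_, Submodule.mem_sup_right ⟨x, rfl⟩, rfl⟩))
        (Submodule.mem_sup_right (Submodule.add_mem _ (b3 ⟨y, rfl⟩)
          ⟨_, Submodule.mem_sup_right ⟨z, rfl⟩, rfl⟩)))) (by
      rintro ⟨g, x, y, z⟩ ⟨h1, h2, _⟩ e
      replace e : g + (B (lin F3 x) + (A3 (u y) + A1 (lin F3 z))) = 0 := e
      have hD : A1 (lin F3 z) + B (lin F3 x) ∈ range (A3 ∘ₗ u) ⊔ Γ := by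
        have : A1 (lin F3 z) + B (lin F3 x) = A3 (u (-y)) + -g := by
          simp only [map_neg]
          linear_combination (norm := module) e
        rw [this]
        exact Submodule.add_mem_sup ⟨-y, rfl⟩ (Γ.neg_mem h1)
      have pD := (RS.range (p3.comp pu)).sup Γ2
      have d1 := dm_sup_le (range (A3 ∘ₗ u)) Γ
      have a2 := dm_le_map_add A1 (perp (range (tr A2 ∘ₗ ξ)))
      have a4 := c.b.g1
      have hx : x = 0 := by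
        by_contra hx
        obtain ⟨E2, e2, px⟩ := cost P2 (x := x) RV.zero (by rw [sub_zero]; exact h2)
        by_cases hz : z ∈ ℂ ∙ x
        · obtain ⟨μ, rfl⟩ := Submodule.mem_span_singleton.1 hz
          obtain ⟨E3, e3, pμ⟩ := ext1 E2 μ
          have l3 := e2.le.trans e3.le
          have a1 := g0 (((c.gen.snd.ext e1).ext e2).ext e3) RM.id
            (RS.comap (((p1.mono l3).smul pμ).add (pM.mono l3)) (pD.mono l3)) (px.mono e3.le) hx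
            RV.zero (by
              rw [sub_zero]
              show μ • A1 (lin F3 x) + B (lin F3 x) ∈ range (A3 ∘ₗ u) ⊔ Γ
              rwa [map_smul, map_smul] at hD)
          have a3 := dm_comap_sup_le (μ • A1 + B) (range (A3 ∘ₗ u)) Γ
          have a5 := dm_mono (le_sup_left : perp (range (tr A2 ∘ₗ ξ)) ≤
            _ ⊔ (range (A3 ∘ₗ u) ⊔ Γ).comap (μ • A1 + B))
          have a6 := b1 μ
          rw [Submodule.map_id] at a1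
          omega
        · obtain ⟨E3, e3, pz⟩ := ext_vec E2 z
          have l3 := e2.le.trans e3.le
          have a1 := g2s (((c.gen.snd.ext e1).ext e2).ext e3) (p1.mono l3) (pM.mono l3)
            (pD.mono l3) pz (px.mono e3.le) hz hx hD
          have a3 := dm_mono (le_sup_left : (perp (range (tr A2 ∘ₗ ξ))).map A1 ⊔
            (perp (range (tr A2 ∘ₗ ξ))).map B ≤ _ ⊔ (range (A3 ∘ₗ u) ⊔ Γ))
          have a5 := dm_mono (le_sup_left : (perp (range (tr A2 ∘ₗ ξ))).map A1 ≤ _ ⊔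
            (perp (range (tr A2 ∘ₗ ξ))).map B)
          have a6 := dm_map_sup_le A1 (perp (range (tr A2 ∘ₗ ξ))) (range B)
          have a7 := dm_map_sup_le B (perp (range (tr A2 ∘ₗ ξ)))
            ((perp (range (tr A2 ∘ₗ ξ))).map A1)
          have a8 := c.b.nm.n12
          have a9 := c.b.nm.e1
          rw [sup_comm (range B), sup_comm (Submodule.map B _)] at a7
          rw [card_fun, c.b.hN] at a6 a7
          rw [Fintype.card_fin] at a1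
          omega
      subst hx
      simp only [map_zero, add_zero, zero_add] at e hD
      have hz : z = 0 := by
        refine g1e (c.gen.snd.ext e1) p1 pD hD ?_
        have a3 := dm_mono (le_sup_left : (perp (range (tr A2 ∘ₗ ξ))).map A1 ≤
          _ ⊔ (range (A3 ∘ₗ u) ⊔ Γ))
        have a5 := c.b.nm.n10
        have a6 := c.b.nm.n11
        rw [Fintype.card_fin]
        omega
      subst hz
      simp only [map_zero, add_zero] at e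
      have hg : g = 0 := C3 g ⟨-y, by
        show A3 (u (-y)) = g
        rw [map_neg, map_neg]
        linear_combination (norm := module) -e⟩ (Γ1 h1)
      rw [hg, zero_add] at e
      simp [hg, c.inj3 y e])
  rw [dm_prod, dm_prod, dm_top, Module.finrank_prod, card_fun, card_fun, Fintype.card_fin,
    Fintype.card_fin] at key
  omega

theorem va : dm ((ker A1 ⊔ K ⊔ Hs σ A3 u F3) ⊓ ker A2) + h ≤ κ + q + γ + 4 := by
  have num := c.num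
  have dL := c.dL
  have dC := c.swap.dC
  obtain ⟨_, p2, _⟩ := c.r
  let D : Submodule ℂ ((n → ℂ) × (Fin f3 → ℂ)) :=
    (Cs A1 σ A3 K u).prod ⊤ ⊓ ker (A2 ∘ₗ LinearMap.id.coprod (lin F3))
  have a1 : dm ((ker A1 ⊔ K ⊔ Hs σ A3 u F3) ⊓ ker A2) ≤ dm D :=
    dm_le_of_surj (LinearMap.id.coprod (lin F3)) fun v hv => by
      obtain ⟨x, hx⟩ := mem_J hv.1
      have e : LinearMap.id.coprod (lin F3) (v - lin F3 x, x) = v := sub_add_cancel _ _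
      exact ⟨(v - lin F3 x, x), ⟨⟨hx, trivial⟩, by
        show A2 (LinearMap.id.coprod (lin F3) (v - lin F3 x, x)) = 0
        rw [e]; exact hv.2⟩, e⟩
  by_cases h0 : D ≤ ker (LinearMap.snd ℂ _ _)
  · let P : Submodule ℂ (((n → ℂ) × (n → ℂ)) × (Fin t → ℂ)) := ((ker A1).prod K).prod ⊤ ⊓
      ker (A2 ∘ₗ (LinearMap.fst ℂ _ _).coprod (σ ∘ₗ A3 ∘ₗ u))
    have a2 : dm D ≤ dm P := dm_le_of_surj (LinearMap.inl ℂ _ _ ∘ₗ
        (LinearMap.id.coprod LinearMap.id).coprod (σ ∘ₗ A3 ∘ₗ u)) fun ω hω => by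
      obtain ⟨ν, v0, y, hν, hκ, e⟩ := mem_Cs.1 hω.1.1
      have h1 : A2 (ω.1 + lin F3 ω.2) = 0 := hω.2
      rw [show ω.2 = 0 from h0 hω, map_zero, add_zero, ← e, add_right_comm, map_add,
        c.b.K2 v0 hκ, add_zero] at h1
      exact ⟨((ν, v0), y), ⟨⟨⟨hν, hκ⟩, trivial⟩, h1⟩, Prod.ext e (h0 hω).symm⟩
    have a3 := dm_le_add (LinearMap.snd ℂ _ _) (LinearMap.fst ℂ _ _) (S := P)
      (T := ((ker A2).map A1).comap (A3 ∘ₗ u)) (K := (ker A1 ⊓ ker A2).prod K)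
      (fun ω hω => ⟨ω.1.1 + σ (A3 (u ω.2)), hω.2, by
        rw [map_add, show A1 ω.1.1 = 0 from hω.1.1.1, c.swap.s2, zero_add]; rfl⟩)
      (fun ω hω e => ⟨⟨hω.1.1.1, by
        have h1 : A2 (ω.1.1 + σ (A3 (u ω.2))) = 0 := hω.2
        rwa [show ω.2 = 0 from e, map_zero, map_zero, map_zero, add_zero] at h1⟩, hω.1.1.2⟩)
      fun ω _ e e' => Prod.ext e' e
    have a4 := c.su.u3
    rw [dm_prod, c.b.dK] at a3
    omega
  · have a2 := gm c.gen.snd p2 RM.snd (p2.comp RM.fst).neg RS.bot (c.swap.rC.prod RS.top)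
      (D := D) inf_le_left (fun ω hω => by
        have h1 : A2 (ω.1 + lin F3 ω.2) = 0 := hω.2
        rw [Submodule.mem_bot, ← h1, map_add, add_comm]
        exact sub_neg_eq_add _ _) h0
    have a3 := dm_le_map_add A2 (perp (range (tr A2 ∘ₗ ξ)))
    have a4 := c.b.g2
    have a5 := c.b.nm.n8
    rw [sup_bot_eq, dm_bot, dm_prod, dm_top, card_fun, Fintype.card_fin] at a2
    omega

theorem vb : dm (ker (tr A2) ⊓ perp ((range (lin F2)).map A1)) + h ≤ t + κ + γ' + 4 := by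
  have num := c.num
  obtain ⟨_, _, _, _, p1, p2, _⟩ := c.r
  rcases gf c.gen.fst p1 (RS.ker p2) (D := ker (tr A2) ⊓ perp ((range (lin F2)).map A1))
    inf_le_left (fun η hη => by
      have := hη.2
      rwa [perp_map] at this) with h1 | h1
  · rw [perp_perp] at h1
    have a1 := dm_le_of_inj (tr A1) (S := ker (tr A2) ⊓ perp ((range (lin F2)).map A1))
      (T := (((ker (tr A2)).map (tr A1)).comap (tr A3 ∘ₗ ξ)).map (tr A3 ∘ₗ ξ)) (fun η hη => by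
        obtain ⟨y, hy⟩ := h1 hη
        exact ⟨y, ⟨η, hη.1, hy.symm⟩, hy⟩) fun η hη h0 =>
        c.b.l1 1 0 (Or.inl one_ne_zero) η h0 (by rw [one_smul, zero_smul, add_zero]; exact hη.1)
    have a2 := dm_map_le (tr A3 ∘ₗ ξ) (((ker (tr A2)).map (tr A1)).comap (tr A3 ∘ₗ ξ))
    have a3 := c.sx.x3
    omega
  · have a1 := c.b.nm.n9
    have a2 := c.b.nm.e1
    rw [Fintype.card_fin, c.b.c2] at h1
    omega

end Ctx

end Pool.Agent.P.MP_098a67_ag.R3
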