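import Pool.Agent.P.MP_098a67_ag.R3.StX

namespace Pool.Agent.P.MP_098a67_ag.R3

open Module T3
open LinearMap (ker range)

variable {m n : Type} [Fintype m] [DecidableEq m] [Fintype n] [DecidableEq n]

/-- Properties of the generic space of killed columns. -/
structure StU (A1 A2 A3 : (n → ℂ) →ₗ[ℂ] (m → ℂ)) (σ : (m → ℂ) →ₗ[ℂ] (n → ℂ))
    (K : Submodule ℂ (n → ℂ)) (T : Submodule ℂ (m → ℂ)) (M N h γ κ ks t q : ℕ)
    (u : (Fin t → ℂ) →ₗ[ℂ] (n → ℂ)) : Prop where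
  w2 : ∀ y, A2 (u y) ∈ range A1
  up : ∀ r1 r2 : ℂ, r1 ≠ 0 ∨ r2 ≠ 0 → ∀ y y',
    r1 • A1 (u y) + r2 • A2 (u y) + A3 (u y') ∈ K.map A1 → y = 0 ∧ y' = 0
  u23 : ∀ a b : ℂ, a ≠ 0 → ∀ Te, Te = ⊥ ∨ Te = T →
    γ ≤ dm ((ker A1).map (a • A2 + b • A3) ⊔ Te) + ks →
    ∀ D : Submodule ℂ (((Fin t → ℂ) × (Fin t → ℂ)) × (Fin t → ℂ)),
    (∀ ω ∈ D, a • A2 (u ω.1.1) - (a • A2 + b • A3) (σ (A2 (u ω.1.2))) ∈
      (ker A1).map (a • A2 + b • A3) ⊔ Te) →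
    (∀ ω ∈ D, A1 (u ω.1.1) - A2 (u ω.1.2) + A3 (u ω.2) ∈ K.map A1) →
    dm D + h ≤ dm ((ker A1).map (a • A2 + b • A3) ⊔ Te) + q + 4
  u2 : ∀ x1 x2 x3 : ℂ, x1 ≠ 0 ∨ x2 ≠ 0 →
    dm ((range (A3 ∘ₗ u)).comap (x1 • A1 + x2 • A2 + x3 • A3)) + q + h ≤ N
  u3 : dm (((ker A2).map A1).comap (A3 ∘ₗ u)) + dm (ker A1 ⊓ ker A2) + h ≤ q + γ + 4
  u4 : ∀ a b : ℂ, a ≠ 0 →
    dm (ker (tr (a • A2 + b • A3)) ⊓ perp (range (A3 ∘ₗ u))) + q + t + h ≤ M + 2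
  uΓ : t ≠ 0 → ∀ a b : ℂ, a ≠ 0 ∨ b ≠ 0 → ∀ Te, Te = ⊥ ∨ Te = T →
    γ ≤ dm ((ker A1).map (a • A2 + b • A3) ⊔ Te) + ks → ∀ f, N ≤ 2 * f + 1 + κ + 2 * t + γ →
    t + h ≤ dm (range (A3 ∘ₗ u) ⊔ (range (((a • A2 + b • A3) ∘ₗ σ ∘ₗ A3) ∘ₗ u) ⊔
      ((ker A1).map (a • A2 + b • A3) ⊔ Te))) + f + 2

variable {A1 A2 A3 : (n → ℂ) →ₗ[ℂ] (m → ℂ)} {σ : (m → ℂ) →ₗ[ℂ] (n → ℂ)}
  {K W0 W : Submodule ℂ (n → ℂ)} {X0 T : Submodule ℂ (m → ℂ)} {M N h γ γ' g g' κ k ks r ρ t q : ℕ}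
  {E : Subfield ℂ} {Φ : Fin t → n → ℂ}

theorem g1r {V Y : Type} [AddCommGroup V] [Module ℂ V] [Co V] [AddCommGroup Y] [Module ℂ Y] [Co Y]
    {Φ : Fin t → V} {S : Submodule ℂ V} {s : ℕ} (h : GenIn E Φ (cols (Fin t) S) s) {f : V →ₗ[ℂ] Y}
    (rf : RM E f) {D : Submodule ℂ Y} (rD : RS E D) :
    dm D + t ≤ dm (range (f ∘ₗ lin Φ) ⊔ D) ∨ dm (S.map f ⊔ D) ≤ dm (range (f ∘ₗ lin Φ) ⊔ D) + s := by
  have a1 := g1 h rf rD
  have a2 := dm_comap_top (f ∘ₗ lin Φ) D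
  rw [card_fun] at a2
  rw [Fintype.card_fin] at a1 a2
  omega

theorem prod_bound (f f' k : (n → ℂ) →ₗ[ℂ] (m → ℂ)) (W : Submodule ℂ (n → ℂ))
    (D : Submodule ℂ ((m → ℂ) × (m → ℂ))) :
    dm (W.map f') + dm (W.map k) ≤ dm (W.map (f.prod f') ⊔ W.map (k.prod 0) ⊔ D) := by
  have b1 : W.map (f.prod f') ≤ W.map (f.prod f') ⊔ W.map (k.prod 0) ⊔ D :=
    le_sup_left.trans le_sup_left
  have b2 : W.map (k.prod 0) ≤ W.map (f.prod f') ⊔ W.map (k.prod 0) ⊔ D :=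
    le_sup_right.trans le_sup_left
  generalize W.map (f.prod f') ⊔ W.map (k.prod 0) ⊔ D = Q at b1 b2 ⊢
  have a2 := dm_map_ker (LinearMap.snd ℂ _ _) Q
  have a3 : dm (W.map f') ≤ dm (Q.map (LinearMap.snd ℂ _ _)) := dm_mono (by
    rintro _ ⟨v, hv, rfl⟩
    exact ⟨_, b1 ⟨v, hv, rfl⟩, rfl⟩)
  have a4 : dm (W.map k) ≤ dm (Q ⊓ ker (LinearMap.snd ℂ _ _)) :=
    dm_le_of_inj (LinearMap.inl ℂ _ _) (by
      rintro _ ⟨v, hv, rfl⟩
      exact ⟨b2 ⟨v, hv, rfl⟩, rfl⟩)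
      fun v _ e => congrArg Prod.fst e
  omega

section

variable (b : Base A1 A2 A3 σ K W0 X0 M N h γ γ' g g' κ k ks r ρ t q) (hW : W ≤ W0)
  (dW : dm W0 ≤ dm W + 2 * q) (p : Rat0 A1 A2 A3 σ K T E) (hΦ : GenIn E Φ (cols (Fin t) W) 0)
include b hW dW

theorem lam (t0 : t ≠ 0) {x1 x2 x3 : ℂ} (hx : x1 ≠ 0 ∨ x2 ≠ 0) :
    dm (ker (tr (x1 • A1 + x2 • A2 + x3 • A3)) ⊓ perp (W.map A3)) + h + t + q + 4 ≤ M := by
  have a1 := b.hr x1 x2 x3 (by tauto)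
  have a2 := dm_rk' (x1 • A1 + x2 • A2 + x3 • A3)
  have a3 := dm_mono (inf_le_left :
    ker (tr (x1 • A1 + x2 • A2 + x3 • A3)) ⊓ perp (W.map A3) ≤ _)
  have a4 := dm_le_of_inj (tr A3) (S := ker (tr (x1 • A1 + x2 • A2 + x3 • A3)) ⊓ perp (W.map A3))
    (T := perp W) (fun η hη => by
      have := hη.2
      rwa [perp_map] at this) fun η hη e => b.l3 x1 x2 x3 hx η e hη.1
  have a5 := dm_perp W
  have a6 := b.nm.n3 t0
  have a7 := b.dW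
  have a8 := b.hM
  have a9 := b.hN
  omega

theorem m3 : M ≤ dm (W.map A3) + g' + 2 * γ' + 2 * q := by
  have a1 := dm_le_map_add A3 W
  have a2 := b.g3
  have a3 := b.dW
  have a4 := b.nm.e2
  omega

include p hΦ

theorem up_U {x1 x2 : ℂ} (hx : x1 ≠ 0 ∨ x2 ≠ 0) (y y' : Fin t → ℂ)
    (hy : x1 • A1 (lin Φ y) + x2 • A2 (lin Φ y) + A3 (lin Φ y') ∈ K.map A1) : y = 0 ∧ y' = 0 := by
  by_cases t0 : t = 0
  · exact ⟨fin_zero t0 y, fin_zero t0 y'⟩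
  have dK : dm (K.map A1) ≤ κ := b.dK ▸ dm_map_le A1 K
  obtain ⟨E1, e1, h1, h2⟩ := ext2 E x1 x2
  obtain ⟨r1, r2, r3, _, _, _, _, rK, _⟩ := p.mono e1.le
  have a1 := m3 b hW dW
  have a2 := b.nm.n2 t0
  obtain ⟨a, rfl⟩ := g2' (hΦ.ext e1) r3 ((r1.smul h1).add (r2.smul h2)) (RS.map r1 rK)
    (y := y') (z := y) (by rw [add_comm]; exact hy) (by rw [Fintype.card_fin]; omega)
  have : y = 0 := by
    obtain ⟨E2, e2, h1, h2, h3⟩ := ext3 E x1 x2 a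
    obtain ⟨r1, r2, r3, _, _, _, _, rK, _⟩ := p.mono e2.le
    refine g1e (hΦ.ext e2) (rm_sl r1 r2 r3 h1 h2 h3) (RS.map r1 rK) (by simpa using hy) ?_
    have a3 := b.u1 t0 x1 x2 a (by tauto)
    have a4 := dm_map_ge (x1 • A1 + x2 • A2 + a • A3) hW ⊥
    have a5 := dm_mono (le_sup_left : W.map (x1 • A1 + x2 • A2 + a • A3) ≤ _ ⊔ K.map A1)
    rw [sup_bot_eq, sup_bot_eq] at a4
    rw [Fintype.card_fin]
    omega
  simp [this]

theorem u23_U {a c : ℂ} (ha : a ≠ 0) {Te : Submodule ℂ (m → ℂ)} (hT : Te = ⊥ ∨ Te = T)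
    (hΓ : γ ≤ dm ((ker A1).map (a • A2 + c • A3) ⊔ Te) + ks)
    (D : Submodule ℂ (((Fin t → ℂ) × (Fin t → ℂ)) × (Fin t → ℂ)))
    (h2 : ∀ ω ∈ D, a • A2 (lin Φ ω.1.1) - (a • A2 + c • A3) (σ (A2 (lin Φ ω.1.2))) ∈
      (ker A1).map (a • A2 + c • A3) ⊔ Te)
    (h1 : ∀ ω ∈ D, A1 (lin Φ ω.1.1) - A2 (lin Φ ω.1.2) + A3 (lin Φ ω.2) ∈ K.map A1) :
    dm D + h ≤ dm ((ker A1).map (a • A2 + c • A3) ⊔ Te) + q + 4 := by
  have hq := b.nm.hq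
  have up := fun x1 x2 hx => up_U b hW dW p hΦ (x1 := x1) (x2 := x2) hx
  have d0 : dm (D.map (LinearMap.fst ℂ _ _)) = dm D := dm_map_eq fun ω hω e => by
    have e1 := h1 ω hω
    have e2 : ω.1 = 0 := e
    rw [e2] at e1
    exact Prod.ext e2 (up 1 0 (Or.inl one_ne_zero) 0 ω.2 (by simpa using e1)).2
  by_cases h0 : D.map (LinearMap.fst ℂ _ _) ≤ ⊥
  · have := dm_zero h0
    omega
  obtain ⟨_, ⟨⟨⟨w, y2⟩, y3⟩, hω, rfl⟩, o2, E1, s, e1, o3, o4⟩ := pv1 (RS.top (E := E)) le_top h0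
  replace h1 := h1 _ hω
  replace h2 := h2 _ hω
  dsimp only at h1 h2
  rw [LinearMap.fst_apply] at o2 o4
  obtain ⟨o5, o6⟩ := rv_prod.1 o4
  dsimp only at o2 o5 o6
  rw [Submodule.mem_bot] at o2
  rw [dm_top, Module.finrank_prod, card_fun, Fintype.card_fin] at o3
  have t0 : t ≠ 0 := fun t0 => o2 (Prod.ext (fin_zero t0 _) (fin_zero t0 _))
  have hw : w ∉ ℂ ∙ y2 := fun e => by
    obtain ⟨μ, rfl⟩ := Submodule.mem_span_singleton.1 e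
    have := (up μ (-1) (Or.inr (by simp)) y2 y3 (by simpa [sub_eq_add_neg] using h1)).1
    exact o2 (by simp [this])
  have hy2 : y2 ∉ ℂ ∙ w := fun e => by
    obtain ⟨μ, rfl⟩ := Submodule.mem_span_singleton.1 e
    have := (up 1 (-μ) (Or.inl one_ne_zero) w y3 (by simpa [sub_eq_add_neg] using h1)).1
    exact o2 (by simp [this])
  have dK : dm (K.map A1) ≤ κ := b.dK ▸ dm_map_le A1 K
  have m2 := m3 b.swap hW dW
  have dW0 := b.dW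
  obtain ⟨E2, e2, ha2, hc2⟩ := ext2 E1 a c
  have l2 := e1.le.trans e2.le
  obtain ⟨r1, r2, r3, rσ, _, _, _, rK, _⟩ := p.mono l2
  have rM := (r2.smul ha2).add (r3.smul hc2)
  have rΓ := (RS.map rM (RS.ker r1)).sup ((p.mono l2).te hT)
  rcases b.nm.n4 t0 with n4 | ⟨q0, n4, n5⟩
  · have a1 := g2 ((hΦ.ext e1).ext e2) (r2.smul ha2) (rM.comp (rσ.comp r2)).neg rΓ (o5.mono e2.le)
      (o6.mono e2.le) hw (by rw [sub_eq_add_neg] at h2; exact h2)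
    have a2 := dm_mono (le_sup_left : W.map A2 ≤ _ ⊔ ((ker A1).map (a • A2 + c • A3) ⊔ Te))
    rw [Submodule.map_smul _ _ _ ha] at a1
    omega
  by_cases hy3 : y3 ∈ pen y2 w
  · obtain ⟨β, α, rfl⟩ := mem_pen.1 hy3
    obtain ⟨E3, e3, hα, hβ⟩ := ext2 E2 α β
    have a1 := g2 (((hΦ.ext e1).ext e2).ext e3)
      (((r2.mono e3.le).smul (neg_mem (one_mem E3))).add ((r3.mono e3.le).smul hβ))
      ((r1.mono e3.le).add ((r3.mono e3.le).smul hα)) ((RS.map r1 rK).mono e3.le)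
      (o6.mono (e2.le.trans e3.le)) (o5.mono (e2.le.trans e3.le)) hy2 (by
        have : ((-1 : ℂ) • A2 + β • A3) (lin Φ y2) + (A1 + α • A3) (lin Φ w) =
            A1 (lin Φ w) - A2 (lin Φ y2) + A3 (lin Φ (β • y2 + α • w)) := by
          simp only [map_add, map_smul, LinearMap.add_apply, LinearMap.smul_apply]
          module
        rwa [this])
    have a2 := b.hρ (-1) β (Or.inl (by simp))
    have a3 := dm_map_sup_le ((-1 : ℂ) • A2 + β • A3) W (K.map A1)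
    have a4 := dm_mono (le_sup_left : range ((-1 : ℂ) • A2 + β • A3) ≤ _ ⊔ K.map A1)
    rw [card_fun, b.hN] at a3
    omega
  · obtain ⟨E3, e3, o7⟩ := ext_vec E2 y3
    have l3 := e2.le.trans e3.le
    have a1 := g3s (((hΦ.ext e1).ext e2).ext e3) ((r1.prod (r2.smul ha2)).mono e3.le)
      ((r2.prod (rM.comp (rσ.comp r2))).neg.mono e3.le) ((r3.prod RM.zero).mono e3.le)
      (((RS.map r1 rK).prod rΓ).mono e3.le) (o5.mono l3) (o6.mono l3) o7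
      (fun e => hy3 (exch e hw)) hy3 ⟨by simpa [sub_eq_add_neg] using h1,
        by simpa [sub_eq_add_neg] using h2⟩
    have a3 := prod_bound A1 (a • A2) A3 W
      ((K.map A1).prod ((ker A1).map (a • A2 + c • A3) ⊔ Te))
    have a5 := dm_map_ker A2 W
    have a6 := dm_le_add A3 LinearMap.id (S := W ⊓ ker A2) (T := W.map A3) (K := K)
      (fun v hv => ⟨v, hv.1, rfl⟩) (fun v hv e => b.KK v hv.2 e) fun _ _ _ e => e
    have a7 := b.dK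
    rw [Submodule.map_smul _ _ _ ha] at a3
    rw [dm_prod, Fintype.card_fin] at a1
    omega

theorem stU : StU A1 A2 A3 σ K T M N h γ κ ks t q (lin Φ) := by
  have hM := b.hM
  have hN := b.hN
  have hq := b.nm.hq
  have n1 := b.nm.n1
  have m3 := m3 b hW dW
  have dW0 := b.dW
  refine ⟨fun y => b.W2 _ (hW (lin_mem hΦ.mem y)), fun x1 x2 hx => up_U b hW dW p hΦ hx,
    fun a c ha Te hT => u23_U b hW dW p hΦ ha hT, fun x1 x2 x3 hx => ?_, ?_, fun a c ha => ?_,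
    fun t0 a c hac Te hT hΓ f hf => ?_⟩
  · obtain ⟨E1, e1, h1, h2, h3⟩ := ext3 E x1 x2 x3
    obtain ⟨r1, r2, r3, _⟩ := p.mono e1.le
    have a1 := b.hr x1 x2 x3 (by tauto)
    have a2 := fun t0 => lam b hW dW t0 (x3 := x3) hx
    have a3 := g1 (hΦ.ext e1) r3 (RS.range (rm_sl r1 r2 r3 h1 h2 h3))
    generalize x1 • A1 + x2 • A2 + x3 • A3 = B at a1 a2 a3 ⊢
    have a4 := dm_comap_top B (range (A3 ∘ₗ lin Φ))
    have a5 := dm_sup_inf (range B) (range (A3 ∘ₗ lin Φ))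
    have a6 : dm (range B ⊓ range (A3 ∘ₗ lin Φ)) ≤ dm ((range B).comap (A3 ∘ₗ lin Φ)) :=
      dm_le_of_surj (A3 ∘ₗ lin Φ) (by
        rintro _ ⟨h1, y, rfl⟩
        exact ⟨y, h1, rfl⟩)
    have a8 := dm_perp (W.map A3 ⊔ range B)
    have a10 := dm_le ((range B).comap (A3 ∘ₗ lin Φ))
    rw [perp_sup, perp_range, inf_comm] at a8
    rw [card_fun] at a4 a10
    rw [Fintype.card_fin] at a3 a10
    omega
  · obtain ⟨r1, r2, r3, _⟩ := p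
    have a1 := g1 hΦ r3 (RS.map r1 (RS.ker r2))
    have a2 := dm_le (((ker A2).map A1).comap (A3 ∘ₗ lin Φ))
    have a3 := dm_mono (le_sup_left : W.map A3 ≤ _ ⊔ (ker A2).map A1)
    have a4 := dm_map_ker A1 (ker A2)
    have a5 := b.k12
    have a6 := dm_le_add A3 LinearMap.id (S := W ⊓ ker A2) (T := W.map A3) (K := K)
      (fun v hv => ⟨v, hv.1, rfl⟩) (fun v hv e => b.KK v hv.2 e) fun _ _ _ e => e
    have a7 := dm_sup_inf W (W0 ⊓ ker A2)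
    have a8 := dm_mono (sup_le hW inf_le_left : W ⊔ W0 ⊓ ker A2 ≤ W0)
    have a9 := dm_mono (inf_le_inf_left W (inf_le_right : W0 ⊓ ker A2 ≤ _))
    have a10 := b.dW2
    have a11 := b.nm.n5
    have a12 := b.dK
    have a13 := b.g2
    rw [inf_comm (ker A2)] at a4
    rw [card_fun] at a2
    rw [Fintype.card_fin] at a1 a2
    omega
  · obtain ⟨E1, e1, ha1, hc1⟩ := ext2 E a c
    obtain ⟨_, _, _, _, _, r2, r3, _⟩ := p.mono e1.le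
    have a1 := b.hrM (a := a) (c := c) (Or.inl ha)
    have a2 := fun t0 => lam b hW dW t0 (x1 := 0) (x3 := c) (Or.inr ha)
    have a4 := dm_rk' (a • A2 + c • A3)
    rw [zero_smul, zero_add] at a2
    have a3 := dm_mono (inf_le_left :
      ker (tr (a • A2 + c • A3)) ⊓ perp (range (A3 ∘ₗ lin Φ)) ≤ _)
    rcases gf (hΦ.ext e1) r3 (RS.ker (rm_trM r2 r3 ha1 hc1))
      (D := ker (tr (a • A2 + c • A3)) ⊓ perp (range (A3 ∘ₗ lin Φ))) inf_le_left (fun η hη => by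
        have := hη.2
        rwa [LinearMap.range_comp, perp_map] at this) with h1 | h1
    · rw [← perp_map] at h1
      have a5 := dm_mono (le_inf inf_le_left h1)
      omega
    · rw [Fintype.card_fin] at h1
      omega
  · obtain ⟨E1, e1, ha1, hc1⟩ := ext2 E a c
    obtain ⟨r1, r2, r3, rσ, _⟩ := p.mono e1.le
    have rM := (r2.smul ha1).add (r3.smul hc1)
    have rΓ := (RS.map rM (RS.ker r1)).sup ((p.mono e1.le).te hT)
    have a1 := g1r (hΦ.ext e1) r3 rΓ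
    have a2 := g1r (hΦ.ext e1) (rM.comp (rσ.comp r3)) rΓ
    have a3 := b.hρ a c hac
    generalize a • A2 + c • A3 = B at *
    have a4 := dm_mono (sup_le_sup_left (le_sup_right : (ker A1).map B ⊔ Te ≤
      range ((B ∘ₗ σ ∘ₗ A3) ∘ₗ lin Φ) ⊔ _) (range (A3 ∘ₗ lin Φ)))
    have a5 := dm_mono (le_sup_right : range ((B ∘ₗ σ ∘ₗ A3) ∘ₗ lin Φ) ⊔ ((ker A1).map B ⊔ Te) ≤
      range (A3 ∘ₗ lin Φ) ⊔ _)
    have a6 : dm (ker A1 ⊔ W.map (σ ∘ₗ A3)) = dm (ker A1) + dm (W.map (σ ∘ₗ A3)) :=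
      dm_sup_eq (by
        rintro _ h0 ⟨w, hw, rfl⟩
        have h2 : A1 (σ (A3 w)) = 0 := h0
        rw [b.sig' (b.W3 w (hW hw))] at h2
        simp [h2])
    have a7 : dm (W.map A3) ≤ dm (W.map (σ ∘ₗ A3)) := dm_le_of_surj A1 (by
      rintro _ ⟨w, hw, rfl⟩
      exact ⟨_, ⟨w, hw, rfl⟩, b.sig' (b.W3 w (hW hw))⟩)
    have a8 := dm_le_map_add B (ker A1 ⊔ W.map (σ ∘ₗ A3))
    have a9 : (ker A1 ⊔ W.map (σ ∘ₗ A3)).map B ≤ W.map (B ∘ₗ σ ∘ₗ A3) ⊔ ((ker A1).map B ⊔ Te) := by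
      rw [Submodule.map_sup, ← Submodule.map_comp]
      exact sup_le (le_sup_left.trans le_sup_right) le_sup_left
    have a10 := dm_mono a9
    have a11 := dm_mono (le_sup_left : W.map A3 ≤ _ ⊔ ((ker A1).map B ⊔ Te))
    have a12 := dm_rk B
    have a13 := b.nm.n6 t0
    have a14 := b.nm.n7 (Or.inl t0)
    have a15 := b.g1
    have a16 := b.nm.e1
    omega

end

end Pool.Agent.P.MP_098a67_ag.R3
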