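import Pool.Agent.P.MP_098a67_ag.R3.Pre

namespace Pool.Agent.P.MP_098a67_ag.R3

open Module T3
open LinearMap (ker range)

variable {m n : Type} [Fintype m] [DecidableEq m] [Fintype n] [DecidableEq n]

/-- The data of a good triangle of slices. -/
structure Base (A1 A2 A3 : (n → ℂ) →ₗ[ℂ] (m → ℂ)) (σ : (m → ℂ) →ₗ[ℂ] (n → ℂ))
    (K W0 : Submodule ℂ (n → ℂ)) (X0 : Submodule ℂ (m → ℂ))
    (M N h γ γ' g g' κ k ks r ρ t q : ℕ) : Prop where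
  nm : Nums M N h γ γ' g g' κ k ks r ρ t q
  hM : Fintype.card m = M
  hN : Fintype.card n = N
  g1 : dm (ker A1) = γ
  g2 : dm (ker A2) = g
  g3 : dm (ker A3) = g
  sig : ∀ v, A1 (σ (A1 v)) = A1 v
  K2 : ∀ v ∈ K, A2 v = 0
  K3 : ∀ v ∈ K, A3 v = 0
  KK : ∀ v, A2 v = 0 → A3 v = 0 → v ∈ K
  dK : dm K = κ
  KN : ∀ v ∈ K, A1 v = 0 → v = 0
  hr : ∀ x1 x2 x3 : ℂ, x1 ≠ 0 ∨ x2 ≠ 0 ∨ x3 ≠ 0 → r ≤ dm (range (x1 • A1 + x2 • A2 + x3 • A3))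
  hρ : ∀ a b : ℂ, a ≠ 0 ∨ b ≠ 0 → ρ ≤ dm (range (a • A2 + b • A3))
  l1 : ∀ a b : ℂ, a ≠ 0 ∨ b ≠ 0 → ∀ η, tr A1 η = 0 → tr (a • A2 + b • A3) η = 0 → η = 0
  l2 : ∀ x1 x2 x3 : ℂ, x1 ≠ 0 ∨ x3 ≠ 0 → ∀ η, tr A2 η = 0 →
    tr (x1 • A1 + x2 • A2 + x3 • A3) η = 0 → η = 0
  l3 : ∀ x1 x2 x3 : ℂ, x1 ≠ 0 ∨ x2 ≠ 0 → ∀ η, tr A3 η = 0 →
    tr (x1 • A1 + x2 • A2 + x3 • A3) η = 0 → η = 0
  n2 : γ ≤ dm ((ker A1).map A2) + ks
  n3 : γ ≤ dm ((ker A1).map A3) + ks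
  W2 : ∀ w ∈ W0, A2 w ∈ range A1
  W3 : ∀ w ∈ W0, A3 w ∈ range A1
  dW : N ≤ dm W0 + 2 * γ'
  dW2 : g ≤ dm (W0 ⊓ ker A2) + γ'
  dW3 : g ≤ dm (W0 ⊓ ker A3) + γ'
  X2 : X0 ≤ perp ((ker A1).map A2)
  X3 : X0 ≤ perp ((ker A1).map A3)
  dX : M + k + ks ≤ dm X0 + 2 * γ
  s2 : q ≠ 0 → ∀ β : ℂ, 2 * h ≤ dm (range (β • A1 + A2))
  s3 : q ≠ 0 → ∀ β : ℂ, 2 * h ≤ dm (range (β • A1 + A3))
  x1 : q ≠ 0 → ∀ x1 x2 x3 : ℂ, x1 ≠ 0 ∨ x2 ≠ 0 ∨ x3 ≠ 0 →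
    q + 3 ≤ dm (X0.map (tr (x1 • A1 + x2 • A2 + x3 • A3)))
  u1 : t ≠ 0 → ∀ x1 x2 x3 : ℂ, x1 ≠ 0 ∨ x2 ≠ 0 ∨ x3 ≠ 0 →
    κ + t + 3 + 2 * q ≤ dm (W0.map (x1 • A1 + x2 • A2 + x3 • A3))

variable {A1 A2 A3 : (n → ℂ) →ₗ[ℂ] (m → ℂ)} {σ : (m → ℂ) →ₗ[ℂ] (n → ℂ)}
  {K W0 : Submodule ℂ (n → ℂ)} {X0 T : Submodule ℂ (m → ℂ)} {M N h γ γ' g g' κ k ks r ρ t q : ℕ}

theorem Base.swap (b : Base A1 A2 A3 σ K W0 X0 M N h γ γ' g g' κ k ks r ρ t q) :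
    Base A1 A3 A2 σ K W0 X0 M N h γ γ' g g' κ k ks r ρ t q :=
  { b with
    g2 := b.g3
    g3 := b.g2
    K2 := b.K3
    K3 := b.K2
    KK := fun v h1 h2 => b.KK v h2 h1
    hr := fun x1 x2 x3 hx => by rw [add_right_comm]; exact b.hr x1 x3 x2 (by tauto)
    hρ := fun a c hx => by rw [add_comm]; exact b.hρ c a hx.symm
    l1 := fun a c hx => by rw [add_comm]; exact b.l1 c a hx.symm
    l2 := fun x1 x2 x3 hx => by rw [add_right_comm]; exact b.l3 x1 x3 x2 hx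
    l3 := fun x1 x2 x3 hx => by rw [add_right_comm]; exact b.l2 x1 x3 x2 hx
    n2 := b.n3
    n3 := b.n2
    W2 := b.W3
    W3 := b.W2
    dW2 := b.dW3
    dW3 := b.dW2
    X2 := b.X3
    X3 := b.X2
    s2 := b.s3
    s3 := b.s2
    x1 := fun q0 x1 x2 x3 hx => by rw [add_right_comm]; exact b.x1 q0 x1 x3 x2 (by tauto)
    u1 := fun t0 x1 x2 x3 hx => by
      rw [add_right_comm (x1 • A1)]; exact b.u1 t0 x1 x3 x2 (by tauto) }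

namespace Base

variable (b : Base A1 A2 A3 σ K W0 X0 M N h γ γ' g g' κ k ks r ρ t q)
include b

theorem sig' {v : m → ℂ} (hv : v ∈ range A1) : A1 (σ v) = v := by
  obtain ⟨w, rfl⟩ := hv
  exact b.sig w

theorem c1 : dm (ker (tr A1)) = γ' := by
  have := dm_rk A1
  have := dm_rk' A1
  have := b.nm.e1
  have := b.g1
  have := b.hM
  have := b.hN
  omega

theorem c2 : dm (ker (tr A2)) = g' := by
  have := dm_rk A2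
  have := dm_rk' A2
  have := b.nm.e2
  have := b.g2
  have := b.hM
  have := b.hN
  omega

theorem hrM {a c : ℂ} (ha : a ≠ 0 ∨ c ≠ 0) : r ≤ dm (range (a • A2 + c • A3)) := by
  have := b.hr 0 a c (Or.inr ha)
  rwa [zero_smul, zero_add] at this

theorem k12 : dm (ker A1 ⊓ ker A2) ≤ ks := by
  have := dm_map_ker A2 (ker A1)
  have := b.n2
  have := b.g1
  omega

end Base

/-- The rationality of the basic data. -/
def Rat0 (A1 A2 A3 : (n → ℂ) →ₗ[ℂ] (m → ℂ)) (σ : (m → ℂ) →ₗ[ℂ] (n → ℂ))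
    (K : Submodule ℂ (n → ℂ)) (T : Submodule ℂ (m → ℂ)) (E : Subfield ℂ) : Prop :=
  RM E A1 ∧ RM E A2 ∧ RM E A3 ∧ RM E σ ∧ RM E (tr A1) ∧ RM E (tr A2) ∧ RM E (tr A3) ∧
    RS E K ∧ RS E T

theorem ev_rat0 : Ev (Rat0 A1 A2 A3 σ K T) :=
  (ev_rm A1).and ((ev_rm A2).and ((ev_rm A3).and ((ev_rm σ).and ((ev_rm _).and ((ev_rm _).and
    ((ev_rm _).and ((ev_rs K).and (ev_rs T))))))))

theorem Rat0.swap {E : Subfield ℂ} (r : Rat0 A1 A2 A3 σ K T E) : Rat0 A1 A3 A2 σ K T E := by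
  obtain ⟨r1, r2, r3, r4, r5, r6, r7, r8⟩ := r
  exact ⟨r1, r3, r2, r4, r5, r7, r6, r8⟩

theorem Rat0.mono {E E' : Subfield ℂ} (r : Rat0 A1 A2 A3 σ K T E) (e : E ≤ E') :
    Rat0 A1 A2 A3 σ K T E' := by
  obtain ⟨r1, r2, r3, r4, r5, r6, r7, r8, r9⟩ := r
  exact ⟨r1.mono e, r2.mono e, r3.mono e, r4.mono e, r5.mono e, r6.mono e, r7.mono e, r8.mono e,
    r9.mono e⟩

theorem Rat0.te {E : Subfield ℂ} (r : Rat0 A1 A2 A3 σ K T E) {Te : Submodule ℂ (m → ℂ)}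
    (hT : Te = ⊥ ∨ Te = T) : RS E Te := by
  rcases hT with rfl | rfl
  · exact RS.bot
  · exact r.2.2.2.2.2.2.2.2

/-- Properties of the generic space of killed rows. -/
structure StX (A1 A2 A3 : (n → ℂ) →ₗ[ℂ] (m → ℂ)) (h γ' κ t q : ℕ)
    (ξ : (Fin q → ℂ) →ₗ[ℂ] (m → ℂ)) : Prop where
  n2 : ∀ y v, A1 v = 0 → ξ y ⬝ᵥ A2 v = 0
  xall : ∀ θ y2 y3, tr A1 (ξ θ) + tr A2 (ξ y2) + tr A3 (ξ y3) = 0 → θ = 0 ∧ y2 = 0 ∧ y3 = 0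
  x3 : dm (((ker (tr A2)).map (tr A1)).comap (tr A3 ∘ₗ ξ)) + h ≤ t + κ + γ' + 4

theorem stX (b : Base A1 A2 A3 σ K W0 X0 M N h γ γ' g g' κ k ks r ρ t q) {E : Subfield ℂ}
    {Φ : Fin q → m → ℂ} (p : Rat0 A1 A2 A3 σ K T E) (hΦ : GenIn E Φ (cols (Fin q) X0) 0) :
    StX A1 A2 A3 h γ' κ t q (lin Φ) := by
  have dX := b.dX
  have hM := b.hM
  obtain ⟨_, _, _, _, r1, r2, r3, _⟩ := p
  refine ⟨fun y v hv => b.X2 (lin_mem hΦ.mem y) _ ⟨v, hv, rfl⟩, fun θ y2 y3 h4 => ?_, ?_⟩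
  · by_cases q0 : q = 0
    · exact ⟨fin_zero q0 θ, fin_zero q0 y2, fin_zero q0 y3⟩
    have m1 := dm_le_map_add (tr A1) X0
    have n13 := b.nm.n13 q0
    have n14 := b.nm.n14 q0
    rw [b.c1] at m1
    obtain ⟨α, β, rfl⟩ := g3' hΦ r1 r2 r3 h4 (by rw [Fintype.card_fin]; omega)
    obtain ⟨E1, e1, hα, hβ⟩ := ext2 E α β
    have a1 := dm_le_map_add (tr (β • A1 + A3)) X0
    have a2 := b.s3 q0 β
    have a3 := dm_rk' (β • A1 + A3)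
    obtain ⟨μ, rfl⟩ := g2' (hΦ.ext e1) (f := tr (β • A1 + A3))
      (by rw [tr_add, tr_smul]; exact ((r1.mono e1.le).smul hβ).add (r3.mono e1.le))
      (((r1.mono e1.le).smul hα).add (r2.mono e1.le)) RS.bot (y := y3) (z := y2) (by
        rw [Submodule.mem_bot, tr_add, tr_smul]
        simp only [map_add, map_smul, LinearMap.add_apply, LinearMap.smul_apply] at h4 ⊢
        linear_combination (norm := module) h4) (by rw [Fintype.card_fin, dm_bot]; omega)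
    obtain ⟨E2, e2, h1, h2, h3⟩ := ext3 E (α + β * μ) 1 μ
    have hy : y2 = 0 := by
      refine g1e (hΦ.ext e2) (rm_trsl (r1.mono e2.le) (r2.mono e2.le) (r3.mono e2.le) h1 h2 h3)
        RS.bot ?_ ?_
      · rw [Submodule.mem_bot, tr_sl]
        simp only [map_add, map_smul] at h4
        linear_combination (norm := module) h4
      · have := b.x1 q0 (α + β * μ) 1 μ (by simp)
        rw [Fintype.card_fin, sup_bot_eq, dm_bot]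
        omega
    simp [hy]
  · have a1 := g1 hΦ r3 (RS.map r1 (RS.ker r2))
    have a2 := dm_le (((ker (tr A2)).map (tr A1)).comap (tr A3 ∘ₗ lin Φ))
    have a3 := dm_map_le (tr A1) (ker (tr A2))
    have a4 := dm_mono (le_sup_left : X0.map (tr A3) ≤ _ ⊔ (ker (tr A2)).map (tr A1))
    have m3 := dm_le_map_add (tr A3) X0
    have ht := b.nm.ht
    have n15 := b.nm.n15
    rw [b.c2] at a3
    rw [b.swap.c2] at m3
    rw [card_fun] at a2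
    rw [Fintype.card_fin] at a1 a2
    omega

end Pool.Agent.P.MP_098a67_ag.R3
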