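import Pool.Agent.P.MP_098a67_ag.R3.StG

namespace Pool.Agent.P.MP_098a67_ag.R3

open Module T3
open LinearMap (ker range)

variable {m n : Type} [Fintype m] [DecidableEq m] [Fintype n] [DecidableEq n]

/-- The map subtracted from the second slice. -/
structure YD (A1 A2 : (n → ℂ) →ₗ[ℂ] (m → ℂ)) (H J : Submodule ℂ (n → ℂ)) {t q : ℕ}
    (u : (Fin t → ℂ) →ₗ[ℂ] (n → ℂ)) (ξ : (Fin q → ℂ) →ₗ[ℂ] (m → ℂ))
    (π : (n → ℂ) →ₗ[ℂ] (n → ℂ)) (Y : (n → ℂ) →ₗ[ℂ] (m → ℂ))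
    (ν : (n → ℂ) →ₗ[ℂ] (n → ℂ)) : Prop where
  p1 : ∀ v ∈ H, π v = v
  p2 : ∀ v ∈ J, π v = 0
  p3 : ∀ v, π v ∈ H
  p4 : ∀ v, v - π v ∈ J
  y1 : ∀ v ∈ J, Y v = 0
  y2 : ∀ v, Y v ∈ H.map A1
  y3 : ∀ y, Y (u y) = A2 (u y)
  y4 : ∀ y v, ξ y ⬝ᵥ Y v = ξ y ⬝ᵥ A2 v
  kν : ker ν = J ⊔ range u

variable {A1 A2 A3 : (n → ℂ) →ₗ[ℂ] (m → ℂ)} {σ : (m → ℂ) →ₗ[ℂ] (n → ℂ)}
  {K W0 H J : Submodule ℂ (n → ℂ)} {X0 T : Submodule ℂ (m → ℂ)}
  {M N h γ γ' g g' κ k ks r ρ t q f2 f3 : ℕ} {u : (Fin t → ℂ) →ₗ[ℂ] (n → ℂ)}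
  {ξ : (Fin q → ℂ) →ₗ[ℂ] (m → ℂ)} {E E4 : Subfield ℂ} {F2 : Fin f2 → n → ℂ} {F3 : Fin f3 → n → ℂ}
  {π ν π' ν' : (n → ℂ) →ₗ[ℂ] (n → ℂ)} {Y Y' : (n → ℂ) →ₗ[ℂ] (m → ℂ)} {Φ Φ' : n → m → ℂ}

theorem YD.add (d : YD A1 A2 H J u ξ π Y ν) (hΦ : Φ ∈ cols n (H.map A1 ⊓ perp (range ξ))) :
    YD A1 A2 H J u ξ π (Y + lin Φ ∘ₗ ν) ν := by
  have h0 : ∀ v ∈ J ⊔ range u, lin Φ (ν v) = 0 := fun v hv => by
    rw [← d.kν] at hv
    rw [show ν v = 0 from hv, map_zero]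
  refine { d with y1 := fun v hv => ?_, y2 := fun v => ?_, y3 := fun y => ?_, y4 := fun y v => ?_ }
  · show Y v + lin Φ (ν v) = 0
    rw [d.y1 v hv, h0 v (Submodule.mem_sup_left hv), add_zero]
  · exact Submodule.add_mem _ (d.y2 v) (lin_mem hΦ _).1
  · show Y (u y) + lin Φ (ν (u y)) = _
    rw [d.y3, h0 _ (Submodule.mem_sup_right ⟨y, rfl⟩), add_zero]
  · show ξ y ⬝ᵥ (Y v + lin Φ (ν v)) = _
    rw [dotProduct_add, d.y4, dotProduct_comm _ (lin Φ _), (lin_mem hΦ _).2 _ ⟨y, rfl⟩, add_zero]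

theorem YD.mem_ker (d : YD A1 A2 H J u ξ π Y ν) {v : n → ℂ} (hv : v ∈ ker ν) :
    ∃ j ∈ J, ∃ y, j + u y = v := by
  rw [d.kν] at hv
  obtain ⟨j, hj, _, ⟨y, rfl⟩, e⟩ := Submodule.mem_sup.1 hv
  exact ⟨j, hj, y, e⟩

theorem YD.perp_mem (d : YD A1 A2 H J u ξ π Y ν) (v : n → ℂ) : A2 v - Y v ∈ perp (range ξ) := by
  rintro _ ⟨y, rfl⟩
  rw [dotProduct_comm, dotProduct_sub, d.y4, sub_self]

theorem mem_perp_I {ζ : m → ℂ} (hζ : ζ ∈ perp (T ⊓ perp (range ξ))) :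
    ∃ η ∈ perp T, ∃ y, η + ξ y = ζ := by
  rw [perp_inf, perp_perp] at hζ
  obtain ⟨η, hη, _, ⟨y, rfl⟩, e⟩ := Submodule.mem_sup.1 hζ
  exact ⟨η, hη, y, e⟩

theorem map_J {v : n → ℂ} (hv : v ∈ ker A1 ⊔ K ⊔ H) : A1 v ∈ (K ⊔ H).map A1 := by
  rw [sup_assoc] at hv
  obtain ⟨a, ha, b, hb, rfl⟩ := Submodule.mem_sup.1 hv
  rw [map_add, show A1 a = 0 from ha, zero_add]
  exact ⟨b, hb, rfl⟩

namespace Ctx

variable (c : Ctx A1 A2 A3 σ K W0 X0 T M N h γ γ' g g' κ k ks r ρ t q f2 f3 u ξ E F2 F3)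
include c

theorem exY : ∃ π Y ν, YD A1 A2 (Hs σ A2 u F2) (ker A1 ⊔ K ⊔ Hs σ A3 u F3) u ξ π Y ν := by
  obtain ⟨π, p1, p2, p3⟩ := exists_proj c.dj
  have p4 : ∀ v, v - π v ∈ ker A1 ⊔ K ⊔ Hs σ A3 u F3 := fun v => by
    have : v ∈ ker A1 ⊔ K ⊔ Hs σ A3 u F3 ⊔ Hs σ A2 u F2 := by rw [c.top]; trivial
    obtain ⟨a, ha, b, hb, rfl⟩ := Submodule.mem_sup.1 this
    rw [map_add, p1 b hb, p2 a ha, zero_add, add_sub_cancel_right]
    exact ha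
  obtain ⟨ν, hν⟩ := exists_ker (ker A1 ⊔ K ⊔ Hs σ A3 u F3 ⊔ range u)
  obtain ⟨p, hp⟩ := (π ∘ₗ u).exists_leftInverse_of_injective (LinearMap.ker_eq_bot'.2 fun y hy => by
    have := p4 (u y)
    rw [show π (u y) = 0 from hy, sub_zero] at this
    exact c.d2a (r1 := 1) (r2 := 0) (Or.inl one_ne_zero) y (by simpa using map_J this))
  obtain ⟨G, hg⟩ := (tr ξ ∘ₗ ((Hs σ A2 u F2).map A1).subtype).exists_rightInverse_of_surjective (by
    rw [LinearMap.range_comp, Submodule.range_subtype]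
    refine eq_top_of_perp fun y hy => ?_
    rw [perp_map, tr_tr, Submodule.mem_comap, perp_map] at hy
    exact c.d2b (r1 := 1) (r2 := 0) (Or.inl one_ne_zero) y
      (by simpa using perp_anti le_sup_right hy))
  have hg' : ∀ z, tr ξ (G z) = z := fun z => LinearMap.congr_fun hg z
  have hJ : ∀ v ∈ ker A1 ⊔ K ⊔ Hs σ A3 u F3, tr ξ (A2 v) = 0 := fun v hv =>
    eq_of_dot fun y => by
      rw [tr_dot, zero_dotProduct, dotProduct_comm]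
      obtain ⟨x, hx⟩ := mem_J hv
      obtain ⟨ν, v0, y', h1, h2, e⟩ := mem_Cs.1 hx
      have h3 := lin_mem c.gen.snd.mem x _ ⟨y, rfl⟩
      rw [dotProduct_comm, LinearMap.comp_apply, tr_dot] at h3
      rw [← sub_add_cancel v (lin F3 x), ← e]
      simp only [map_add, dotProduct_add, c.sx.n2 y ν h1, c.b.K2 v0 h2, c.xa, h3,
        dotProduct_zero, add_zero]
  have hπ : ∀ v, tr ξ (A2 (π v)) = tr ξ (A2 v) := fun v => by
    have := hJ _ (p4 v)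
    rw [map_sub, map_sub] at this
    exact (sub_eq_zero.1 this).symm
  let Y := (A2 ∘ₗ u ∘ₗ p + ((Hs σ A2 u F2).map A1).subtype ∘ₗ G ∘ₗ
    (tr ξ ∘ₗ A2 - tr ξ ∘ₗ A2 ∘ₗ u ∘ₗ p)) ∘ₗ π
  have hY : ∀ v, Y v = A2 (u (p (π v))) + G (tr ξ (A2 (π v)) - tr ξ (A2 (u (p (π v))))) :=
    fun _ => rfl
  refine ⟨π, Y, ν, p1, p2, p3, p4, fun v hv => ?_, fun v => ?_, fun y => ?_, fun y v => ?_, hν⟩
  · rw [hY, p2 v hv]
    simp
  · rw [hY]
    exact Submodule.add_mem _ ⟨_, Submodule.mem_sup_left ⟨_, rfl⟩, c.s2 _⟩ (G _).2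
  · rw [hY, show p (π (u y)) = y from LinearMap.congr_fun hp y, hπ, sub_self]
    simp
  · have : tr ξ (Y v) = tr ξ (A2 v) := by rw [hY, map_add, hg', hπ, add_sub_cancel]
    rw [dotProduct_comm, ← tr_dot, this, tr_dot, dotProduct_comm]

theorem dHJ : dm (Hs σ A2 u F2) + dm (ker A1 ⊔ K ⊔ Hs σ A3 u F3) = N := by
  rw [← dm_sup_eq c.dj, sup_comm, c.top, dm_top, card_fun, c.b.hN]

variable (d : YD A1 A2 (Hs σ A2 u F2) (ker A1 ⊔ K ⊔ Hs σ A3 u F3) u ξ π Y ν)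
  (gΦ : GenIn E4 Φ (cols n ((Hs σ A2 u F2).map A1 ⊓ perp (range ξ))) 0)
  (r1 : RM E4 A1) (r2 : RM E4 A2) (rπ : RM E4 π) (rY : RM E4 Y) (rν : RM E4 ν)
  (rI : RS E4 ((Hs σ A2 u F2).map A1 ⊓ perp (range ξ)))
include d gΦ r1 r2 rπ rY rν rI

theorem small : RK2 (A1 ∘ₗ π) (Y + lin Φ ∘ₗ ν) (t + f2 + 4) := by
  have d' := d.add gΦ.mem
  have a1 := c.dHJ
  have a2 := c.dH
  have a3 := dm_map_le A1 (Hs σ A2 u F2)
  refine pt0 _ _ ((Hs σ A2 u F2).map A1) (ker A1 ⊔ K ⊔ Hs σ A3 u F3)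
    (N + 2 - dm ((Hs σ A2 u F2).map A1)) _ (fun v => ⟨_, d.p3 v, rfl⟩) d'.y2
    (fun v hv => ⟨by simp [d.p2 v hv], d'.y1 v hv⟩) (fun a b hab => ?_) (by omega)
  suffices ker (a • (A1 ∘ₗ π) + b • (Y + lin Φ ∘ₗ ν)) ≤ ker A1 ⊔ K ⊔ Hs σ A3 u F3 ∨
      dm (ker (a • (A1 ∘ₗ π) + b • (Y + lin Φ ∘ₗ ν))) + dm ((Hs σ A2 u F2).map A1) ≤ N + 2 by
    rcases this with h1 | h1
    · have := dm_mono h1
      omega
    · omega
  by_cases hb : b = 0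
  · refine Or.inl fun v hv => ?_
    have ha := hab.resolve_right (not_not.2 hb)
    have h1 : A1 (π v) = 0 := by simpa [hb, ha] using hv
    have h2 := d.p4 v
    rwa [c.dj _ (d.p3 v) (Submodule.mem_sup_left (Submodule.mem_sup_left h1)), sub_zero] at h2
  by_cases z : ker (a • (A1 ∘ₗ π) + b • (Y + lin Φ ∘ₗ ν)) ≤ ker ν
  · refine Or.inl fun v hv => ?_
    obtain ⟨j, hj, y, rfl⟩ := d.mem_ker (z hv)
    have h1 : a • A1 (π (j + u y)) + b • (Y + lin Φ ∘ₗ ν) (j + u y) = 0 := hv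
    rw [map_add, map_add (Y + lin Φ ∘ₗ ν), d.p2 j hj, d'.y1 j hj, d'.y3, zero_add, zero_add] at h1
    have h2 : y = 0 := c.d2a hab y (by
      have : a • A1 (u y) + b • A2 (u y) = a • A1 (u y - π (u y)) := by
        rw [map_sub]
        linear_combination (norm := module) h1
      rw [this]
      exact Submodule.smul_mem _ _ (map_J (d.p4 _)))
    rwa [h2, map_zero, add_zero]
  · right
    obtain ⟨E5, e5, ha5, hb5⟩ := ext2 E4 a b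
    have rB := (((r1.mono e5.le).comp (rπ.mono e5.le)).smul ha5).add ((rY.mono e5.le).smul hb5)
    have hv : ∀ v ∈ ker (a • (A1 ∘ₗ π) + b • (Y + lin Φ ∘ₗ ν)),
        (a • (A1 ∘ₗ π) + b • Y) v = -(b • lin Φ (ν v)) := fun v hv => by
      have h1 : a • A1 (π v) + b • (Y v + lin Φ (ν v)) = 0 := hv
      show a • A1 (π v) + b • Y v = _
      linear_combination (norm := module) h1
    have b1 := gm (gΦ.ext e5) (RM.id.smul hb5) (rν.mono e5.le) rB.neg RS.bot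
      (RS.comap rB (rI.mono e5.le)) (fun v h1 => by
        rw [Submodule.mem_comap, hv v h1]
        exact Submodule.neg_mem _ (Submodule.smul_mem _ _ (lin_mem gΦ.mem _))) (fun v h1 => by
        rw [LinearMap.neg_apply, hv v h1]
        simp) z
    have b2 := dm_comap_top (a • (A1 ∘ₗ π) + b • Y) ((Hs σ A2 u F2).map A1 ⊓ perp (range ξ))
    have b3 : (Hs σ A2 u F2).map A1 ≤
        range (a • (A1 ∘ₗ π) + b • Y) ⊔ (Hs σ A2 u F2).map A1 ⊓ perp (range ξ) := by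
      refine le_of_perp fun ζ hζ => ?_
      rw [perp_sup] at hζ
      obtain ⟨η, hη, y, rfl⟩ := mem_perp_I hζ.2
      have hy : y = 0 := c.d2b hab y (by
        rintro _ ⟨x, rfl⟩
        have h1 := hζ.1 _ ⟨lin F2 x, rfl⟩
        have h2 : lin F2 x ∈ Hs σ A2 u F2 := Submodule.mem_sup_right ⟨x, rfl⟩
        simp only [LinearMap.add_apply, LinearMap.smul_apply, LinearMap.comp_apply, d.p1 _ h2,
          add_dotProduct, dotProduct_add, dotProduct_smul, hη _ ⟨_, h2, rfl⟩, hη _ (d.y2 _),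
          d.y4, smul_zero, zero_add] at h1
        simp only [add_dotProduct, smul_dotProduct, tr_dot]
        exact h1)
      rwa [hy, map_zero, add_zero]
    have b4 := dm_mono b3
    rw [map_smul_id hb, sup_bot_eq, dm_bot] at b1
    rw [card_fun, c.b.hN] at b2
    omega

theorem vertex : dm (ker (A2 - (Y + lin Φ ∘ₗ ν))) + h ≤ t + κ + q + γ + 4 := by
  have d' := d.add gΦ.mem
  by_cases z : ker (A2 - (Y + lin Φ ∘ₗ ν)) ≤ ker ν
  · have a1 : ker (A2 - (Y + lin Φ ∘ₗ ν)) ≤ (ker A1 ⊔ K ⊔ Hs σ A3 u F3) ⊓ ker A2 ⊔ range u := by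
      intro v hv
      obtain ⟨j, hj, y, rfl⟩ := d.mem_ker (z hv)
      have h1 : A2 (j + u y) - (Y + lin Φ ∘ₗ ν) (j + u y) = 0 := hv
      rw [map_add, map_add (Y + lin Φ ∘ₗ ν), d'.y1 j hj, d'.y3, zero_add,
        add_sub_cancel_right] at h1
      exact Submodule.add_mem_sup ⟨hj, h1⟩ ⟨y, rfl⟩
    have a2 := (dm_mono a1).trans (dm_sup_le _ _)
    have a3 := dm_range_fin u
    have a4 := c.va
    omega
  · have hv : ∀ v ∈ ker (A2 - (Y + lin Φ ∘ₗ ν)), (A2 - Y) v = lin Φ (ν v) := fun v hv => by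
      have h1 : A2 v - (Y v + lin Φ (ν v)) = 0 := hv
      show A2 v - Y v = _
      linear_combination (norm := module) h1
    have b1 := gm gΦ RM.id rν (r2.sub rY) RS.bot (RS.comap (r2.sub rY) rI) (fun v h1 => by
        rw [Submodule.mem_comap, hv v h1]
        exact lin_mem gΦ.mem _) (fun v h1 => by
        rw [hv v h1]
        simp) z
    have b2 := dm_comap_top (A2 - Y) ((Hs σ A2 u F2).map A1 ⊓ perp (range ξ))
    have b3 := dm_perp (range (A2 - Y) ⊔ (Hs σ A2 u F2).map A1 ⊓ perp (range ξ))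
    have b4 : perp (range (A2 - Y) ⊔ (Hs σ A2 u F2).map A1 ⊓ perp (range ξ)) ≤
        ker (tr A2) ⊓ perp ((range (lin F2)).map A1) ⊔ range ξ := by
      intro ζ hζ
      rw [perp_sup] at hζ
      obtain ⟨η, hη, y, rfl⟩ := mem_perp_I hζ.2
      refine Submodule.add_mem_sup ⟨eq_of_dot fun v => ?_,
        perp_anti (Submodule.map_mono le_sup_right) hη⟩ ⟨y, rfl⟩
      have h1 := hζ.1 _ ⟨v, rfl⟩
      simp only [LinearMap.sub_apply, add_dotProduct, dotProduct_sub, hη _ (d.y2 _), d.y4,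
        sub_self, sub_zero, add_zero] at h1
      rw [tr_dot, zero_dotProduct]
      linear_combination h1
    have b5 := (dm_mono b4).trans (dm_sup_le _ _)
    have b6 := dm_range_fin ξ
    have b7 := c.vb
    have b8 := c.b.hM
    have b9 := c.b.hN
    have b10 := c.b.nm.e1
    rw [Submodule.map_id, sup_bot_eq, dm_bot] at b1
    rw [card_fun] at b2
    omega

end Ctx

end Pool.Agent.P.MP_098a67_ag.R3
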