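import Pool.Agent.P.MP_098a67_ag.R3.StB

namespace Pool.Agent.P.MP_098a67_ag.R3

open Module T3
open LinearMap (ker range)

variable {m n : Type} [Fintype m] [DecidableEq m] [Fintype n] [DecidableEq n]

/-- The kernels of the pencils through the first slice. -/
structure KS (A1 A2 A3 : (n → ℂ) →ₗ[ℂ] (m → ℂ)) (a' b' : ℂ) (k ks : ℕ) : Prop where
  ha : a' ≠ 0
  hb : b' ≠ 0
  hk : dm (ker A1 ⊓ ker (a' • A2 + b' • A3)) = k
  i1 : ks ≤ k
  i2 : k + ks ≤ dm (ker A1)
  hm : dm ((ker A1).map A2 ⊔ (ker A1).map A3) + k + ks ≤ 2 * dm (ker A1)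
  g0 : ∀ a b : ℂ, a * b' ≠ b * a' → dm (ker A1) ≤ dm ((ker A1).map (a • A2 + b • A3)) + ks
  g1 : dm (ker A1) ≤ dm ((ker A1).map (a' • A2 + b' • A3) ⊔
    (ker A1 ⊓ ker (a' • A2 + b' • A3)).map A3) + ks

theorem ks_data (A1 A2 A3 : (n → ℂ) →ₗ[ℂ] (m → ℂ))
    (c1 : ∀ v, A1 v = 0 → A2 v = 0 → A3 v = 0 → v = 0) {a' b' : ℂ} (ha' : a' ≠ 0) (hb' : b' ≠ 0)
    (hk : ∀ a b : ℂ, a ≠ 0 ∨ b ≠ 0 →
      dm (ker A1 ⊓ ker (a • A2 + b • A3)) ≤ dm (ker A1 ⊓ ker (a' • A2 + b' • A3))) :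
    ∃ ks, KS A1 A2 A3 a' b' (dm (ker A1 ⊓ ker (a' • A2 + b' • A3))) ks := by
  obtain ⟨⟨a1, b1⟩, h1, m1⟩ := exists_max (S := {p : ℂ × ℂ | p.1 * b' ≠ p.2 * a'})
    ⟨(1, 0), by simpa using hb'⟩ (fun p => dm (ker A1 ⊓ ker (p.1 • A2 + p.2 • A3))) _
    fun _ => dm_le _
  have h1' : a1 * b' ≠ b1 * a' := h1
  set K' := ker A1 ⊓ ker (a' • A2 + b' • A3) with hK'
  have d1 := dm_map_ker (a' • A2 + b' • A3) (ker A1)
  have d2 := dm_map_ker (a1 • A2 + b1 • A3) (ker A1)
  have d4 := dm_mono (le_sup_left : _ ≤ (ker A1).map (a' • A2 + b' • A3) ⊔ K'.map A3)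
  have d5 := dm_mono (le_sup_right : _ ≤ (ker A1).map (a' • A2 + b' • A3) ⊔ K'.map A3)
  have d6 : dm (K'.map A3) = dm K' := dm_map_eq fun v hv h3 => c1 v hv.1 (by
    have : a' • A2 v + b' • A3 v = 0 := hv.2
    rwa [h3, smul_zero, add_zero, smul_eq_zero_iff_right ha'] at this) h3
  have d7 : dm (ker A1 ⊓ ker (a1 • A2 + b1 • A3)) ≤ dm K' := hk a1 b1 (by
    by_contra hc
    push Not at hc
    exact h1' (by rw [hc.1, hc.2, zero_mul, zero_mul]))
  have d8 : dm (ker A1 ⊓ ker (a1 • A2 + b1 • A3)) + dm K' ≤ dm (ker A1) := by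
    rw [← dm_sup_eq (S := ker A1 ⊓ ker (a1 • A2 + b1 • A3)) (T := K') fun v hv hv' =>
      c1 v hv.1 (two_zero h1' hv.2 hv'.2).1 (two_zero h1' hv.2 hv'.2).2]
    exact dm_mono (sup_le inf_le_left inf_le_left)
  have d9 := (dm_mono (two_span A2 A3 (ker A1) h1')).trans (dm_sup_le _ _)
  have d10 : dm ((ker A1).map A2 ⊔ (ker A1).map A3) + dm K' ≤
      dm ((ker A1).map (a' • A2 + b' • A3) ⊔ K'.map A3) + dm (ker A1) := by
    obtain ⟨C, _, c2, c3⟩ := exists_compl_in (S := K') (T := ker A1) inf_le_left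
    have e1 := dm_sup_eq c2
    have e2 := two_span A2 A3 (ker A1) (a := a') (b := b') (c := 0) (d := 1) (by simpa using ha')
    rw [zero_smul, zero_add, one_smul] at e2
    have e3 : (ker A1).map A3 = K'.map A3 ⊔ C.map A3 := by rw [← Submodule.map_sup, c3]
    have e4 := dm_mono (e2.trans_eq (c := (ker A1).map (a' • A2 + b' • A3) ⊔ K'.map A3 ⊔ C.map A3)
      (by rw [e3, ← sup_assoc]))
    have e5 := dm_sup_le ((ker A1).map (a' • A2 + b' • A3) ⊔ K'.map A3) (C.map A3)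
    have e6 := dm_map_le A3 C
    rw [c3] at e1
    omega
  rw [← hK'] at d1
  refine ⟨max (dm (ker A1 ⊓ ker (a1 • A2 + b1 • A3)))
      (dm (ker A1) - dm ((ker A1).map (a' • A2 + b' • A3) ⊔ K'.map A3)), ha', hb', rfl, by omega,
    by omega, by omega, fun a b hab => ?_, by rw [← hK']; omega⟩
  have e1 := dm_map_ker (a • A2 + b • A3) (ker A1)
  have e2 : dm (ker A1 ⊓ ker (a • A2 + b • A3)) ≤ _ := m1 (a, b) hab
  dsimp only at e2
  omega

theorem fin_bad (A B : (n → ℂ) →ₗ[ℂ] (m → ℂ)) :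
    {s : ℂ | dm (ker A) < dm (ker (A + s • B))}.Finite := by
  obtain ⟨σ, hσ⟩ := exists_ginv A
  refine ((Module.End.finite_hasEigenvalue (σ ∘ₗ B : Module.End ℂ (n → ℂ))).image
    fun μ => -μ⁻¹).subset fun s hs => ?_
  have hs0 : s ≠ 0 := by
    rintro rfl
    simp at hs
  refine ⟨-s⁻¹, ?_, by simp⟩
  by_contra hc
  refine absurd hs (not_lt.2 (dm_le_of_inj (LinearMap.id - σ ∘ₗ A) (fun v _ => ?_) fun v hv e => ?_))
  · show A (v - σ (A v)) = 0
    rw [map_sub, hσ, sub_self]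
  · by_contra h0
    refine hc (Module.End.hasEigenvalue_of_hasEigenvector (x := v)
      ⟨Module.End.mem_eigenspace_iff.2 ?_, h0⟩)
    have e1 : v - σ (A v) = 0 := e
    have e2 := congrArg σ (show A v + s • B v = 0 from hv)
    rw [map_add, map_smul, map_zero] at e2
    refine smul_right_injective _ hs0 ?_
    show s • σ (B v) = s • -s⁻¹ • v
    rw [smul_smul, mul_neg, mul_inv_cancel₀ hs0]
    linear_combination (norm := module) e1 + e2

variable {X : Type} [AddCommGroup X] [Module ℂ X] [Module.Finite ℂ X] {x y z : X}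
  (T : X →ₗ[ℂ] (n → ℂ) →ₗ[ℂ] (m → ℂ))

/-- No common kernel. -/
def Conc : Prop := ∀ v, (∀ x, T x v = 0) → v = 0

/-- No row of rank one. -/
def L0 : Prop := ∀ x y η, x ≠ 0 → y ∉ ℂ ∙ x → tr (T x) η = 0 → tr (T y) η = 0 → η = 0

/-- Rows that vanish on the kernel of a slice. -/
def XX (x : X) : Submodule ℂ (m → ℂ) where
  carrier := {η | ∀ y v, T x v = 0 → η ⬝ᵥ T y v = 0}
  add_mem' ha hb y v hv := by rw [add_dotProduct, ha y v hv, hb y v hv, add_zero]
  zero_mem' y v _ := zero_dotProduct _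
  smul_mem' c η h y v hv := by rw [smul_dotProduct, h y v hv, smul_zero]

/-- Columns inside the image of a slice. -/
def WW (x : X) : Submodule ℂ (n → ℂ) where
  carrier := {v | ∀ y, T y v ∈ range (T x)}
  add_mem' ha hb y := by rw [map_add]; exact Submodule.add_mem _ (ha y) (hb y)
  zero_mem' y := by rw [map_zero]; exact Submodule.zero_mem _
  smul_mem' c v h y := by rw [map_smul]; exact Submodule.smul_mem _ _ (h y)

/-- The common kernel of a space of slices. -/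
def KK (P : Submodule ℂ X) : Submodule ℂ (n → ℂ) where
  carrier := {v | ∀ x ∈ P, T x v = 0}
  add_mem' ha hb x hx := by rw [map_add, ha x hx, hb x hx, add_zero]
  zero_mem' x _ := map_zero _
  smul_mem' c v hv x hx := by rw [map_smul, hv x hx, smul_zero]

variable {T} in
theorem ker_pen (h : z ∈ pen x y) : ker (T x) ⊓ ker (T y) ≤ ker (T z) := fun v hv => by
  obtain ⟨a, b, rfl⟩ := mem_pen.1 h
  simp [show T x v = 0 from hv.1, show T y v = 0 from hv.2]

theorem KK_le {P : Submodule ℂ X} (hx : x ∈ P) (hy : y ∈ P) :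
    dm (KK T P) ≤ dm (ker (T x) ⊓ ker (T y)) := dm_mono fun _ hv => ⟨hv x hx, hv y hy⟩

theorem le_KK (x y : X) : dm (ker (T x) ⊓ ker (T y)) ≤ dm (KK T (pen x y)) :=
  dm_mono fun _ hv _ hz => ker_pen hz hv

theorem avoid {P : Submodule ℂ X} (hx : x ∈ P) {F : Set (Submodule ℂ X)} (hF : F.Finite)
    (h : ∀ Q ∈ F, ¬ P ≤ Q) : ∃ w ∈ P, dm (ker (T w)) ≤ dm (ker (T x)) ∧ ∀ Q ∈ F, w ∉ Q := by
  have := hF.to_subtype
  obtain ⟨y, hy⟩ := Submodule.exists_forall_notMem_of_forall_ne_top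
    (fun Q : F => Q.1.comap P.subtype) fun Q e => h Q.1 Q.2 (Submodule.comap_subtype_eq_top.1 e)
  have h1 : (⋃ Q ∈ F, {s : ℂ | x + s • y.1 ∈ Q}).Finite := hF.biUnion fun Q hQ =>
    Set.Subsingleton.finite fun s hs s' hs' => by
      by_contra hne
      refine hy ⟨Q, hQ⟩ ((Q.smul_mem_iff (sub_ne_zero.2 hne)).1 ?_)
      have := Q.sub_mem hs hs'
      rwa [add_sub_add_left_eq_sub, ← sub_smul] at this
  obtain ⟨s, hs⟩ := (h1.union (fin_bad (T x) (T y))).exists_notMem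
  simp only [Set.mem_union, Set.mem_iUnion, Set.mem_ofPred_eq, not_or, not_exists, not_lt] at hs
  exact ⟨x + s • y.1, P.add_mem hx (P.smul_mem _ y.2), by rw [map_add, map_smul]; exact hs.2, hs.1⟩

theorem bad_finite (hX : finrank ℂ X = 3) (hx : x ≠ 0) :
    {P : Submodule ℂ X | dm P = 2 ∧ ∀ w ∈ P, dm (ker (T x)) < dm (ker (T w))}.Finite := by
  obtain ⟨y, hy⟩ := exists_off hX x x
  have hy : y ∉ ℂ ∙ x := fun e => hy (Submodule.mem_sup_left e)
  obtain ⟨z, hz⟩ := exists_off hX x y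
  have hz' : z ∉ ℂ ∙ x := fun e => hz (Submodule.mem_sup_left e)
  have fin : ∀ y, {α : ℂ | dm (ker (T x)) < dm (ker (T (y + α • x)))}.Finite := fun y => by
    refine (((fin_bad (T x) (T y)).image fun s => s⁻¹).insert 0).subset fun α hα => ?_
    by_cases h0 : α = 0
    · exact Or.inl h0
    refine Or.inr ⟨α⁻¹, ?_, inv_inv α⟩
    have : T (y + α • x) = α • (T x + α⁻¹ • T y) := by
      rw [map_add, map_smul, smul_add, smul_smul, mul_inv_cancel₀ h0, one_smul, add_comm]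
    rwa [Set.mem_ofPred_eq, this, LinearMap.ker_smul _ _ h0] at hα
  refine ((fin y).image2 (fun α β => pen (y + α • x) (z + β • x)) (fin z)).subset ?_
  rintro P ⟨hP, hb⟩
  have key : ∀ y ∉ ℂ ∙ x, ∃ α : ℂ, y + α • x ∈ P := fun y hy => by
    obtain ⟨w, h1, h2, h3⟩ := meet hX hP (dm_pen hx hy)
    obtain ⟨a, b, rfl⟩ := mem_pen.1 h2
    have hb0 : b ≠ 0 := by
      rintro rfl
      rw [zero_smul, add_zero] at h1 h3
      exact lt_irrefl _ (hb x ((P.smul_mem_iff (left_ne_zero_of_smul h3)).1 h1))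
    refine ⟨a / b, (P.smul_mem_iff hb0).1 ?_⟩
    rwa [smul_add, smul_smul, mul_div_cancel₀ _ hb0, add_comm]
  obtain ⟨α, hα⟩ := key y hy
  obtain ⟨β, hβ⟩ := key z hz'
  exact ⟨α, hb _ hα, β, hb _ hβ,
    eq_of_dm_le (pen_le hα hβ) (by rw [hP, dm_pen_aff hx hy hz])⟩

variable {T}

section

variable (hX : finrank ℂ X = 3) (hx : x ≠ 0)
include hX hx

theorem rk_of3 (hy : y ∉ ℂ ∙ x) (hz : z ∉ pen x y) {r : ℕ} (h : RK3 (T x) (T y) (T z) r) :
    RK T r := by
  choose j hj using span3 hX hx hy hz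
  refine RK.re h j fun w v => ?_
  conv_lhs => rw [← hj w]
  simp

theorem Conc.three (c : Conc T) (hy : y ∉ ℂ ∙ x) (hz : z ∉ pen x y) (v : n → ℂ) (h1 : T x v = 0)
    (h2 : T y v = 0) (h3 : T z v = 0) : v = 0 := c v fun w => by
  obtain ⟨p, rfl⟩ := span3 hX hx hy hz w
  simp [h1, h2, h3]

variable (hy : y ∉ ℂ ∙ x) (hz : z ∉ pen x y)
include hy hz

theorem mem_WW {v : n → ℂ} (h1 : T x v ∈ range (T z)) (h2 : T y v ∈ range (T z)) :
    v ∈ WW T z := fun w => by
  obtain ⟨p, rfl⟩ := span3 hX hx hy hz w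
  simp only [map_add, map_smul, LinearMap.add_apply, LinearMap.smul_apply]
  exact Submodule.add_mem _ (Submodule.add_mem _ (Submodule.smul_mem _ _ h1)
    (Submodule.smul_mem _ _ h2)) (Submodule.smul_mem _ _ ⟨v, rfl⟩)

theorem dm_XX {a' b' : ℂ} {k ks : ℕ} (s : KS (T z) (T x) (T y) a' b' k ks) :
    Fintype.card m + k + ks ≤ dm (XX T z) + 2 * dm (ker (T z)) := by
  have a1 : perp ((ker (T z)).map (T x) ⊔ (ker (T z)).map (T y)) ≤ XX T z := fun η hη w v hv => by
    obtain ⟨p, rfl⟩ := span3 hX hx hy hz w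
    simp only [map_add, map_smul, LinearMap.add_apply, LinearMap.smul_apply, hv, dotProduct_add,
      dotProduct_smul, hη _ (Submodule.mem_sup_left ⟨v, hv, rfl⟩),
      hη _ (Submodule.mem_sup_right ⟨v, hv, rfl⟩), smul_zero, add_zero]
  have a2 := dm_mono a1
  have a3 := dm_perp ((ker (T z)).map (T x) ⊔ (ker (T z)).map (T y))
  have a4 := s.hm
  omega

theorem triT (c : Conc T) (l : L0 T) {a' b' : ℂ} {M N h γ γ' g g' κ k ks r ρ t q : ℕ}
    (s : KS (T z) (T x) (T y) a' b' k ks) (nm : Nums M N h γ γ' g g' κ k ks r ρ t q)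
    (hM : Fintype.card m = M) (hN : Fintype.card n = N) (g1 : dm (ker (T z)) = γ)
    (g2 : dm (ker (T x)) = g) (g3 : dm (ker (T y)) = g) (hκ : dm (ker (T x) ⊓ ker (T y)) = κ)
    (hr : ∀ w ≠ 0, r ≤ dm (range (T w))) (hρ : ∀ w ∈ pen x y, w ≠ 0 → ρ ≤ dm (range (T w)))
    (hs : q ≠ 0 → ∀ β : ℂ, 2 * h ≤ dm (range (T (β • z + x))) ∧ 2 * h ≤ dm (range (T (β • z + y))))
    (x1 : q ≠ 0 → ∀ w ≠ 0, 2 * h ≤ dm (range (T w)) ∨ q + 3 ≤ dm ((XX T z).map (tr (T w))))
    (u1 : t ≠ 0 → ∀ w ≠ 0, κ + t + 3 + 2 * q + 2 * γ' ≤ dm (range (T w)) ∨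
      κ + t + 3 + 2 * q ≤ dm ((WW T z).map (T w))) : RK T (M + N + 16 - h) := by
  obtain ⟨σ, hσ⟩ := exists_ginv (T z)
  have ind : ∀ a b c : ℂ, a • z + b • x + c • y = 0 → a = 0 ∧ b = 0 ∧ c = 0 := fun a b c e => by
    have := ind3 hx hy hz (a := b) (b := c) (c := a) (by linear_combination (norm := module) e)
    tauto
  have nz : ∀ a b c : ℂ, a ≠ 0 ∨ b ≠ 0 ∨ c ≠ 0 → a • z + b • x + c • y ≠ 0 := fun a b c h e => by
    have := ind a b c e
    tauto
  have sl : ∀ a b c : ℂ, T (a • z + b • x + c • y) = a • T z + b • T x + c • T y := fun a b c => by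
    simp only [map_add, map_smul]
  have z0 : z ≠ 0 := fun e => hz (by rw [e]; exact Submodule.zero_mem _)
  have y0 : y ≠ 0 := fun e => hy (by rw [e]; exact Submodule.zero_mem _)
  have e1 := nm.e1
  have cm : ∀ w, N ≤ dm ((range (T z)).comap (T w)) + γ' := fun w => by
    have a1 := dm_comap_top (T w) (range (T z))
    have a2 := dm_le (range (T w) ⊔ range (T z))
    have a3 := dm_rk (T z)
    rw [card_fun] at a1 a2
    omega
  have dW : N ≤ dm (WW T z) + 2 * γ' := by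
    have a1 := dm_inf_ge ((range (T z)).comap (T x)) ((range (T z)).comap (T y))
    have a2 : dm ((range (T z)).comap (T x) ⊓ (range (T z)).comap (T y)) ≤ dm (WW T z) :=
      dm_mono fun v hv => mem_WW hX hx hy hz hv.1 hv.2
    have a3 := cm x
    have a4 := cm y
    rw [card_fun] at a1
    omega
  have dX := dm_XX hX hx hy hz s
  have key := caseB (σ := σ) (K := ker (T x) ⊓ ker (T y)) (W0 := WW T z) (X0 := XX T z)
    (K' := ker (T z) ⊓ ker (a' • T x + b' • T y))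
    ⟨nm, hM, hN, g1, g2, g3, hσ, fun v hv => hv.1, fun v hv => hv.2, fun v h1 h2 => ⟨h1, h2⟩, hκ,
      fun v hv e => c.three hX hx hy hz v hv.1 hv.2 e,
      fun a b c habc => sl a b c ▸ hr _ (nz a b c habc), fun a b hab => ?_,
      fun a b hab η h1 h2 => ?_, fun a b c hab η h1 h2 => ?_, fun a b c hab η h1 h2 => ?_, ?_, ?_,
      fun w hw => hw x, fun w hw => hw y, dW, ?_, ?_, ?_, ?_, by omega, fun q0 β => ?_,
      fun q0 β => ?_, fun q0 a b c habc => ?_, fun t0 a b c habc => ?_⟩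
    s.ha s.hb (fun v hv => hv) (fun a b _ _ hab => g1 ▸ s.g0 a b hab) (g1 ▸ s.g1)
  · refine rk_of3 hX hx hy hz (RK.re key (fun p => (p.2.2, p.1, p.2.1)) fun p v => ?_)
    simp only [LinearMap.add_apply, LinearMap.smul_apply]
    module
  · have := hρ _ (mem_pen.2 ⟨a, b, rfl⟩) fun e => nz 0 a b (Or.inr hab) (by
      rw [zero_smul, zero_add, e])
    rwa [map_add, map_smul, map_smul] at this
  · refine l z (a • x + b • y) η z0 (fun e => ?_) h1 (by rwa [map_add, map_smul, map_smul])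
    obtain ⟨c, e⟩ := Submodule.mem_span_singleton.1 e
    have := ind (-c) a b (by linear_combination (norm := module) -e)
    tauto
  · refine l x (a • z + b • x + c • y) η hx (fun e => ?_) h1 (by rwa [sl])
    obtain ⟨d, e⟩ := Submodule.mem_span_singleton.1 e
    have := ind a (b - d) c (by linear_combination (norm := module) -e)
    tauto
  · refine l y (a • z + b • x + c • y) η y0 (fun e => ?_) h1 (by rwa [sl])
    obtain ⟨d, e⟩ := Submodule.mem_span_singleton.1 e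
    have := ind a b (c - d) (by linear_combination (norm := module) -e)
    tauto
  · have := s.g0 1 0 (by simpa using s.hb)
    rwa [one_smul, zero_smul, add_zero, g1] at this
  · have := s.g0 0 1 (by simpa using s.ha.symm)
    rwa [one_smul, zero_smul, zero_add, g1] at this
  · have a1 := dm_inf_ge (ker (T x)) ((range (T z)).comap (T y))
    have a2 : dm (ker (T x) ⊓ (range (T z)).comap (T y)) ≤ dm (WW T z ⊓ ker (T x)) :=
      dm_mono fun v hv => ⟨mem_WW hX hx hy hz (by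
        rw [show T x v = 0 from hv.1]; exact Submodule.zero_mem _) hv.2, hv.1⟩
    have a3 := cm y
    rw [card_fun] at a1
    omega
  · have a1 := dm_inf_ge (ker (T y)) ((range (T z)).comap (T x))
    have a2 : dm (ker (T y) ⊓ (range (T z)).comap (T x)) ≤ dm (WW T z ⊓ ker (T y)) :=
      dm_mono fun v hv => ⟨mem_WW hX hx hy hz hv.2 (by
        rw [show T y v = 0 from hv.1]; exact Submodule.zero_mem _), hv.1⟩
    have a3 := cm x
    rw [card_fun] at a1
    omega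
  · rintro η hη _ ⟨v, hv, rfl⟩
    exact hη x v hv
  · rintro η hη _ ⟨v, hv, rfl⟩
    exact hη y v hv
  · have := (hs q0 β).1
    rwa [map_add, map_smul] at this
  · have := (hs q0 β).2
    rwa [map_add, map_smul] at this
  · rw [← sl]
    have a1 := x1 q0 _ (nz a b c habc)
    have a2 := dm_le_map_add (tr (T (a • z + b • x + c • y))) (XX T z)
    have a3 := dm_rk' (T (a • z + b • x + c • y))
    have a4 := nm.n14 q0
    omega
  · rw [← sl]
    have a1 := u1 t0 _ (nz a b c habc)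
    have a2 := dm_le_map_add (T (a • z + b • x + c • y)) (WW T z)
    have a3 := dm_rk (T (a • z + b • x + c • y))
    omega

end

end Pool.Agent.P.MP_098a67_ag.R3
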