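import Pool.Agent.P.MP_098a67_ag.R3.TriA

namespace Pool.Agent.P.MP_098a67_ag.R3

open Module T3
open LinearMap (ker range)

variable {m n : Type} [Fintype m] [DecidableEq m] [Fintype n] [DecidableEq n]
  {X : Type} [AddCommGroup X] [Module ℂ X] [Module.Finite ℂ X] {x y z : X}

/-- A pencil that contains a slice of maximal rank. -/
def Good (T : X →ₗ[ℂ] (n → ℂ) →ₗ[ℂ] (m → ℂ)) (g : ℕ) (e : Submodule ℂ X) : Prop :=
  dm e = 2 ∧ ∃ w ∈ e, dm (ker (T w)) ≤ g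

/-- The standing assumptions. -/
structure Cm (T : X →ₗ[ℂ] (n → ℂ) →ₗ[ℂ] (m → ℂ)) (M N h g g' r : ℕ) : Prop where
  hX : finrank ℂ X = 3
  c : Conc T
  l : L0 T
  hM : Fintype.card m = M
  hN : Fintype.card n = N
  hMN : M ≤ N
  hF : 4 * h ≤ N ∨ M + 2 * h ≤ N
  hh : 4 ≤ h
  e2 : g + M = g' + N
  mn : ∀ x ≠ 0, g ≤ dm (ker (T x))
  hr : ∀ x ≠ 0, r ≤ dm (range (T x))
  c6 : h < r
  c9 : g + g' < r + h

variable {T : X →ₗ[ℂ] (n → ℂ) →ₗ[ℂ] (m → ℂ)} {M N h g g' r : ℕ}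

theorem not_le_two {P Q : Submodule ℂ X} (h1 : dm P = 2) (h2 : dm Q = 2) (h3 : P ≠ Q) : ¬ P ≤ Q :=
  fun h4 => h3 (eq_of_dm_le h4 (by omega))

theorem ne_zero_of_notMem {P : Submodule ℂ X} (h : x ∉ P) : x ≠ 0 :=
  fun e => h (by rw [e]; exact P.zero_mem)

namespace Cm

variable (cm : Cm T M N h g g' r)
include cm

theorem choose {e e2 : Submodule ℂ X} (he : Good T g e) (hz : z ∉ e) (d2 : dm e2 = 2) (m2 : z ∈ e2)
    (mx : ∀ P, dm P = 2 → z ∈ P → dm (KK T P) ≤ dm (KK T e2)) :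
    ∃ x y a' b' ks, x ≠ 0 ∧ y ∉ ℂ ∙ x ∧ pen x y = e ∧ x ∉ e2 ∧ y ∉ e2 ∧ dm (ker (T x)) = g ∧
      dm (ker (T y)) = g ∧ dm (ker (T x) ⊓ ker (T y)) = dm (KK T e) ∧ a' • x + b' • y ∈ e2 ∧
      KS (T z) (T x) (T y) a' b' (dm (KK T e2)) ks := by
  obtain ⟨d1, w, hw, gw⟩ := he
  have z0 := ne_zero_of_notMem hz
  have n12 : ¬ e ≤ e2 := not_le_two d1 d2 fun h => hz (h ▸ m2)
  obtain ⟨x, p2, g2, o2⟩ := avoid T hw (Set.finite_singleton e2) (by rintro _ rfl; exact n12)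
  replace o2 := o2 e2 rfl
  have x0 := ne_zero_of_notMem o2
  obtain ⟨y, p3, g3, o3⟩ := avoid T hw ((Set.finite_singleton e2).insert (ℂ ∙ x)) (by
    rintro _ (rfl | rfl)
    · intro h
      have := (dm_mono h).trans (dm_span_le x)
      omega
    · exact n12)
  have s3 := o3 _ (Or.inl rfl)
  replace o3 := o3 e2 (Or.inr rfl)
  have he : pen x y = e := eq_of_dm_le (pen_le p2 p3) (by rw [d1, dm_pen x0 s3])
  have o1 : z ∉ pen x y := he ▸ hz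
  obtain ⟨v, w1, w2, w0⟩ := meet cm.hX d1 d2
  obtain ⟨a', b', rfl⟩ := mem_pen.1 (he ▸ w1 : v ∈ pen x y)
  have off : ∀ a b : ℂ, a ≠ 0 ∨ b ≠ 0 → a • x + b • y ∉ ℂ ∙ z := fun a b hab e => by
    obtain ⟨c, e⟩ := Submodule.mem_span_singleton.1 e
    have := ind3 x0 s3 o1 (a := a) (b := b) (c := -c) (by linear_combination (norm := module) -e)
    tauto
  have ha : a' ≠ 0 := fun e => by
    rw [e, zero_smul, zero_add] at w2 w0
    exact o3 ((e2.smul_mem_iff (left_ne_zero_of_smul w0)).1 w2)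
  have hb : b' ≠ 0 := fun e => by
    rw [e, zero_smul, add_zero] at w2 w0
    exact o2 ((e2.smul_mem_iff (left_ne_zero_of_smul w0)).1 w2)
  have k1 : ∀ a b : ℂ, a ≠ 0 ∨ b ≠ 0 → dm (ker (T z) ⊓ ker (a • T x + b • T y)) ≤ dm (KK T e2) :=
    fun a b hab => by
      have := (le_KK T z (a • x + b • y)).trans (mx _ (dm_pen z0 (off a b hab)) (left_pen _ _))
      rwa [map_add, map_smul, map_smul] at this
  have k2 := KK_le T m2 w2
  rw [map_add, map_smul, map_smul] at k2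
  obtain ⟨ks, s⟩ := ks_data (T z) (T x) (T y)
    (fun v h1 h2 h3 => cm.c.three cm.hX x0 s3 o1 v h2 h3 h1) ha hb
    fun a b hab => (k1 a b hab).trans k2
  rw [le_antisymm (k1 a' b' (Or.inl ha)) k2] at s
  exact ⟨x, y, a', b', ks, x0, s3, he, o2, o3, le_antisymm (g2.trans gw) (cm.mn x x0),
    le_antisymm (g3.trans gw) (cm.mn y (ne_zero_of_notMem o3)),
    le_antisymm (he ▸ le_KK T x y) (KK_le T p2 p3), w2, s⟩

theorem tri2 (hx : x ≠ 0) (hy : y ∉ ℂ ∙ x) (hz : z ∉ pen x y) {a' b' : ℂ}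
    {γ γ' κ k ks ρ t q : ℕ} (s : KS (T z) (T x) (T y) a' b' k ks) (g1 : dm (ker (T z)) = γ)
    (e1 : γ + M = γ' + N) (g2 : dm (ker (T x)) = g) (g3 : dm (ker (T y)) = g)
    (hκ : dm (ker (T x) ⊓ ker (T y)) = κ) (ht : t = h - γ' - κ - 4) (hq : q = h + ks - γ - 4)
    (c8 : r ≤ ρ) (hρ : ∀ w ∈ pen x y, w ≠ 0 → ρ ≤ dm (range (T w)))
    (hR : (g = γ ∧ ks ≤ κ ∧ (2 * h ≤ r ∨ M + 5 ≤ r + h) ∧ (t ≠ 0 → q ≠ 0 → M + 5 ≤ r + h)) ∨
      (t = 0 ∧ (q = 0 ∨ (2 * h ≤ r ∧ h ≤ γ' + 4 ∧ g + g' ≤ 2 * h))) ∨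
      (2 * h ≤ γ + 8 ∧ 2 * h ≤ ρ ∧ M ≤ r + γ' ∧ 2 * h ≤ M ∧ 4 * h ≤ N))
    (hs : q ≠ 0 → ∀ β : ℂ, 2 * h ≤ dm (range (T (β • z + x))) ∧ 2 * h ≤ dm (range (T (β • z + y))))
    (x1 : q ≠ 0 → ∀ w ≠ 0, 2 * h ≤ dm (range (T w)) ∨ q + 3 ≤ dm ((XX T z).map (tr (T w))))
    (u1 : t ≠ 0 → ∀ w ≠ 0, κ + t + 3 + 2 * q + 2 * γ' ≤ dm (range (T w)) ∨
      κ + t + 3 + 2 * q ≤ dm ((WW T z).map (T w))) : RK T (M + N + 16 - h) := by
  have z0 := ne_zero_of_notMem hz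
  have hN := cm.hN
  have a1 := dm_inf_ge (ker (T x)) (ker (T y))
  have a2 := dm_sup_eq (S := ker (T x) ⊓ ker (T y)) (T := ker (T z))
    fun v h1 h2 => cm.c.three cm.hX hx hy hz v h1.1 h1.2 h2
  have a3 := dm_le (ker (T x) ⊓ ker (T y) ⊔ ker (T z))
  have a4 := cm.hr z z0
  have a5 := dm_rk (T z)
  have a6 := cm.mn z z0
  have a7 := dm_mono (inf_le_left : ker (T x) ⊓ ker (T y) ≤ _)
  have a8 := s.i2
  rw [card_fun] at a1 a3
  exact triT cm.hX hx hy hz cm.c cm.l s (nums cm.hMN cm.hF cm.hh e1 cm.e2 ht hq (by omega)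
    (by omega) (by omega) s.i1 (by omega) cm.c6 (by omega) c8 cm.c9 (by omega) hR)
    cm.hM cm.hN g1 g2 g3 hκ cm.hr hρ hs x1 u1

theorem ex_e2 (z0 : z ≠ 0) : ∃ e2, dm e2 = 2 ∧ z ∈ e2 ∧
    ∀ P, dm P = 2 → z ∈ P → dm (KK T P) ≤ dm (KK T e2) := by
  obtain ⟨y, hy⟩ := exists_off cm.hX z z
  obtain ⟨e2, ⟨d2, m2⟩, mx⟩ := exists_max (S := {P : Submodule ℂ X | dm P = 2 ∧ z ∈ P})
    ⟨pen z y, dm_pen z0 fun e => hy (Submodule.mem_sup_left e), left_pen _ _⟩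
    (fun P => dm (KK T P)) _ fun _ => dm_le _
  exact ⟨e2, d2, m2, fun P h1 h2 => mx P ⟨h1, h2⟩⟩

theorem ex_good {x0 : X} (g0 : dm (ker (T x0)) ≤ g) (z0 : z ≠ 0) : ∃ e, Good T g e ∧ z ∉ e := by
  obtain ⟨w, -, h1, h2⟩ := avoid T (P := ⊤) (x := x0) trivial (Set.finite_singleton (ℂ ∙ z)) (by
    rintro _ rfl e
    have := (dm_mono e).trans (dm_span_le z)
    rw [dm_top, cm.hX] at this
    omega)
  replace h2 := h2 _ rfl
  have w0 := ne_zero_of_notMem h2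
  obtain ⟨y, hy⟩ := exists_off cm.hX w z
  refine ⟨pen w y, ⟨dm_pen w0 fun e => hy (Submodule.mem_sup_left e), w, left_pen _ _,
    h1.trans g0⟩, fun e => hy (exch e fun e' => ?_)⟩
  obtain ⟨c, rfl⟩ := Submodule.mem_span_singleton.1 e'
  exact h2 (Submodule.mem_span_singleton.2 ⟨c⁻¹, by
    rw [smul_smul, inv_mul_cancel₀ (left_ne_zero_of_smul z0), one_smul]⟩)

theorem side (hx : x ≠ 0) (hy : y ∉ ℂ ∙ x) (hz : z ∉ pen x y) (β : ℂ) :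
    β • z + x ≠ 0 ∧ β • z + y ≠ 0 :=
  ⟨fun e => one_ne_zero (ind3 hx hy hz (a := 1) (b := 0) (c := β)
    (by linear_combination (norm := module) e)).1, fun e => one_ne_zero
    (ind3 hx hy hz (a := 0) (b := 1) (c := β) (by linear_combination (norm := module) e)).2.1⟩

/-- A slice with a large cokernel. -/
theorem caseBC {e : Submodule ℂ X} (he : Good T g e) (hz : z ∉ e) {γ γ' : ℕ}
    (g1 : dm (ker (T z)) = γ) (e1 : γ + M = γ' + N) (h1 : h ≤ γ' + dm (KK T e) + 4)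
    (h2 : 2 * h ≤ γ + 8 ∨ (2 * h ≤ r ∧ h ≤ γ' + 4 ∧ g + g' ≤ 2 * h)) :
    RK T (M + N + 16 - h) := by
  obtain ⟨e2, d2, m2, mx⟩ := cm.ex_e2 (ne_zero_of_notMem hz)
  obtain ⟨x, y, a', b', ks, hx, hy, rfl, -, -, g2, g3, hκ, -, s⟩ := cm.choose he hz d2 m2 mx
  have i1 := s.i1
  have i2 := s.i2
  refine cm.tri2 hx hy hz s g1 e1 g2 g3 hκ rfl rfl le_rfl (fun w _ w0 => cm.hr w w0)
    (Or.inr (Or.inl (by omega))) (fun q0 β => ⟨?_, ?_⟩) (fun q0 w w0 => Or.inl ?_)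
    fun t0 => absurd (by omega) t0
  · have := cm.hr _ (cm.side hx hy hz β).1
    omega
  · have := cm.hr _ (cm.side hx hy hz β).2
    omega
  · have := cm.hr w w0
    omega

/-- A unique slice of low rank. -/
theorem caseBt {e : Submodule ℂ X} (he : Good T g e) (hz : z ∉ e) (hr : dm (range (T z)) = r)
    (h1 : r < 2 * h) (h2 : 2 * h ≤ M) (h3 : 4 * h ≤ N)
    (low : ∀ w ∉ ℂ ∙ z, 2 * h ≤ dm (range (T w))) (hu : r + 2 ≤ dm ((WW T z).map (T z)) + h) :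
    RK T (M + N + 16 - h) := by
  obtain ⟨e2, d2, m2, mx⟩ := cm.ex_e2 (ne_zero_of_notMem hz)
  obtain ⟨x, y, a', b', ks, hx, hy, rfl, -, -, g2, g3, hκ, -, s⟩ := cm.choose he hz d2 m2 mx
  have i1 := s.i1
  have i2 := s.i2
  have a1 := dm_rk (T z)
  have a2 := dm_rk' (T z)
  have hM := cm.hM
  have hN := cm.hN
  refine cm.tri2 hx hy hz s rfl (γ' := dm (ker (tr (T z)))) (by omega) g2 g3 hκ rfl rfl
    (ρ := 2 * h) h1.le (fun w hw w0 => low w fun e => ?_) (Or.inr (Or.inr (by omega)))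
    (fun q0 => absurd (by omega) q0) (fun q0 => absurd (by omega) q0) fun t0 w w0 => ?_
  · obtain ⟨c, rfl⟩ := Submodule.mem_span_singleton.1 e
    exact hz ((Submodule.smul_mem_iff _ (left_ne_zero_of_smul w0)).1 hw)
  · by_cases e : w ∈ ℂ ∙ z
    · obtain ⟨c, rfl⟩ := Submodule.mem_span_singleton.1 e
      rw [map_smul, Submodule.map_smul _ _ _ (left_ne_zero_of_smul w0)]
      omega
    · have := low w e
      omega

end Cm

end Pool.Agent.P.MP_098a67_ag.R3
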