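import Pool.Agent.P.MP_098a67_ag.R3.TriB

namespace Pool.Agent.P.MP_098a67_ag.R3

open Module T3
open LinearMap (ker range)

variable {m n : Type} [Fintype m] [DecidableEq m] [Fintype n] [DecidableEq n]
  {X : Type} [AddCommGroup X] [Module ℂ X] [Module.Finite ℂ X] {x y z S x0 : X}
  {T : X →ₗ[ℂ] (n → ℂ) →ₗ[ℂ] (m → ℂ)} {M N h g g' r : ℕ}

theorem hard (hX : finrank ℂ X = 3) (hx : x ≠ 0) (hy : y ∉ ℂ ∙ x) (hz : z ∉ pen x y) {a' b' c : ℂ}
    {k ks : ℕ} (s : KS (T z) (T x) (T y) a' b' k ks) (hc : c ≠ 0) (hS : S = c • (a' • x + b' • y)) :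
    dm (range (T S)) + ks ≤
      dm ((WW T S).map (T S)) + dm ((XX T z).map (tr (T S))) + dm (ker (T z)) := by
  have y0 : y ≠ 0 := ne_zero_of_notMem hy
  have z0 : z ≠ 0 := ne_zero_of_notMem hz
  have b1 : y ∉ ℂ ∙ z := fun e => by
    obtain ⟨d, e⟩ := Submodule.mem_span_singleton.1 e
    exact one_ne_zero (ind3 hx hy hz (a := 0) (b := 1) (c := -d)
      (by linear_combination (norm := module) -e)).2.1
  have b2 : S ∉ pen z y := fun e => by
    obtain ⟨d, d', e⟩ := mem_pen.1 e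
    exact mul_ne_zero hc s.ha (ind3 hx hy hz (a := c * a') (b := c * b' - d') (c := -d)
      (by rw [hS] at e; linear_combination (norm := module) -e)).1
  have a1 := dm_XX hX hx hy hz s
  have a2 := dm_map_ker (tr (T S)) (XX T z)
  have a3 : XX T z ⊓ ker (tr (T S)) ≤ perp ((ker (T z)).map (T y) ⊔ range (T S)) := by
    rw [perp_sup, perp_range]
    refine inf_le_inf_right _ ?_
    rintro η hη _ ⟨v, hv, rfl⟩
    exact hη y v hv
  have a4 := dm_mono a3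
  have a5 := dm_perp ((ker (T z)).map (T y) ⊔ range (T S))
  have a6 := dm_comap (T y) (ker (T z)) (range (T S))
  have a7 : ker (T z) ⊓ (range (T S)).comap (T y) ≤ WW T S := fun v hv =>
    mem_WW hX z0 b1 b2 (by rw [show T z v = 0 from hv.1]; exact Submodule.zero_mem _) hv.2
  have a8 := dm_mono (Submodule.map_mono (f := T S) a7)
  have a9 := dm_map_ker (T S) (ker (T z) ⊓ (range (T S)).comap (T y))
  have a10 := dm_mono (inf_le_inf_right (ker (T S))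
    (inf_le_left : ker (T z) ⊓ (range (T S)).comap (T y) ≤ _))
  have a11 : dm (ker (T z) ⊓ ker (T S)) = k := by
    rw [hS, map_smul, LinearMap.ker_smul _ _ hc, map_add, map_smul, map_smul, s.hk]
  omega

theorem numA {c c' k ks L κ t q : ℕ} (hF : 4 * h ≤ N ∨ M + 2 * h ≤ N) (hMN : M ≤ N)
    (ee : g + M = g' + N) (c6 : h < r) (c9 : g + g' < r + h) (k1 : r + c = N) (k2 : r + c' = M)
    (h1 : ¬ (h ≤ c' + 4 ∧ (2 * h ≤ c + 8 ∨ g + g' ≤ 2 * h))) (i1 : ks ≤ k) (i2 : k + ks ≤ g)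
    (k3 : k ≤ L) (l1 : L ≤ κ) (ht : t = h - g' - κ - 4) (hq : q = h + ks - g - 4) :
    (ks ≤ κ ∧ (2 * h ≤ r ∨ M + 5 ≤ r + h) ∧ (t ≠ 0 → q ≠ 0 → M + 5 ≤ r + h)) ∧
      (t ≠ 0 → κ + t + 3 + 2 * q + 2 * g' ≤ r) ∧
      (q ≠ 0 → 2 * h ≤ M ∧ 4 * h ≤ N ∧ 3 * h ≤ M + ks + 5 ∧ q + g + 4 = h + ks) := by
  refine ⟨⟨by omega, by omega, by omega⟩, by omega, by omega⟩

theorem Cm.main (cm : Cm T M N h g g' r) (hx0 : x0 ≠ 0) (g0 : dm (ker (T x0)) = g) (S0 : S ≠ 0)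
    (rS : dm (range (T S)) = r) : RK T (M + N + 16 - h) := by
  classical
  have hX := cm.hX
  have hM := cm.hM
  have hN := cm.hN
  have hF := cm.hF
  have hMN := cm.hMN
  have ee := cm.e2
  have c6 := cm.c6
  have c9 := cm.c9
  have k1 := dm_rk (T S)
  have k2 := dm_rk' (T S)
  by_cases h1 : h ≤ dm (ker (tr (T S))) + 4 ∧ (2 * h ≤ dm (ker (T S)) + 8 ∨ g + g' ≤ 2 * h)
  · obtain ⟨e, he, hz⟩ := cm.ex_good g0.le S0
    exact cm.caseBC he hz rfl (γ' := dm (ker (tr (T S)))) (by omega) (by omega) (by omega)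
  obtain ⟨L, hFs, hZ⟩ : ∃ L : ℕ, {P : Submodule ℂ X | dm P = 2 ∧ L < dm (KK T P)}.Finite ∧
      {P : Submodule ℂ X | dm P = 2 ∧ L ≤ dm (KK T P)}.Infinite := by
    have h1 : ∃ L : ℕ, {P : Submodule ℂ X | dm P = 2 ∧ L < dm (KK T P)}.Finite :=
      ⟨_, Set.finite_empty.subset fun P hP => absurd (dm_le _) (not_le.2 hP.2)⟩
    refine ⟨Nat.find h1, Nat.find_spec h1, ?_⟩
    rcases h0 : Nat.find h1 with _ | m
    · simpa using inf_pts hX
    · exact Nat.find_min h1 (show m < Nat.find h1 by omega)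
  obtain ⟨e0, ⟨⟨d0, k0⟩, n0⟩, e1, ⟨⟨d1, l1⟩, n1⟩, hne⟩ :=
    (hZ.sdiff (hFs.union (bad_finite T hX hx0))).nontrivial
  have good : ∀ e : Submodule ℂ X, dm e = 2 → e ∉ {P : Submodule ℂ X | dm P = 2 ∧
      L < dm (KK T P)} ∪ {P : Submodule ℂ X | dm P = 2 ∧
      ∀ w ∈ P, dm (ker (T x0)) < dm (ker (T w))} → Good T g e := fun e de he => by
    simp only [Set.mem_union, Set.mem_ofPred_eq, not_or, not_and, not_forall, not_lt] at he
    obtain ⟨x, hx, h1⟩ := he.2 de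
    exact ⟨de, x, hx, g0 ▸ h1⟩
  have G0 := good e0 d0 n0
  have G1 := good e1 d1 n1
  obtain ⟨w, hw, gw⟩ := G0.2
  obtain ⟨z, m0, g1, o1⟩ := avoid T hw (hFs.insert e1) (by
    rintro P (rfl | hP)
    · exact not_le_two d0 d1 hne
    · exact not_le_two d0 hP.1 fun e => n0 (Or.inl (e ▸ hP)))
  have hz := o1 e1 (Or.inl rfl)
  have z0 := ne_zero_of_notMem hz
  replace g1 : dm (ker (T z)) = g := le_antisymm (g1.trans gw) (cm.mn z z0)
  have mx : ∀ P, dm P = 2 → z ∈ P → dm (KK T P) ≤ L := fun P h1 h2 =>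
    not_lt.1 fun h3 => o1 P (Or.inr ⟨h1, h3⟩) h2
  obtain ⟨x, y, a', b', ks, hx, hy, he, o2, o3, g2, g3, hκ, w2, s⟩ :=
    cm.choose G1 hz d0 m0 fun P h1 h2 => (mx P h1 h2).trans k0
  have k3 := mx e0 d0 m0
  have i1 := s.i1
  have i2 := s.i2
  subst he
  obtain ⟨t, ht⟩ : ∃ t, t = h - g' - dm (KK T (pen x y)) - 4 := ⟨_, rfl⟩
  obtain ⟨q, hq⟩ : ∃ q, q = h + ks - g - 4 := ⟨_, rfl⟩
  obtain ⟨N1, N2, N3⟩ := numA hF hMN ee c6 c9 (rS ▸ hN ▸ k1) (rS ▸ hM ▸ k2) h1 i1 (g1 ▸ i2) k3 l1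
    ht hq
  have A := cm.tri2 hx hy hz s g1 ee g2 g3 hκ ht hq le_rfl (fun w _ w0 => cm.hr w w0)
    (Or.inl ⟨rfl, N1⟩)
  clear ht hq h1 hF N1 c9 c6
  have u1 : t ≠ 0 → ∀ w ≠ 0, dm (KK T (pen x y)) + t + 3 + 2 * q + 2 * g' ≤ dm (range (T w)) ∨
      dm (KK T (pen x y)) + t + 3 + 2 * q ≤ dm ((WW T z).map (T w)) := fun t0 w w0 =>
    Or.inl ((N2 t0).trans (cm.hr w w0))
  clear N2
  by_cases h2 : q = 0 ∨ 2 * h ≤ r
  · refine A (fun q0 β => ⟨?_, ?_⟩) (fun q0 w w0 => Or.inl ?_) u1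
    · have := cm.hr _ (cm.side hx hy hz β).1
      omega
    · have := cm.hr _ (cm.side hx hy hz β).2
      omega
    · have := cm.hr w w0
      omega
  push Not at h2
  replace N3 := N3 h2.1
  by_cases h3 : ∃ v, dm (range (T v)) < 2 * h ∧ (v ∉ e0 ∨ v ∉ pen x y)
  · obtain ⟨v, v1, v2⟩ := h3
    have a1 := dm_rk (T v)
    have a2 := dm_rk' (T v)
    rcases v2 with v2 | v2
    · exact cm.caseBC G0 v2 rfl (γ' := dm (ker (tr (T v)))) (by omega) (by omega) (by omega)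
    · exact cm.caseBC G1 v2 rfl (γ' := dm (ker (tr (T v)))) (by omega) (by omega) (by omega)
  push Not at h3
  have sp : ∀ v, v ∈ e0 → v ∈ pen x y → v ∈ ℂ ∙ S := fun v h4 h5 => by
    have b1 : (ℂ ∙ S) ≤ e0 ⊓ pen x y :=
      (Submodule.span_singleton_le_iff_mem _ _).2 (h3 S (by omega))
    have b2 := dm_lt (inf_le_left : e0 ⊓ pen x y ≤ e0) m0 fun e => hz e.2
    rw [eq_of_dm_le b1 (by rw [dm_span_single S0]; omega)]
    exact ⟨h4, h5⟩
  have low : ∀ w ∉ ℂ ∙ S, 2 * h ≤ dm (range (T w)) := fun w hw =>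
    not_lt.1 fun e => hw (sp w (h3 w e).1 (h3 w e).2)
  by_cases h4 : q + 3 ≤ dm ((XX T z).map (tr (T S)))
  · refine A (fun q0 β => ⟨not_lt.1 fun e => o2 ?_, not_lt.1 fun e => o3 ?_⟩)
      (fun q0 w w0 => ?_) u1
    · exact (e0.add_mem_iff_right (e0.smul_mem β m0)).1 (h3 _ e).1
    · exact (e0.add_mem_iff_right (e0.smul_mem β m0)).1 (h3 _ e).1
    · by_cases e : w ∈ ℂ ∙ S
      · obtain ⟨c, rfl⟩ := Submodule.mem_span_singleton.1 e
        rw [map_smul, tr_smul, Submodule.map_smul _ _ _ (left_ne_zero_of_smul w0)]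
        exact Or.inr h4
      · exact Or.inl (low w e)
  obtain ⟨c, hc⟩ := Submodule.mem_span_singleton.1 (sp _ w2 (mem_pen.2 ⟨a', b', rfl⟩))
  have c0 : c ≠ 0 := fun e => s.ha (ind3 hx hy hz (a := a') (b := b') (c := 0) (by
    rw [← hc, e, zero_smul, zero_smul, add_zero])).1
  have a1 := hard (S := S) hX hx hy hz s (inv_ne_zero c0) (by
    rw [← hc, smul_smul, inv_mul_cancel₀ c0, one_smul])
  obtain ⟨e, he, hS⟩ := cm.ex_good g0.le S0
  exact cm.caseBt he hS rS (by omega) (by omega) (by omega) low (by omega)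

theorem upper_conc (hX : finrank ℂ X = 3) (c : Conc T) (l : L0 T) (hM : Fintype.card m = M)
    (hN : Fintype.card n = N) (hMN : M ≤ N) (hF : 4 * h ≤ N ∨ M + 2 * h ≤ N) (hh : N ≤ 4 * h + 3) :
    RK T (M + N + 16 - h) := by
  have ne : {x : X | x ≠ 0}.Nonempty := by
    obtain ⟨x, hx⟩ := exists_off hX 0 0
    exact ⟨x, ne_zero_of_notMem hx⟩
  obtain ⟨x0, hx0, m0⟩ := exists_max ne (fun x => dm (range (T x))) _ fun _ => dm_le _
  obtain ⟨S, S0, mS⟩ := exists_max ne (fun x => dm (ker (T x))) _ fun _ => dm_le _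
  obtain ⟨y, hy⟩ := exists_off hX S S
  obtain ⟨z, hz⟩ := exists_off hX S y
  replace hy : y ∉ ℂ ∙ S := fun e => hy (Submodule.mem_sup_left e)
  have fin : ∀ ρ, RK2 (T y) (T z) ρ → dm (range (T S)) + ρ + h ≤ M + N + 16 →
      RK T (M + N + 16 - h) := fun ρ h1 h2 =>
    rk_of3 hX S0 hy hz (RK.mono (rk3_first (B := 0) (k := dm (range (T S))) (by rw [sub_zero])
      (h1.re Prod.snd fun x v => by simp)) (by omega))
  have a1 := dm_rk' (T S)
  have a2 := dm_rk (T x0)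
  have a3 := dm_rk' (T x0)
  by_cases h1 : dm (range (T S)) ≤ h
  · exact fin (M + N + 1 - 2 * h) (rk2_rect _ _ (by rwa [card_fun, card_fun, hM, hN])
      (by rw [card_fun, card_fun]; omega)) (by omega)
  by_cases h2 : h < 4
  · exact fin (M + N + 1 - 2 * (N / 4)) (rk2_rect _ _ (h := N / 4)
      (by rw [card_fun, card_fun]; omega) (by rw [card_fun, card_fun]; omega)) (by omega)
  by_cases h3 : dm (range (T S)) + h ≤ dm (ker (T x0)) + dm (ker (tr (T x0)))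
  · have b1 := rk2_two (T y) (T z) (a := 1) (b := 0) one_ne_zero
    have b2 : dm (range (T y)) ≤ _ := m0 y (ne_zero_of_notMem hy)
    have b3 : dm (range (T z)) ≤ _ := m0 z (ne_zero_of_notMem hz)
    rw [one_smul, zero_smul, add_zero] at b1
    exact fin _ b1 (by omega)
  refine Cm.main (g := dm (ker (T x0))) (g' := dm (ker (tr (T x0)))) (r := dm (range (T S)))
    ⟨hX, c, l, hM, hN, hMN, hF, by omega, by omega, fun x hx => ?_, fun x hx => ?_, by omega,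
      by omega⟩ hx0 rfl S0 rfl
  · have b1 : dm (range (T x)) ≤ _ := m0 x hx
    have b2 := dm_rk (T x)
    omega
  · have b1 : dm (ker (T x)) ≤ _ := mS x hx
    have b2 := dm_rk (T x)
    have b3 := dm_rk (T S)
    omega

end Pool.Agent.P.MP_098a67_ag.R3
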